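import Pool.Agent.Lib.LU3_h26.Perron
import Pool.Agent.Lib.LU1_h15.GalDefs

/-!
# Toric Albanese (block TA of DefectTwo): definitions

See `b525bf_D2_toricalbanese_h1.md`.
-/

set_option autoImplicit false

open Polynomial

namespace Pool.Agent.TA

open Pool.Agent.H15JM (RVal)
open Pool.Agent.LU1 (VPos)
open Pool.Agent.LU3 (Ctx0)

universe u

section

variable {k Ω : Type u} [Field k] [Field Ω] [Algebra k Ω]

/-- `v` is trivial on `k`, has residue field `k` and rational rank `r`; `Ω` has transcendence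
degree `n` over `k`. -/
structure CtxR (k : Type u) {Ω : Type u} [Field k] [Field Ω] [Algebra k Ω] (v : RVal Ω)
    (n r : ℕ) : Prop extends Ctx0 k v n where
  rank : ∃ X : Fin r → Ω, (∀ i, X i ≠ 0) ∧ LinearIndependent ℚ (fun i => v (X i)) ∧
    ∀ g : Ω, g ≠ 0 → v g ∈ Submodule.span ℚ (Set.range fun i => v (X i))

/-- The monomial `x^l`. -/
noncomputable def mx {r : ℕ} (x : Fin r → Ω) (l : Fin r → ℤ) : Ω := ∏ i, x i ^ l i

/-- Toric data: units `b` (values `0`, residues `1`) and monomials `x^(a j)` with different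
exponents; `f j = b j * x^(a j)` is a basis with different values of a finite-dimensional space
`P` containing `1 = f o`; the exponents `a j` generate `ℤ^r`, and `x i` is a Laurent monomial in the
`f j`. -/
structure TD (k : Type u) {Ω : Type u} [Field k] [Field Ω] [Algebra k Ω] (v : RVal Ω) (r : ℕ)
    (ι : Type) [Fintype ι] where
  x : Fin r → Ω
  x_ne : ∀ i, x i ≠ 0
  x_ind : LinearIndependent ℚ fun i => v (x i)
  a : ι → Fin r → ℤ
  a_inj : Function.Injective a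
  b : ι → Ω
  b_ne : ∀ j, b j ≠ 0
  b_res : ∀ j, VPos v (b j - 1)
  o : ι
  a_o : a o = 0
  b_o : b o = 1
  lat : ∀ i, ∃ α : ι → ℤ, (∑ j, α j • a j = Pi.single i 1) ∧ ∏ j, b j ^ α j = 1

/-- `k[b_j, b_j⁻¹]`. -/
def Ab (k : Type u) {Ω : Type u} [Field k] [Field Ω] [Algebra k Ω] {ι : Type} (b : ι → Ω) :
    Subalgebra k Ω :=
  Algebra.adjoin k (Set.range b ∪ Set.range fun j => (b j)⁻¹)

/-- The combinations, with coefficients in `k[b_j, b_j⁻¹]`, of the monomials `x^l` of positive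
value. -/
noncomputable def Is {ι : Type} (v : RVal Ω) {r : ℕ} (x : Fin r → Ω) (b : ι → Ω) :
    Submodule k Ω :=
  Submodule.span k {g | ∃ c ∈ Ab k b, ∃ l : Fin r → ℤ, 0 < v (mx x l) ∧ g = c * mx x l}

theorem mul_mem_Is {ι : Type} (v : RVal Ω) {r : ℕ} (x : Fin r → Ω) (b : ι → Ω) {c g : Ω}
    (hc : c ∈ Ab k b) (hg : g ∈ Is (k := k) v x b) : c * g ∈ Is (k := k) v x b := by
  unfold Is at hg
  induction hg using Submodule.span_induction with
  | mem g hg =>
    obtain ⟨d, hd, l, hl, rfl⟩ := hg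
    exact Submodule.subset_span ⟨c * d, mul_mem hc hd, l, hl, by ring⟩
  | zero => rw [mul_zero]; exact Submodule.zero_mem _
  | add g h _ _ hg hh => rw [mul_add]; exact Submodule.add_mem _ hg hh
  | smul e g _ hg => rw [mul_smul_comm]; exact Submodule.smul_mem _ _ hg

/-- The ideal of the elements of `k[b_j, b_j⁻¹]` in `Is`. -/
def aId {ι : Type} (v : RVal Ω) {r : ℕ} (x : Fin r → Ω) (b : ι → Ω) : Ideal (Ab k b) where
  carrier := {g | (g : Ω) ∈ Is (k := k) v x b}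
  add_mem' := fun {g h} hg hh => by
    change ((g : Ω) + (h : Ω)) ∈ Is (k := k) v x b
    exact Submodule.add_mem _ hg hh
  zero_mem' := (Is (k := k) v x b).zero_mem
  smul_mem' := fun c g hg => by
    change ((c : Ω) * (g : Ω)) ∈ Is (k := k) v x b
    exact mul_mem_Is v x b c.2 hg

theorem b_mem {ι : Type} (b : ι → Ω) (j : ι) : b j ∈ Ab k b :=
  Algebra.subset_adjoin (Or.inl ⟨j, rfl⟩)

theorem binv_mem {ι : Type} (b : ι → Ω) (j : ι) : (b j)⁻¹ ∈ Ab k b :=
  Algebra.subset_adjoin (Or.inr ⟨j, rfl⟩)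

/-- The element `b_j - 1` of `k[b, b⁻¹]`. -/
def bm {ι : Type} (b : ι → Ω) (j : ι) : Ab k b := ⟨b j - 1, sub_mem (b_mem b j) (one_mem _)⟩

/-- The ideal `(b_j - 1)_j` of `k[b, b⁻¹]`. -/
def nId (k : Type u) {Ω : Type u} [Field k] [Field Ω] [Algebra k Ω] {ι : Type} (b : ι → Ω) :
    Ideal (Ab k b) := Ideal.span (Set.range (bm b))

/-- `β(s) = dim B / n^s`, `B = k[b, b⁻¹] / aId`. -/
noncomputable def beta (k : Type u) {Ω : Type u} [Field k] [Field Ω] [Algebra k Ω] {ι : Type}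
    (v : RVal Ω) {r : ℕ} (x : Fin r → Ω) (b : ι → Ω) (s : ℕ) : ℕ :=
  Module.finrank k (Ab k b ⧸ (aId v x b ⊔ nId k b ^ s))

/-- The number of `a ∈ ℕ^r` with `|a| = j`. -/
def cnt (r j : ℕ) : ℕ := (Finset.piAntidiag (Finset.univ : Finset (Fin r)) j).card

/-- `q(s) = ∑_{a ∈ ℕ^r, |a| < s} β(s - |a|)`. -/
def qs (r : ℕ) (β : ℕ → ℕ) (s : ℕ) : ℕ := ∑ j ∈ Finset.range s, cnt r j * β (s - j)

/-- The space `W = span (b_j - 1)`. -/
def Wb (k : Type u) {Ω : Type u} [Field k] [Field Ω] [Algebra k Ω] {ι : Type} (b : ι → Ω) :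
    Submodule k Ω := Submodule.span k (Set.range fun j => b j - 1)

/-- The ring `A = k[x, b, b⁻¹]`. -/
def Ax (k : Type u) {Ω : Type u} [Field k] [Field Ω] [Algebra k Ω] {ι : Type} {r : ℕ}
    (x : Fin r → Ω) (b : ι → Ω) : Subalgebra k Ω :=
  Algebra.adjoin k (Set.range x ∪ (Set.range b ∪ Set.range fun j => (b j)⁻¹))

/-- `(x) A`. -/
def XA (k : Type u) {Ω : Type u} [Field k] [Field Ω] [Algebra k Ω] {ι : Type} {r : ℕ}
    (x : Fin r → Ω) (b : ι → Ω) : Submodule k Ω :=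
  Submodule.span k (Set.range x) * (Ax k x b).toSubmodule

end

end Pool.Agent.TA
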