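import Pool.Agent.Lib.ALB.Choice
import Pool.Agent.Lib.TA.Defs

/-!
# TA5: choice of the coordinates `y` (relative to independent `x`)
-/

set_option autoImplicit false

namespace Pool.Agent.TA

open Submodule Module KaehlerDifferential
open Pool.Agent.ALB

section Filt

variable {k A : Type*} [Field k] [CommRing A] [Algebra k A]

/-- The subspaces `(X) A₀ + W^t A₀`. -/
def Jf (A₀ X W : Submodule k A) (t : ℕ) : Submodule k A := X * A₀ ⊔ W ^ t * A₀

variable {A₀ X W : Submodule k A}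

theorem Jf_zero (hXA : X ≤ A₀) (hAA : A₀ * A₀ ≤ A₀) : Jf A₀ X W 0 = A₀ := by
  rw [Jf, pow_zero, one_mul]
  exact sup_eq_right.mpr ((mul_le_mul' hXA le_rfl).trans hAA)

theorem Jf_succ_le (hWA : W ≤ A₀) (hAA : A₀ * A₀ ≤ A₀) (t : ℕ) :
    Jf A₀ X W (t + 1) ≤ Jf A₀ X W t := by
  refine sup_le_sup le_rfl ?_
  rw [pow_succ, mul_assoc]
  exact mul_le_mul' le_rfl ((mul_le_mul' hWA le_rfl).trans hAA)

theorem Jf_anti (hWA : W ≤ A₀) (hAA : A₀ * A₀ ≤ A₀) : Antitone (Jf A₀ X W) :=
  antitone_nat_of_succ_le (Jf_succ_le hWA hAA)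

theorem Jf_le (hXA : X ≤ A₀) (hWA : W ≤ A₀) (hAA : A₀ * A₀ ≤ A₀) (t : ℕ) :
    Jf A₀ X W t ≤ A₀ := by
  have := Jf_anti (X := X) hWA hAA (Nat.zero_le t)
  rwa [Jf_zero hXA hAA] at this

theorem mul_Jf (hWA : W ≤ A₀) (hAA : A₀ * A₀ ≤ A₀) (t : ℕ) :
    W * Jf A₀ X W t ≤ Jf A₀ X W (t + 1) := by
  rw [Jf, Jf, Submodule.mul_sup]
  refine sup_le_sup ?_ ?_
  · rw [mul_left_comm]
    exact mul_le_mul' le_rfl ((mul_le_mul' hWA le_rfl).trans hAA)
  · rw [← mul_assoc, ← pow_succ']

theorem le_one_sup_Jf (hA : A₀ ≤ 1 ⊔ X * A₀ ⊔ W * A₀) (hWA : W ≤ A₀) (hAA : A₀ * A₀ ≤ A₀)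
    (t : ℕ) : A₀ ≤ (1 ⊔ W) ^ t ⊔ Jf A₀ X W (t + 1) := by
  induction t with
  | zero =>
    rw [pow_zero, zero_add, Jf, pow_one, ← sup_assoc]
    exact hA
  | succ t ih =>
    refine hA.trans (sup_le (sup_le ?_ ?_) ?_)
    · refine le_sup_of_le_left ?_
      have := one_sup_pow_mono W (Nat.zero_le (t + 1))
      simpa using this
    · exact le_sup_of_le_right le_sup_left
    · refine (mul_le_mul' le_rfl ih).trans ?_
      rw [Submodule.mul_sup]
      refine sup_le_sup ?_ (mul_Jf hWA hAA _)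
      rw [pow_succ']
      exact mul_le_mul' le_sup_right le_rfl

theorem finite_map_Jf [FiniteDimensional k W] (hA : A₀ ≤ 1 ⊔ X * A₀ ⊔ W * A₀) (hWA : W ≤ A₀)
    (hAA : A₀ * A₀ ≤ A₀) (t : ℕ) : FiniteDimensional k (A₀.map (Jf A₀ X W t).mkQ) := by
  have h1 : A₀.map (Jf A₀ X W t).mkQ ≤ ((1 ⊔ W) ^ t).map (Jf A₀ X W t).mkQ := by
    rw [← qd_sup_right ((1 ⊔ W) ^ t)]
    exact Submodule.map_mono ((le_one_sup_Jf hA hWA hAA t).trans
      (sup_le_sup le_rfl (Jf_succ_le hWA hAA t)))
  have := finite_one_sup_pow W t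
  exact Submodule.finiteDimensional_of_le h1

theorem sum_qd_Jf [FiniteDimensional k W] (hA : A₀ ≤ 1 ⊔ X * A₀ ⊔ W * A₀) (hXA : X ≤ A₀)
    (hWA : W ≤ A₀) (hAA : A₀ * A₀ ≤ A₀) (T : ℕ) :
    ∑ t ∈ Finset.range T, qd (Jf A₀ X W t) (Jf A₀ X W (t + 1)) = qd A₀ (Jf A₀ X W T) := by
  induction T with
  | zero =>
    rw [Finset.sum_range_zero, Jf_zero hXA hAA, qd, Submodule.mkQ_map_self, finrank_bot]
  | succ T ih =>
    rw [Finset.sum_range_succ, ih]
    have := finite_map_Jf hA hWA hAA (T + 1)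
    exact qd_add (Jf_succ_le hWA hAA T) (Jf_le hXA hWA hAA T)

theorem sum_qd_pow_le [FiniteDimensional k W] (h1 : 1 ≤ A₀) (hA : A₀ ≤ 1 ⊔ X * A₀ ⊔ W * A₀)
    (hXA : X ≤ A₀) (hWA : W ≤ A₀) (hAA : A₀ * A₀ ≤ A₀) (T : ℕ) :
    ∑ t ∈ Finset.range T, qd (W ^ t) (Jf A₀ X W (t + 1)) ≤ qd A₀ (Jf A₀ X W T) := by
  rw [← sum_qd_Jf hA hXA hWA hAA T]
  refine Finset.sum_le_sum fun t _ => ?_
  have : FiniteDimensional k ((Jf A₀ X W t).map (Jf A₀ X W (t + 1)).mkQ) := by
    have h2 := finite_map_Jf hA hWA hAA (t + 1)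
    exact Submodule.finiteDimensional_of_le (Submodule.map_mono (Jf_le hXA hWA hAA t))
  refine qd_mono_left ?_
  refine le_sup_of_le_right ?_
  calc W ^ t = W ^ t * 1 := (mul_one _).symm
    _ ≤ W ^ t * A₀ := mul_le_mul' le_rfl h1

end Filt

section Main

variable {k Ω : Type*} [Field k] [Field Ω] [Algebra k Ω]

/-- **TA5.** `A` a subalgebra with `A = k + (x) A + W A`, `dim A/((x) A + W^T A) ≤ C (T+1)^D`,
`K = k(x, W)`, the `dx i` independent, `trdeg K = r + D`.  Then there are `y_1..y_D ∈ W` with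
`W^(s+1) ⊆ (y) W^s + (x) A + W^(s+2) A` and `K` separable over `k(x, y)`. -/
theorem choice_y [PerfectField k] [Infinite k] (K : IntermediateField k Ω) (r e C : ℕ)
    (hess : Algebra.EssFiniteType k K) (htr : Algebra.trdeg k K ≤ (r + e : ℕ))
    (A : Subalgebra k Ω) (x : Fin r → Ω) (hxK : ∀ i, x i ∈ K) (hxA : ∀ i, x i ∈ A)
    (hdx : LinearIndependent K fun i => D k K (⟨x i, hxK i⟩ : K))
    (W : Submodule k Ω) [FiniteDimensional k W] (hWA : ∀ w ∈ W, w ∈ A)
    (hgen : IntermediateField.adjoin k (Set.range x ∪ (W : Set Ω)) = K)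
    (hA : Subalgebra.toSubmodule A ≤ 1 ⊔ span k (Set.range x) * Subalgebra.toSubmodule A ⊔
      W * Subalgebra.toSubmodule A)
    (hβ : ∀ T, qd (Subalgebra.toSubmodule A)
      (span k (Set.range x) * Subalgebra.toSubmodule A ⊔ W ^ T * Subalgebra.toSubmodule A) ≤
        C * (T + 1) ^ e) :
    ∃ (y : Fin e → Ω) (s : ℕ), (∀ j, y j ∈ W) ∧
      W ^ (s + 1) ≤ span k (Set.range y) * W ^ s ⊔
        (span k (Set.range x) * Subalgebra.toSubmodule A ⊔
          W ^ (s + 2) * Subalgebra.toSubmodule A) ∧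
      (∀ z ∈ K, IsSeparable (IntermediateField.adjoin k (Set.range x ∪ Set.range y)) z) := by
  classical
  set A₀ : Submodule k Ω := Subalgebra.toSubmodule A with hA₀
  set X : Submodule k Ω := span k (Set.range x) with hX
  have h1A : 1 ≤ A₀ := by rw [Submodule.one_le]; exact A.one_mem
  have hXA : X ≤ A₀ := by
    rw [hX, span_le]
    rintro _ ⟨i, rfl⟩
    exact hxA i
  have hAA : A₀ * A₀ ≤ A₀ := by
    rw [Submodule.mul_le]
    exact fun a ha b hb => A.mul_mem ha hb
  have hWK : ∀ w ∈ W, w ∈ K := fun w hw => by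
    rw [← hgen]; exact IntermediateField.subset_adjoin _ _ (Or.inr hw)
  -- the module
  let dx : Fin r → Ω[K⁄k] := fun i => D k K (⟨x i, hxK i⟩ : K)
  let P : Submodule K Ω[K⁄k] := span K (Set.range dx)
  have hMfin : FiniteDimensional K Ω[K⁄k] := inferInstance
  have hdim : finrank K (Ω[K⁄k] ⧸ P) ≤ e := by
    have h1 := Submodule.finrank_quotient_add_finrank P
    have h2 : finrank K P = r := by
      have := finrank_span_eq_card (R := K) hdx
      rw [Fintype.card_fin] at this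
      exact this
    have h3 := finrank_kaehler_le (k := k) (K := K) (r + e) htr
    omega
  -- the derivation on `W`
  let d : W →ₗ[k] (Ω[K⁄k] ⧸ P) :=
    { toFun := fun w => P.mkQ (D k K ⟨w, hWK w w.2⟩)
      map_add' := by
        intro a b
        rw [← map_add, ← map_add]
        rfl
      map_smul' := by
        intro c a
        have h1 : D k K ⟨((c • a : W) : Ω), hWK _ (c • a).2⟩ =
            (algebraMap k K c) • D k K ⟨a, hWK a a.2⟩ := by
          rw [algebraMap_smul, ← Derivation.map_smul]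
          rfl
        rw [RingHom.id_apply, h1, map_smul, algebraMap_smul] }
  have hd : span K (Set.range d) = ⊤ := by
    rw [eq_top_iff]
    intro q _
    obtain ⟨q, rfl⟩ := P.mkQ_surjective q
    have h1 : q ∈ span K (D k K '' ({z : K | (z : Ω) ∈ Set.range x ∪ (W : Set Ω)})) := by
      rw [span_D_of_adjoin]
      · trivial
      · apply IntermediateField.map_injective K.val
        rw [IntermediateField.adjoin_map]
        have h2 : K.val '' {z : K | (z : Ω) ∈ Set.range x ∪ (W : Set Ω)} =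
            Set.range x ∪ (W : Set Ω) := by
          ext y
          constructor
          · rintro ⟨z, hz, rfl⟩
            exact hz
          · intro hy
            refine ⟨⟨y, ?_⟩, hy, rfl⟩
            rcases hy with ⟨i, rfl⟩ | hy
            · exact hxK i
            · exact hWK y hy
        rw [h2, hgen, ← AlgHom.fieldRange_eq_map, IntermediateField.fieldRange_val]
    have h2 := Submodule.mem_map_of_mem (f := P.mkQ) h1
    rw [Submodule.map_span] at h2
    refine Submodule.span_le.mpr ?_ h2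
    rintro _ ⟨_, ⟨z, hz, rfl⟩, rfl⟩
    rcases hz with ⟨i, hi⟩ | hz
    · have h3 : P.mkQ (D k K z) = 0 := by
        rw [Submodule.mkQ_apply, Submodule.Quotient.mk_eq_zero]
        refine subset_span ⟨i, ?_⟩
        have : (⟨x i, hxK i⟩ : K) = z := Subtype.ext hi
        simp only [dx, this]
      rw [h3]
      exact Submodule.zero_mem _
    · exact subset_span ⟨⟨z, hz⟩, rfl⟩
  have hsum : ∀ T, ∑ t ∈ Finset.range T, finrank k ((W ^ t).map (Jf A₀ X W (t + 1)).mkQ) ≤
      C * (T + 1) ^ e := fun T => (sum_qd_pow_le h1A hA hXA hWA hAA T).trans (hβ T)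
  obtain ⟨y, s, h1, h2⟩ := gnn (K := K) W (fun t => Jf A₀ X W (t + 1))
    (fun t => mul_Jf hWA hAA (t + 1)) e C hsum hdim d hd
  refine ⟨fun i => y i, s, fun i => (y i).2, h1, ?_⟩
  -- separability
  let S : Set K := Set.range (fun i => (⟨x i, hxK i⟩ : K)) ∪
    Set.range (fun i => (⟨y i, hWK _ (y i).2⟩ : K))
  have h3 : span K (D k K '' S) = ⊤ := by
    rw [eq_top_iff]
    intro q _
    have hPS : P ≤ span K (D k K '' S) := by
      refine Submodule.span_mono ?_
      rintro _ ⟨i, rfl⟩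
      exact ⟨_, Or.inl ⟨i, rfl⟩, rfl⟩
    have h4 : P.mkQ q ∈ span K (Set.range fun i => d (y i)) := by rw [h2]; trivial
    have h5 : span K (Set.range fun i => d (y i)) ≤ (span K (D k K '' S)).map P.mkQ := by
      rw [span_le]
      rintro _ ⟨i, rfl⟩
      exact Submodule.mem_map_of_mem (subset_span ⟨_, Or.inr ⟨i, rfl⟩, rfl⟩)
    obtain ⟨q', hq', hqq⟩ := h5 h4
    have h6 : q - q' ∈ P := by
      rw [← Submodule.Quotient.mk_eq_zero, Submodule.Quotient.mk_sub, sub_eq_zero]
      exact hqq.symm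
    have h7 : q = (q - q') + q' := by abel
    rw [h7]
    exact Submodule.add_mem _ (hPS h6) hq'
  have h4 := separable_of_span_D (k := k) S h3
  intro z hz
  -- transfer to `Ω`
  set F' := IntermediateField.adjoin k S with hF'
  set F := IntermediateField.adjoin k (Set.range x ∪ Set.range fun i => (y i : Ω)) with hF
  have hmem : ∀ a : F', ((a : K) : Ω) ∈ F := by
    intro a
    have h5 : F = F'.map K.val := by
      rw [hF', IntermediateField.adjoin_map, hF]
      congr 1
      rw [Set.image_union, ← Set.range_comp, ← Set.range_comp]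
      rfl
    rw [h5]
    exact ⟨(a : K), a.2, rfl⟩
  let φ : F' →+* F :=
    { toFun := fun a => ⟨((a : K) : Ω), hmem a⟩
      map_one' := rfl
      map_mul' := fun _ _ => rfl
      map_zero' := rfl
      map_add' := fun _ _ => rfl }
  have h5 : IsSeparable F' (⟨z, hz⟩ : K) := Algebra.IsSeparable.isSeparable F' (⟨z, hz⟩ : K)
  have h6 : (minpoly F' (⟨z, hz⟩ : K)).Separable := h5
  have h7 : Polynomial.aeval z ((minpoly F' (⟨z, hz⟩ : K)).map φ) = 0 := by
    have h8 := minpoly.aeval F' (⟨z, hz⟩ : K)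
    rw [Polynomial.aeval_def] at h8 ⊢
    rw [Polynomial.eval₂_map]
    have h9 : (algebraMap F Ω).comp φ = (algebraMap K Ω).comp (algebraMap F' K) := rfl
    rw [h9]
    have h10 : (algebraMap K Ω) (Polynomial.eval₂ (algebraMap F' K) (⟨z, hz⟩ : K)
        (minpoly F' (⟨z, hz⟩ : K))) = 0 := by rw [h8, map_zero]
    rw [Polynomial.hom_eval₂] at h10
    exact h10
  exact (h6.map (f := φ)).of_dvd (minpoly.dvd F z h7)

end Main

section Glue

open Pool.Agent.H15JM (RVal)
open Pool.Agent.LU1 (VPos)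
open Pool.Agent.LU3 (Ctx0)

universe u

variable {k Ω : Type u} [Field k] [Field Ω] [Algebra k Ω] {v : RVal Ω} {n r D : ℕ}
  {ι : Type} [Fintype ι]

omit [Fintype ι] in
/-- `k[b, b⁻¹] = k + W' k[b, b⁻¹]`. -/
theorem top_le_one_sup (b : ι → Ω) (hb : ∀ j, b j ≠ 0) :
    (⊤ : Submodule k (Ab k b)) ≤
      1 ⊔ (⊥ : Submodule k (Ab k b)) * ⊤ ⊔ span k (Set.range (bm (k := k) b)) * ⊤ := by
  set W' : Submodule k (Ab k b) := span k (Set.range (bm (k := k) b)) with hW'
  have htop : (⊤ : Submodule k (Ab k b)) * ⊤ = ⊤ := by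
    rw [eq_top_iff]
    calc (⊤ : Submodule k (Ab k b)) = ⊤ * 1 := (mul_one _).symm
      _ ≤ ⊤ * ⊤ := mul_le_mul' le_rfl le_top
  rw [Submodule.bot_mul, sup_bot_eq]
  have hmul : (1 ⊔ W' * ⊤) * (1 ⊔ W' * ⊤) ≤ 1 ⊔ W' * (⊤ : Submodule k (Ab k b)) := by
    rw [Submodule.sup_mul, one_mul, Submodule.mul_sup, mul_one]
    refine sup_le le_rfl (sup_le le_sup_right (le_sup_of_le_right ?_))
    rw [mul_assoc]
    exact mul_le_mul' le_rfl le_top
  have hb1 : ∀ j, (⟨b j, b_mem b j⟩ : Ab k b) ∈ 1 ⊔ W' * (⊤ : Submodule k (Ab k b)) := by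
    intro j
    have h1 : (⟨b j, b_mem b j⟩ : Ab k b) = 1 + bm b j * 1 := by
      apply Subtype.ext
      simp [bm]
    rw [h1]
    refine Submodule.add_mem_sup (one_le.mp le_rfl) ?_
    exact Submodule.mul_mem_mul (subset_span ⟨j, rfl⟩) trivial
  have hb2 : ∀ j, (⟨(b j)⁻¹, binv_mem b j⟩ : Ab k b) ∈ 1 ⊔ W' * (⊤ : Submodule k (Ab k b)) := by
    intro j
    have h1 : (⟨(b j)⁻¹, binv_mem b j⟩ : Ab k b) =
        1 + bm b j * (-⟨(b j)⁻¹, binv_mem b j⟩) := by
      apply Subtype.ext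
      have := hb j
      simp only [bm, Subalgebra.coe_add, Subalgebra.coe_one, Subalgebra.coe_mul,
        Subalgebra.coe_neg]
      field_simp
      ring
    rw [h1]
    refine Submodule.add_mem_sup (one_le.mp le_rfl) ?_
    exact Submodule.mul_mem_mul (subset_span ⟨j, rfl⟩) trivial
  rintro ⟨x, hx⟩ h0
  clear h0
  induction hx using Algebra.adjoin_induction with
  | mem x hx =>
    rcases hx with ⟨j, rfl⟩ | ⟨j, rfl⟩
    · exact hb1 j
    · exact hb2 j
  | algebraMap c =>
    exact Submodule.mem_sup_left (Submodule.algebraMap_mem c)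
  | add x y hx hy h1 h2 => exact Submodule.add_mem _ h1 h2
  | mul x y hx hy h1 h2 => exact hmul (Submodule.mul_mem_mul h1 h2)

omit [Fintype ι] in
theorem nId_eq (b : ι → Ω) (t : ℕ) :
    span k (Set.range (bm (k := k) b)) ^ t * ⊤ ≤ (nId k b ^ t).restrictScalars k := by
  induction t with
  | zero => simp
  | succ t ih =>
    rw [pow_succ', mul_assoc, Submodule.mul_le]
    intro w hw g hg
    have h1 : g ∈ nId k b ^ t := ih hg
    have h2 : w ∈ nId k b := by
      have h3 : span k (Set.range (bm (k := k) b)) ≤ (nId k b).restrictScalars k := by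
        rw [span_le]
        exact fun z hz => Ideal.subset_span hz
      exact h3 hw
    rw [Submodule.restrictScalars_mem, pow_succ']
    exact Ideal.mul_mem_mul h2 h1

theorem finite_quot (b : ι → Ω) (hb : ∀ j, b j ≠ 0) (I : Ideal (Ab k b)) (t : ℕ)
    (hI : nId k b ^ t ≤ I) : Module.Finite k (Ab k b ⧸ I) := by
  set W' : Submodule k (Ab k b) := span k (Set.range (bm (k := k) b)) with hW'
  have hfin : FiniteDimensional k W' := FiniteDimensional.span_of_finite k (Set.finite_range _)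
  have h1 : (⊤ : Submodule k (Ab k b)) ≤ (1 ⊔ W') ^ t ⊔ Jf ⊤ ⊥ W' (t + 1) :=
    le_one_sup_Jf (top_le_one_sup b hb) le_top le_top t
  have h2 : Jf ⊤ ⊥ W' (t + 1) ≤ I.restrictScalars k := by
    rw [Jf, Submodule.bot_mul, bot_sup_eq]
    refine (nId_eq b (t + 1)).trans ?_
    intro z hz
    rw [Submodule.restrictScalars_mem] at hz ⊢
    exact hI (Ideal.pow_le_pow_right (Nat.le_succ t) hz)
  have h3 := finite_one_sup_pow W' t
  let f : ((1 ⊔ W') ^ t : Submodule k (Ab k b)) →ₗ[k] (Ab k b ⧸ I) :=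
    (Ideal.Quotient.mkₐ k I).toLinearMap.comp (Submodule.subtype _)
  refine Module.Finite.of_surjective f ?_
  intro q
  obtain ⟨g, rfl⟩ := Ideal.Quotient.mk_surjective q
  obtain ⟨a, ha, c, hc, hac⟩ := Submodule.mem_sup.1 (h1 (trivial : g ∈ ⊤))
  refine ⟨⟨a, ha⟩, ?_⟩
  change Ideal.Quotient.mk I a = Ideal.Quotient.mk I g
  rw [Ideal.Quotient.eq, ← hac]
  have h4 : c ∈ I := h2 hc
  have h5 : a - (a + c) = -c := by ring
  rw [h5]
  exact I.neg_mem h4

theorem finite_beta (T : TD k v r ι) (s : ℕ) :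
    Module.Finite k (Ab k T.b ⧸ (aId v T.x T.b ⊔ nId k T.b ^ s)) :=
  finite_quot T.b T.b_ne _ s le_sup_right

omit [Fintype ι] in
theorem Ab_le_Ax₅ (x : Fin r → Ω) (b : ι → Ω) : Ab k b ≤ Ax k x b :=
  Algebra.adjoin_mono Set.subset_union_right

omit [Fintype ι] in
theorem x_mem_Ax₅ (x : Fin r → Ω) (b : ι → Ω) (i : Fin r) : x i ∈ Ax k x b :=
  Algebra.subset_adjoin (Or.inl ⟨i, rfl⟩)

omit [Fintype ι] in
theorem Wb_le_Ax₅ (x : Fin r → Ω) (b : ι → Ω) : Wb k b ≤ Subalgebra.toSubmodule (Ax k x b) := by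
  rw [Wb, span_le]
  rintro _ ⟨j, rfl⟩
  exact Ab_le_Ax₅ x b (sub_mem (b_mem b j) (one_mem _))

omit [Fintype ι] in
theorem Ax_mul_self₅ (x : Fin r → Ω) (b : ι → Ω) :
    Subalgebra.toSubmodule (Ax k x b) * Subalgebra.toSubmodule (Ax k x b) ≤
      Subalgebra.toSubmodule (Ax k x b) := by
  rw [Submodule.mul_le]
  exact fun a ha b hb => Subalgebra.mul_mem _ ha hb

omit [Fintype ι] in
/-- `A = k[b, b⁻¹] + (x) A`. -/
theorem Ax_le (x : Fin r → Ω) (b : ι → Ω) : Subalgebra.toSubmodule (Ax k x b) ≤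
    Subalgebra.toSubmodule (Ab k b) ⊔ XA k x b := by
  have hAX : Subalgebra.toSubmodule (Ax k x b) * XA k x b ≤ XA k x b := by
    rw [XA, mul_left_comm]
    exact mul_le_mul' le_rfl (Ax_mul_self₅ x b)
  have hAbX : Subalgebra.toSubmodule (Ab k b) ≤ Subalgebra.toSubmodule (Ax k x b) :=
    Ab_le_Ax₅ x b
  have hXA : XA k x b ≤ Subalgebra.toSubmodule (Ax k x b) := by
    rw [XA, Submodule.mul_le]
    intro a ha c hc
    have h1 : span k (Set.range x) ≤ Subalgebra.toSubmodule (Ax k x b) := by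
      rw [span_le]
      rintro _ ⟨i, rfl⟩
      exact x_mem_Ax₅ x b i
    exact Subalgebra.mul_mem _ (h1 ha) hc
  have hmul : (Subalgebra.toSubmodule (Ab k b) ⊔ XA k x b) *
      (Subalgebra.toSubmodule (Ab k b) ⊔ XA k x b) ≤
      Subalgebra.toSubmodule (Ab k b) ⊔ XA k x b := by
    rw [Submodule.sup_mul, Submodule.mul_sup]
    refine sup_le (sup_le ?_ ?_) ?_
    · refine le_sup_of_le_left ?_
      rw [Submodule.mul_le]
      exact fun a ha c hc => Subalgebra.mul_mem _ ha hc
    · exact le_sup_of_le_right ((mul_le_mul' hAbX le_rfl).trans hAX)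
    · refine le_sup_of_le_right ?_
      rw [mul_comm]
      exact (mul_le_mul' (sup_le hAbX hXA) le_rfl).trans hAX
  intro z hz'
  change z ∈ Algebra.adjoin k _ at hz'
  induction hz' using Algebra.adjoin_induction with
  | mem z hz =>
    rcases hz with ⟨i, rfl⟩ | hz
    · refine Submodule.mem_sup_right ?_
      have h1 : x i = x i * 1 := (mul_one _).symm
      rw [h1]
      exact Submodule.mul_mem_mul (subset_span ⟨i, rfl⟩) (Subalgebra.one_mem _)
    · exact Submodule.mem_sup_left (Algebra.subset_adjoin hz)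
  | algebraMap c => exact Submodule.mem_sup_left (Subalgebra.algebraMap_mem _ c)
  | add x y hx hy h1 h2 => exact Submodule.add_mem _ h1 h2
  | mul x y hx hy h1 h2 => exact hmul (Submodule.mul_mem_mul h1 h2)

omit [Fintype ι] in
theorem Ab_le (b : ι → Ω) (hb : ∀ j, b j ≠ 0) :
    Subalgebra.toSubmodule (Ab k b) ≤ 1 ⊔ Wb k b * Subalgebra.toSubmodule (Ab k b) := by
  intro z hz
  have h1 := top_le_one_sup (k := k) b hb (trivial : (⟨z, hz⟩ : Ab k b) ∈ ⊤)
  rw [Submodule.bot_mul, sup_bot_eq] at h1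
  have h2 := Submodule.mem_map_of_mem (f := (Ab k b).val.toLinearMap) h1
  have h3 : (1 ⊔ span k (Set.range (bm (k := k) b)) * ⊤).map (Ab k b).val.toLinearMap ≤
      1 ⊔ Wb k b * Subalgebra.toSubmodule (Ab k b) := by
    rw [Submodule.map_sup]
    refine sup_le_sup ?_ ?_
    · rw [Submodule.map_one]
    · rw [Submodule.map_mul]
      refine mul_le_mul' ?_ ?_
      · rw [Submodule.map_span, span_le]
        rintro _ ⟨_, ⟨j, rfl⟩, rfl⟩
        exact subset_span ⟨j, rfl⟩
      · rintro _ ⟨a, -, rfl⟩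
        exact a.2
  exact h3 h2

omit [Fintype ι] in
theorem Ax_le' (x : Fin r → Ω) (b : ι → Ω) (hb : ∀ j, b j ≠ 0) :
    Subalgebra.toSubmodule (Ax k x b) ≤
      1 ⊔ span k (Set.range x) * Subalgebra.toSubmodule (Ax k x b) ⊔
        Wb k b * Subalgebra.toSubmodule (Ax k x b) := by
  refine (Ax_le x b).trans (sup_le ((Ab_le b hb).trans ?_) ?_)
  · refine sup_le (le_sup_of_le_left le_sup_left) (le_sup_of_le_right ?_)
    exact mul_le_mul' le_rfl (Ab_le_Ax₅ x b)
  · exact le_sup_of_le_left le_sup_right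

/-- `dim A/((x) A + W^T A) ≤ β(T)`. -/
theorem qd_le_beta (T : TD k v r ι)
    (hX : ∀ g ∈ Ab k T.b, g ∈ Is (k := k) v T.x T.b → g ∈ XA k T.x T.b) (s : ℕ) :
    qd (Subalgebra.toSubmodule (Ax k T.x T.b))
      (span k (Set.range T.x) * Subalgebra.toSubmodule (Ax k T.x T.b) ⊔
        Wb k T.b ^ s * Subalgebra.toSubmodule (Ax k T.x T.b)) ≤ beta k v T.x T.b s := by
  set J : Submodule k Ω := span k (Set.range T.x) * Subalgebra.toSubmodule (Ax k T.x T.b) ⊔
        Wb k T.b ^ s * Subalgebra.toSubmodule (Ax k T.x T.b) with hJ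
  set I : Ideal (Ab k T.b) := aId v T.x T.b ⊔ nId k T.b ^ s with hI
  have hfin : Module.Finite k (Ab k T.b ⧸ I) := finite_beta T s
  -- the ideal `I` goes to `J`
  have hIJ : ∀ g ∈ I, (g : Ω) ∈ J := by
    intro g hg
    obtain ⟨a, ha, c, hc, rfl⟩ := Submodule.mem_sup.1 hg
    rw [Subalgebra.coe_add]
    refine Submodule.add_mem _ (Submodule.mem_sup_left (hX a a.2 ha)) ?_
    refine Submodule.mem_sup_right ?_
    clear hg
    -- powers of `nId`
    have h1 : ∀ t, ∀ c ∈ nId k T.b ^ t, (c : Ω) ∈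
        Wb k T.b ^ t * Subalgebra.toSubmodule (Ax k T.x T.b) := by
      intro t
      induction t with
      | zero =>
        intro c _
        rw [pow_zero, one_mul]
        exact Ab_le_Ax₅ _ _ c.2
      | succ t ih =>
        intro c hc
        rw [pow_succ'] at hc
        induction hc using Submodule.mul_induction_on' with
        | mem_mul_mem a ha c hc =>
          rw [pow_succ', mul_assoc, Subalgebra.coe_mul]
          have h2 : (a : Ω) ∈ Wb k T.b * Subalgebra.toSubmodule (Ax k T.x T.b) := by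
            have h3 : a ∈ Ideal.span (Set.range (bm (k := k) T.b)) := ha
            clear ha
            induction h3 using Submodule.span_induction with
            | mem z hz =>
              obtain ⟨j, rfl⟩ := hz
              have h4 : ((bm (k := k) T.b j : Ab k T.b) : Ω) = (T.b j - 1) * 1 := by
                rw [mul_one]; rfl
              rw [h4]
              exact Submodule.mul_mem_mul (subset_span ⟨j, rfl⟩) (Subalgebra.one_mem _)
            | zero => exact Submodule.zero_mem _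
            | add z w _ _ hz hw => exact Submodule.add_mem _ hz hw
            | smul e z _ hz =>
              rw [smul_eq_mul, Subalgebra.coe_mul]
              have h5a : (e : Ω) ∈ Subalgebra.toSubmodule (Ax k T.x T.b) :=
                Ab_le_Ax₅ T.x T.b e.2
              have h5 := Submodule.mul_mem_mul h5a hz
              rw [mul_left_comm] at h5
              exact (mul_le_mul' le_rfl (Ax_mul_self₅ T.x T.b)) h5
          have h3 := Submodule.mul_mem_mul h2 (ih c hc)
          have h6 : (Wb k T.b * Subalgebra.toSubmodule (Ax k T.x T.b)) *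
              (Wb k T.b ^ t * Subalgebra.toSubmodule (Ax k T.x T.b)) ≤
              Wb k T.b * (Wb k T.b ^ t * Subalgebra.toSubmodule (Ax k T.x T.b)) := by
            rw [mul_assoc, mul_left_comm (Subalgebra.toSubmodule (Ax k T.x T.b))]
            exact mul_le_mul' le_rfl (mul_le_mul' le_rfl (Ax_mul_self₅ T.x T.b))
          exact h6 h3
        | add a _ c _ ha hc =>
          rw [Subalgebra.coe_add]
          exact Submodule.add_mem _ ha hc
    exact h1 s c hc
  let f : Ab k T.b →ₗ[k] (Ω ⧸ J) := J.mkQ.comp (Ab k T.b).val.toLinearMap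
  let f' : (Ab k T.b ⧸ I.restrictScalars k) →ₗ[k] (Ω ⧸ J) :=
    (I.restrictScalars k).liftQ f (by
      intro g hg
      rw [LinearMap.mem_ker]
      change J.mkQ (g : Ω) = 0
      rw [Submodule.mkQ_apply, Submodule.Quotient.mk_eq_zero]
      exact hIJ g hg)
  have hfin' : Module.Finite k (Ab k T.b ⧸ I.restrictScalars k) :=
    Module.Finite.equiv (Submodule.Quotient.restrictScalarsEquiv k I).symm
  have h1 : (Subalgebra.toSubmodule (Ax k T.x T.b)).map J.mkQ ≤ LinearMap.range f' := by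
    rintro _ ⟨z, hz, rfl⟩
    obtain ⟨a, ha, c, hc, rfl⟩ := Submodule.mem_sup.1 (Ax_le T.x T.b hz)
    refine ⟨(I.restrictScalars k).mkQ ⟨a, ha⟩, ?_⟩
    change J.mkQ a = J.mkQ (a + c)
    rw [map_add]
    have h2 : J.mkQ c = 0 := by
      rw [Submodule.mkQ_apply, Submodule.Quotient.mk_eq_zero]
      exact Submodule.mem_sup_left hc
    rw [h2, add_zero]
  have h2 : finrank k (Ab k T.b ⧸ I.restrictScalars k) = finrank k (Ab k T.b ⧸ I) :=
    LinearEquiv.finrank_eq (Submodule.Quotient.restrictScalarsEquiv k I)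
  calc qd (Subalgebra.toSubmodule (Ax k T.x T.b)) J ≤ finrank k (LinearMap.range f') :=
        Submodule.finrank_mono h1
    _ ≤ finrank k (Ab k T.b ⧸ I.restrictScalars k) := LinearMap.finrank_range_le f'
    _ = beta k v T.x T.b s := h2

/-- TA5: the choice of `y`. -/
theorem exists_y (h : Ctx0 k v n) [IsAlgClosed k] (hn : n = r + D) (E : IntermediateField k Ω)
    (_halg : ∀ g : Ω, IsAlgebraic E g) (T : TD k v r ι) (_hpos : ∀ i, 0 < v (T.x i))
    (hE : IntermediateField.adjoin k (Set.range T.x ∪ Set.range T.b) = E)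
    (hx : ∀ i, T.x i ∈ E)
    (hli : LinearIndependent E fun i => KaehlerDifferential.D k E ⟨T.x i, hx i⟩)
    (hX : ∀ g ∈ Ab k T.b, g ∈ Is (k := k) v T.x T.b → g ∈ XA k T.x T.b)
    (C : ℕ) (hβ : ∀ s, beta k v T.x T.b s ≤ C * (s + 1) ^ D) :
    ∃ (y : Fin D → Ω) (s₀ : ℕ), (∀ j, y j ∈ Wb k T.b) ∧
      Wb k T.b ^ (s₀ + 1) ≤ span k (Set.range y) * Wb k T.b ^ s₀ ⊔ XA k T.x T.b ⊔
        Wb k T.b ^ (s₀ + 2) * (Ax k T.x T.b).toSubmodule ∧
      ∀ g ∈ E, IsSeparable (IntermediateField.adjoin k (Set.range T.x ∪ Set.range y)) g := by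
  have hfgE : Algebra.EssFiniteType k E := by
    rw [IntermediateField.essFiniteType_iff, ← hE]
    exact IntermediateField.fg_adjoin_of_finite
      ((Set.finite_range T.x).union (Set.finite_range T.b))
  have htr : Algebra.trdeg k E ≤ ((r + D : ℕ) : Cardinal) := by
    have h1 : Algebra.trdeg k E ≤ Algebra.trdeg k Ω :=
      _root_.trdeg_le_of_injective E.val E.val.injective
    rw [h.trdeg, hn] at h1
    exact h1
  have hfW : FiniteDimensional k (Wb k T.b) :=
    FiniteDimensional.span_of_finite k (Set.finite_range _)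
  have hgen : IntermediateField.adjoin k (Set.range T.x ∪ (Wb k T.b : Set Ω)) = E := by
    rw [← hE]
    refine le_antisymm ?_ ?_
    · rw [IntermediateField.adjoin_le_iff]
      rintro z (hz | hz)
      · exact IntermediateField.subset_adjoin _ _ (Or.inl hz)
      · have h1 : Wb k T.b ≤ Subalgebra.toSubmodule (IntermediateField.adjoin k
            (Set.range T.x ∪ Set.range T.b)).toSubalgebra := by
          rw [Wb, span_le]
          rintro _ ⟨j, rfl⟩
          change T.b j - 1 ∈ IntermediateField.adjoin k (Set.range T.x ∪ Set.range T.b)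
          exact sub_mem (IntermediateField.subset_adjoin _ _ (Or.inr ⟨j, rfl⟩)) (one_mem _)
        exact h1 hz
    · rw [IntermediateField.adjoin_le_iff]
      rintro z (hz | ⟨j, rfl⟩)
      · exact IntermediateField.subset_adjoin _ _ (Or.inl hz)
      · have h1 : T.b j - 1 ∈ IntermediateField.adjoin k
            (Set.range T.x ∪ (Wb k T.b : Set Ω)) :=
          IntermediateField.subset_adjoin _ _ (Or.inr (subset_span ⟨j, rfl⟩))
        have h2 := add_mem h1 (one_mem (IntermediateField.adjoin k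
            (Set.range T.x ∪ (Wb k T.b : Set Ω))))
        rwa [sub_add_cancel] at h2
  obtain ⟨y, s, h1, h2, h3⟩ := choice_y E r D C hfgE htr (Ax k T.x T.b) T.x hx
    (fun i => x_mem_Ax₅ _ _ i) hli (Wb k T.b) (fun w hw => Wb_le_Ax₅ _ _ hw) hgen
    (Ax_le' T.x T.b T.b_ne) (fun t => (qd_le_beta T hX t).trans (hβ t))
  refine ⟨y, s, h1, ?_, h3⟩
  rw [← sup_assoc] at h2
  exact h2

end Glue

end Pool.Agent.TA
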