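import Pool.Agent.Lib.LU1_h15.ExtVal_H1
import Pool.Agent.Lib.TA.Ord

/-!
# A valuation of `Ω` with prescribed restriction to `F` and prescribed centre on the integral
closure
-/

set_option autoImplicit false

namespace Pool.Agent.TA

open Pool.Agent.H15JM (RVal)
open Pool.Agent.LU1 (VPos exists_extVal)

universe u

/-- The pull-back of a valuation. -/
def rcomap {K L : Type*} [Field K] [Field L] (φ : K →+* L) (w : RVal L) : RVal K where
  toFun x := w (φ x)
  map_mul' x y hx hy := by
    rw [map_mul]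
    exact w.map_mul (by simpa using hx) (by simpa using hy)
  map_add' x y hx hy hxy := by
    rw [map_add]
    refine w.map_add (by simpa using hx) (by simpa using hy) ?_
    intro h
    apply hxy
    rw [← map_add] at h
    exact (map_eq_zero φ).1 h

theorem rcomap_apply {K L : Type*} [Field K] [Field L] (φ : K →+* L) (w : RVal L) (x : K) :
    rcomap φ w x = w (φ x) := rfl

/-- Integral elements have nonnegative value. -/
theorem ge_of_isIntegral {O L : Type*} [CommRing O] [Field L] [Algebra O L] {w : RVal L}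
    (hO : ∀ a : O, w.Ge 0 (algebraMap O L a)) {c : L} (hc : IsIntegral O c) : w.Ge 0 c := by
  intro hc0
  by_contra hneg
  push Not at hneg
  obtain ⟨p, hp, hpc⟩ := hc
  rw [Polynomial.eval₂_eq_sum_range, Finset.sum_range_succ, hp.coeff_natDegree, map_one,
    one_mul] at hpc
  set d := p.natDegree with hd
  have h1 : c ^ d = -∑ i ∈ Finset.range d, algebraMap O L (p.coeff i) * c ^ i := by
    rw [eq_neg_iff_add_eq_zero, add_comm]
    exact hpc
  have hd0 : d ≠ 0 := by
    intro h0
    rw [h0] at h1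
    simp at h1
  have h2 : w.Ge (((d : ℝ) - 1) * w c) (∑ i ∈ Finset.range d,
      algebraMap O L (p.coeff i) * c ^ i) := by
    refine RVal.Ge.sum _ _ fun i hi => ?_
    rw [Finset.mem_range] at hi
    have h3 : w.Ge ((i : ℝ) * w c) (c ^ i) := fun _ => by rw [w.map_pow hc0]
    have h4 := (hO (p.coeff i)).mul h3
    refine h4.mono ?_
    rw [zero_add]
    have h5 : (i : ℝ) ≤ (d : ℝ) - 1 := by
      have : (i : ℝ) + 1 ≤ d := by exact_mod_cast hi
      linarith
    nlinarith
  have h3 := h2.neg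
  rw [← h1] at h3
  have h4 := h3 (pow_ne_zero _ hc0)
  rw [w.map_pow hc0] at h4
  linarith

section

variable {k Ω : Type u} [Field k] [Field Ω] [Algebra k Ω]

open scoped Pointwise in
theorem exists_centre (F : IntermediateField k Ω) (N : IntermediateField F Ω)
    [FiniteDimensional F N] [IsGalois F N] (halg : ∀ g : Ω, IsAlgebraic N g)
    (O : Type*) [CommRing O] [IsDomain O] [IsIntegrallyClosed O] [Algebra O F] [IsFractionRing O F]
    [Algebra O N] [IsScalarTower O F N] (v : RVal Ω) (ω₀ : RVal F)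
    (hv : ∀ a : O, a ≠ 0 → 0 ≤ v ((algebraMap O F a : F) : Ω))
    (h0 : ∀ a : O, a ≠ 0 → 0 ≤ ω₀ (algebraMap O F a))
    (hvω : ∀ a : O, a ≠ 0 → (0 < v ((algebraMap O F a : F) : Ω) ↔ 0 < ω₀ (algebraMap O F a))) :
    ∃ ω : RVal Ω, (∀ g : F, g ≠ 0 → ω (g : Ω) = ω₀ g) ∧
      ∀ c : N, IsIntegral O c → c ≠ 0 → 0 ≤ ω (c : Ω) ∧ (0 < v (c : Ω) ↔ 0 < ω (c : Ω)) := by
  classical
  obtain ⟨w1, hw1⟩ := exists_extVal F N ω₀
  let vN : RVal N := rcomap (algebraMap N Ω) v
  have hinj : ∀ a : O, a ≠ 0 → algebraMap O F a ≠ 0 := fun a ha h =>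
    ha ((IsFractionRing.injective O F) (by rw [h, map_zero]))
  have hON : ∀ a : O, algebraMap O N a = algebraMap F N (algebraMap O F a) := fun a =>
    IsScalarTower.algebraMap_apply O F N a
  have hvN : ∀ a : O, vN.Ge 0 (algebraMap O N a) := by
    intro a ha
    have h1 : a ≠ 0 := by rintro rfl; simp at ha
    have := hv a h1
    rw [hON]
    exact this
  have hwN : ∀ a : O, w1.Ge 0 (algebraMap O N a) := by
    intro a ha
    have h1 : a ≠ 0 := by rintro rfl; simp at ha
    rw [hON, hw1 _ (hinj a h1)]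
    exact h0 a h1
  let C := integralClosure O N
  -- the centre of a valuation on `C`
  let cen : ∀ w : RVal N, (∀ a : O, w.Ge 0 (algebraMap O N a)) → Ideal C := fun w hw =>
    { carrier := {c | VPos w (c : N)}
      zero_mem' := Pool.Agent.LU1.VPos.zero
      add_mem' := fun ha hb => Pool.Agent.LU1.VPos.add ha hb
      smul_mem' := by
        intro a b hb
        have h1 : w.Ge 0 (a : N) := ge_of_isIntegral hw a.2
        exact Pool.Agent.LU1.VPos.mul' h1 hb }
  have hprime : ∀ (w : RVal N) (hw : ∀ a : O, w.Ge 0 (algebraMap O N a)),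
      (cen w hw).IsPrime := by
    intro w hw
    refine ⟨?_, ?_⟩
    · intro h
      have h1 : (1 : C) ∈ cen w hw := by rw [h]; trivial
      have h2 : VPos w (1 : N) := h1
      have h3 := h2 one_ne_zero
      rw [w.map_one] at h3
      exact lt_irrefl _ h3
    · intro a b hab
      by_contra hcon
      push Not at hcon
      obtain ⟨ha, hb⟩ := hcon
      have ha' : ¬ VPos w (a : N) := ha
      have hb' : ¬ VPos w (b : N) := hb
      unfold VPos at ha' hb'
      push Not at ha' hb'
      have h1 : VPos w ((a : N) * (b : N)) := hab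
      have h2 := h1 (mul_ne_zero ha'.1 hb'.1)
      rw [w.map_mul ha'.1 hb'.1] at h2
      linarith [ha'.2, hb'.2]
  have hP1 := hprime vN hvN
  have hP2 := hprime w1 hwN
  have hfr : IsFractionRing C N := integralClosure.isFractionRing_of_finite_extension F N
  let _ : MulSemiringAction (N ≃ₐ[F] N) C := IsIntegralClosure.MulSemiringAction O F N C
  have hinv : Algebra.IsInvariant O C (N ≃ₐ[F] N) := Algebra.isInvariant_of_isGalois O F N C
  have hsmul : ∀ (σ : N ≃ₐ[F] N) (c : C), ((σ • c : C) : N) = σ (c : N) := by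
    intro σ c
    exact algebraMap_galRestrict_apply O σ c
  have hcomm : SMulCommClass (N ≃ₐ[F] N) O C := by
    refine ⟨fun σ a c => ?_⟩
    apply Subtype.ext
    rw [hsmul]
    change σ (a • (c : N)) = a • ((σ • c : C) : N)
    rw [hsmul, Algebra.smul_def, map_mul, Algebra.smul_def, hON, AlgEquiv.commutes]
  have hunder : (cen w1 hwN).under O = (cen vN hvN).under O := by
    ext a
    rw [Ideal.under_def, Ideal.under_def, Ideal.mem_comap, Ideal.mem_comap]
    change VPos w1 (algebraMap O N a) ↔ VPos vN (algebraMap O N a)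
    by_cases ha : a = 0
    · subst ha
      rw [map_zero]
      exact ⟨fun _ => Pool.Agent.LU1.VPos.zero, fun _ => Pool.Agent.LU1.VPos.zero⟩
    · have h1 : algebraMap O N a ≠ 0 := by
        rw [hON]
        simpa using hinj a ha
      have h2 := hvω a ha
      unfold VPos
      rw [hON, hw1 _ (hinj a ha)]
      constructor
      · intro h3 _
        exact h2.2 (h3 (by rw [← hON]; exact h1))
      · intro h3 _
        exact h2.1 (h3 (by rw [← hON]; exact h1))
  obtain ⟨τ, hτ⟩ := Algebra.IsInvariant.exists_smul_of_under_eq O C (N ≃ₐ[F] N)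
    (cen w1 hwN) (cen vN hvN) hunder
  -- `ω` on `N`
  let w2 : RVal N := rcomap (τ⁻¹ : N ≃ₐ[F] N).toAlgHom.toRingHom w1
  have hw2 : ∀ c : N, w2 c = w1 ((τ⁻¹ : N ≃ₐ[F] N) c) := fun c => rfl
  have : Algebra.IsAlgebraic N Ω := ⟨halg⟩
  obtain ⟨ω, hω⟩ := exists_extVal N Ω w2
  refine ⟨ω, ?_, ?_⟩
  · intro g hg
    have h1 : (algebraMap F N g) ≠ 0 := by simpa using hg
    have h2 := hω (algebraMap F N g) h1
    rw [hw2, AlgEquiv.commutes, hw1 g hg] at h2
    exact h2
  · intro c hc hc0
    have h1 := hω c hc0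
    have h2 : ω (c : Ω) = w1 ((τ⁻¹ : N ≃ₐ[F] N) c) := by rw [← hw2]; exact h1
    have h3 : IsIntegral O ((τ⁻¹ : N ≃ₐ[F] N) c) :=
      hc.map ((τ⁻¹ : N ≃ₐ[F] N).toAlgHom.restrictScalars O)
    have h4 : (τ⁻¹ : N ≃ₐ[F] N) c ≠ 0 := by simpa using hc0
    refine ⟨?_, ?_⟩
    · rw [h2]
      exact ge_of_isIntegral hwN h3 h4
    · rw [h2]
      let c' : C := ⟨c, hc⟩
      have h5 : c' ∈ cen vN hvN ↔ τ⁻¹ • c' ∈ cen w1 hwN := by
        rw [hτ, Ideal.mem_pointwise_smul_iff_inv_smul_mem]
      have h6 : c' ∈ cen vN hvN ↔ VPos vN c := Iff.rfl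
      have h7 : τ⁻¹ • c' ∈ cen w1 hwN ↔ VPos w1 ((τ⁻¹ : N ≃ₐ[F] N) c) := by
        change VPos w1 ((τ⁻¹ • c' : C) : N) ↔ _
        rw [hsmul]
      rw [h6, h7] at h5
      constructor
      · intro h8
        exact h5.1 (fun _ => h8) h4
      · intro h8
        exact h5.2 (fun _ => h8) hc0

end

end Pool.Agent.TA
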