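import Pool.Agent.Lib.TA.Defs
import Pool.Agent.Lib.LU1_h15.Perron
import Pool.Agent.Lib.ALB.Kaehler

/-!
# TA4: the regular cone
-/

set_option autoImplicit false

open Polynomial
open scoped Matrix

namespace Pool.Agent.TA

open Pool.Agent.H15JM (RVal)
open Pool.Agent.LU1 (VPos)
open Pool.Agent.LU3 (Ctx0)

universe u

variable {k Ω : Type u} [Field k] [Field Ω] [Algebra k Ω] {v : RVal Ω} {n r : ℕ}
  {ι : Type} [Fintype ι]

/-! ### monomials -/

section mx

omit [Algebra k Ω] in
theorem mx_zero (x : Fin r → Ω) : mx x 0 = 1 := by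
  simp [mx]

omit [Algebra k Ω] in
theorem mx_ne {x : Fin r → Ω} (hx : ∀ i, x i ≠ 0) (l : Fin r → ℤ) : mx x l ≠ 0 :=
  Finset.prod_ne_zero_iff.2 fun i _ => zpow_ne_zero _ (hx i)

omit [Algebra k Ω] in
theorem mx_add {x : Fin r → Ω} (hx : ∀ i, x i ≠ 0) (l m : Fin r → ℤ) :
    mx x (l + m) = mx x l * mx x m := by
  unfold mx
  rw [← Finset.prod_mul_distrib]
  exact Finset.prod_congr rfl fun i _ => zpow_add₀ (hx i) _ _

omit [Algebra k Ω] in
theorem mx_single (x : Fin r → Ω) (i : Fin r) (c : ℤ) : mx x (Pi.single i c) = x i ^ c := by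
  unfold mx
  rw [Finset.prod_eq_single i]
  · rw [Pi.single_eq_same]
  · intro j _ hj
    rw [Pi.single_eq_of_ne hj, zpow_zero]
  · intro h
    exact absurd (Finset.mem_univ i) h

omit [Algebra k Ω] in
theorem v_mx {x : Fin r → Ω} (hx : ∀ i, x i ≠ 0) (l : Fin r → ℤ) :
    v (mx x l) = ∑ i, (l i : ℝ) * v (x i) := by
  unfold mx
  rw [v.map_prod _ _ fun i _ => zpow_ne_zero _ (hx i)]
  exact Finset.sum_congr rfl fun i _ => v.map_zpow (hx i) _

omit [Algebra k Ω] in
/-- Monomials in monomials. -/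
theorem mx_mx {s : ℕ} (x : Fin r → Ω) (V : Matrix (Fin s) (Fin r) ℤ) (l : Fin s → ℤ)
    (hx : ∀ i, x i ≠ 0) : mx (fun j => mx x (V j)) l = mx x (l ᵥ* V) := by
  unfold mx
  have h1 : ∀ j, (∏ i, x i ^ V j i) ^ l j = ∏ i, x i ^ (l j * V j i) := by
    intro j
    rw [← Finset.prod_zpow]
    refine Finset.prod_congr rfl fun i _ => ?_
    rw [← zpow_mul, mul_comm]
  rw [Finset.prod_congr rfl fun j _ => h1 j, Finset.prod_comm]
  refine Finset.prod_congr rfl fun i _ => ?_
  rw [Matrix.vecMul, dotProduct]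
  have h2 : ∀ s : Finset (Fin s), ∏ j ∈ s, x i ^ (l j * V j i) = x i ^ ∑ j ∈ s, l j * V j i := by
    classical
    intro s
    induction s using Finset.induction_on with
    | empty => simp
    | insert a s ha ih => rw [Finset.prod_insert ha, Finset.sum_insert ha, ih, zpow_add₀ (hx i)]
  exact h2 _

end mx

/-! ### unimodular change of the monomials -/

section Change

/-- `V` and `U` are inverse to each other. -/
structure Inv2 (U V : Matrix (Fin r) (Fin r) ℤ) : Prop where
  vu : V * U = 1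
  uv : U * V = 1

/-- Perron's lemma, multiplicatively. -/
theorem perron_mx {x : Fin r → Ω} (hx : ∀ i, x i ≠ 0)
    (hind : LinearIndependent ℚ fun i => v (x i)) (N : Finset (Fin r → ℤ))
    (hN : ∀ l ∈ N, 0 < v (mx x l)) :
    ∃ U V : Matrix (Fin r) (Fin r) ℤ, Inv2 U V ∧ (∀ j, 0 < v (mx x (V j))) ∧
      ∀ l ∈ N, ∀ j, 0 < (l ᵥ* U) j := by
  classical
  rcases Nat.eq_zero_or_pos r with hr | hr
  · subst hr
    exact ⟨1, 1, ⟨by simp, by simp⟩, fun j => j.elim0, fun _ _ j => j.elim0⟩
  have hne : ∀ i, v (x i) ≠ 0 := fun i => hind.ne_zero i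
  obtain ⟨s, hs1, hspos⟩ : ∃ s : Fin r → ℤ, (∀ i, s i = 1 ∨ s i = -1) ∧
      ∀ i, 0 < (s i : ℝ) * v (x i) := by
    refine ⟨fun i => if 0 < v (x i) then 1 else -1, fun i => ?_, fun i => ?_⟩
    · dsimp only
      split_ifs
      · exact Or.inl rfl
      · exact Or.inr rfl
    · dsimp only
      split_ifs with h
      · simpa using h
      · have h1 : v (x i) < 0 := lt_of_le_of_ne (not_lt.1 h) (hne i)
        push_cast
        linarith
  have hss : ∀ i, s i * s i = 1 := fun i => by
    rcases hs1 i with h | h <;> rw [h] <;> norm_num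
  set e : Fin r → ℝ := fun i => s i * v (x i) with he
  have hpos : ∀ i, 0 < e i := hspos
  have hv : ∀ i, v (x i) = s i * e i := by
    intro i
    have h1 : ((s i : ℝ)) * s i = 1 := by exact_mod_cast hss i
    change v (x i) = s i * (s i * v (x i))
    rw [← mul_assoc, h1, one_mul]
  have hinde : LinearIndependent ℚ e := by
    rw [Fintype.linearIndependent_iff] at hind ⊢
    intro a ha i
    have h2 := hind (fun i => a i * s i) (by
      rw [← ha]
      refine Finset.sum_congr rfl fun i _ => ?_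
      rw [Rat.smul_def, Rat.smul_def, he]
      push_cast
      ring) i
    rcases hs1 i with h | h <;> rw [h] at h2 <;> simpa using h2
  set N' : Finset (Fin r → ℤ) := N.image (fun l i => l i * s i) with hN'
  have hN'pos : ∀ n ∈ N', 0 < ∑ i, (n i : ℝ) * e i := by
    intro n hn
    obtain ⟨l, hl, rfl⟩ := Finset.mem_image.1 hn
    have h1 := hN l hl
    rw [v_mx hx] at h1
    refine h1.trans_eq (Finset.sum_congr rfl fun i _ => ?_)
    rw [hv i]
    push_cast
    ring
  obtain ⟨T, T', u, hst, hTT⟩ := Pool.Agent.LU1.Perron.core hr hpos hinde hN'pos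
  have hTT' : T * T' = 1 := mul_eq_one_comm.1 hTT
  set U : Matrix (Fin r) (Fin r) ℤ := Matrix.of fun i j => s i * T i j with hU
  set V : Matrix (Fin r) (Fin r) ℤ := Matrix.of fun j i => T' j i * s i with hV
  have hVU : V * U = 1 := by
    ext j j'
    rw [Matrix.mul_apply, ← hTT, Matrix.mul_apply]
    refine Finset.sum_congr rfl fun i _ => ?_
    rw [hU, hV, Matrix.of_apply, Matrix.of_apply]
    linear_combination (T' j i * T i j') * hss i
  have hUV : U * V = 1 := mul_eq_one_comm.1 hVU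
  refine ⟨U, V, ⟨hVU, hUV⟩, ?_, ?_⟩
  · intro j
    have h1 : v (mx x (V j)) = u j := by
      rw [v_mx hx]
      have h2 : ∀ j', (((T' * T) j j' : ℤ) : ℝ) = if j = j' then 1 else 0 := by
        intro j'
        rw [hTT, Matrix.one_apply]
        split_ifs <;> simp
      calc ∑ i, (V j i : ℝ) * v (x i) = ∑ i, (T' j i : ℝ) * e i := by
            refine Finset.sum_congr rfl fun i _ => ?_
            rw [hV, Matrix.of_apply, he]
            push_cast
            ring
        _ = ∑ i, ∑ j', (T' j i : ℝ) * (T i j') * u j' := by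
            refine Finset.sum_congr rfl fun i _ => ?_
            rw [hst.eq i, Finset.mul_sum]
            exact Finset.sum_congr rfl fun j' _ => by ring
        _ = ∑ j', ∑ i, (T' j i : ℝ) * (T i j') * u j' := Finset.sum_comm
        _ = ∑ j', (((T' * T) j j' : ℤ) : ℝ) * u j' := by
            refine Finset.sum_congr rfl fun j' _ => ?_
            rw [Matrix.mul_apply]
            push_cast
            rw [Finset.sum_mul]
        _ = u j := by
            simp only [h2, ite_mul, one_mul, zero_mul, Finset.sum_ite_eq, Finset.mem_univ, if_true]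
    rw [h1]
    exact hst.pos j
  · intro l hl j
    have h1 := hst.cone _ (Finset.mem_image_of_mem _ hl) j
    refine h1.trans_eq ?_
    rw [Matrix.vecMul, dotProduct]
    refine Finset.sum_congr rfl fun i _ => ?_
    rw [hU, Matrix.of_apply]
    ring

omit [Algebra k Ω] in
theorem mx_back {x : Fin r → Ω} (hx : ∀ i, x i ≠ 0) {U V : Matrix (Fin r) (Fin r) ℤ}
    (h : Inv2 U V) (l : Fin r → ℤ) : mx (fun j => mx x (V j)) (l ᵥ* U) = mx x l := by
  rw [mx_mx x V _ hx, Matrix.vecMul_vecMul, h.uv, Matrix.vecMul_one]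

/-- The toric data after a unimodular change. -/
noncomputable def TD.change (T : TD k v r ι) {U V : Matrix (Fin r) (Fin r) ℤ}
    (h : Inv2 U V) : TD k v r ι where
  x := fun j => mx T.x (V j)
  x_ne := fun j => mx_ne T.x_ne _
  x_ind := by
    rw [Fintype.linearIndependent_iff]
    intro a ha
    have hT := T.x_ind
    rw [Fintype.linearIndependent_iff] at hT
    have h1 := hT (fun i => ∑ j, a j * (V j i : ℚ)) (by
      rw [← ha]
      calc ∑ i, (∑ j, a j * (V j i : ℚ)) • v (T.x i)
          = ∑ i, ∑ j, (a j : ℝ) * (V j i : ℝ) * v (T.x i) := by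
            refine Finset.sum_congr rfl fun i _ => ?_
            rw [Rat.smul_def]
            push_cast
            rw [Finset.sum_mul]
        _ = ∑ j, ∑ i, (a j : ℝ) * (V j i : ℝ) * v (T.x i) := Finset.sum_comm
        _ = ∑ j, a j • v (mx T.x (V j)) := by
            refine Finset.sum_congr rfl fun j _ => ?_
            rw [Rat.smul_def, v_mx T.x_ne, Finset.mul_sum]
            exact Finset.sum_congr rfl fun i _ => by ring)
    intro j
    have h3 : ∀ j', (((V * U) j' j : ℤ) : ℚ) = if j' = j then 1 else 0 := by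
      intro j'
      rw [h.vu, Matrix.one_apply]
      split_ifs <;> simp
    calc a j = ∑ j', a j' * (((V * U) j' j : ℤ) : ℚ) := by
          simp only [h3, mul_ite, mul_one, mul_zero, Finset.sum_ite_eq', Finset.mem_univ, if_true]
      _ = ∑ j', ∑ i, a j' * (V j' i) * (U i j) := by
          refine Finset.sum_congr rfl fun j' _ => ?_
          rw [Matrix.mul_apply]
          push_cast
          rw [Finset.mul_sum]
          refine Finset.sum_congr rfl fun i _ => ?_
          ring
      _ = ∑ i, ∑ j', a j' * (V j' i) * (U i j) := Finset.sum_comm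
      _ = ∑ i, (∑ j', a j' * (V j' i)) * (U i j) := by
          refine Finset.sum_congr rfl fun i _ => ?_
          rw [Finset.sum_mul]
      _ = 0 := by
          refine Finset.sum_eq_zero fun i _ => ?_
          rw [h1 i, zero_mul]
  a := fun j => T.a j ᵥ* U
  a_inj := by
    intro i j hij
    apply T.a_inj
    have h1 : (T.a i ᵥ* U) ᵥ* V = (T.a j ᵥ* U) ᵥ* V := by
      change (fun j => T.a j ᵥ* U) i ᵥ* V = (fun j => T.a j ᵥ* U) j ᵥ* V
      rw [hij]
    rwa [Matrix.vecMul_vecMul, Matrix.vecMul_vecMul, h.uv, Matrix.vecMul_one,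
      Matrix.vecMul_one] at h1
  b := T.b
  b_ne := T.b_ne
  b_res := T.b_res
  o := T.o
  a_o := by rw [T.a_o, Matrix.zero_vecMul]
  b_o := T.b_o
  lat := by
    intro i
    choose α hα hβ using T.lat
    refine ⟨fun j => ∑ l, V i l * α l j, ?_, ?_⟩
    · have h1 : ∑ j, (∑ l, V i l * α l j) • (T.a j ᵥ* U) =
          (∑ j, (∑ l, V i l * α l j) • T.a j) ᵥ* U := by
        rw [Matrix.sum_vecMul]
        exact Finset.sum_congr rfl fun j _ => (Matrix.smul_vecMul _ _ _).symm
      have h2 : ∑ j, (∑ l, V i l * α l j) • T.a j = V i := by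
        have h3 : ∀ j, (∑ l, V i l * α l j) • T.a j = ∑ l, V i l • (α l j • T.a j) := by
          intro j
          rw [Finset.sum_smul]
          exact Finset.sum_congr rfl fun l _ => mul_smul _ _ _
        rw [Finset.sum_congr rfl fun j _ => h3 j, Finset.sum_comm]
        have h4 : ∀ l, ∑ j, V i l • (α l j • T.a j) = V i l • Pi.single l 1 := by
          intro l
          rw [← Finset.smul_sum, hα l]
        rw [Finset.sum_congr rfl fun l _ => h4 l]
        funext l'
        rw [Finset.sum_apply, Finset.sum_eq_single l']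
        · simp
        · intro l _ hl
          rw [Pi.smul_apply, Pi.single_eq_of_ne hl.symm, smul_zero]
        · intro h; exact absurd (Finset.mem_univ l') h
      rw [h1, h2]
      have h5 : V i ᵥ* U = (V * U) i := by
        funext j
        rw [Matrix.mul_apply, Matrix.vecMul, dotProduct]
      rw [h5, h.vu]
      funext j
      rw [Matrix.one_apply]
      by_cases hij : i = j
      · subst hij; simp
      · rw [if_neg hij, Pi.single_eq_of_ne (Ne.symm hij)]
    · have h1 : ∀ j, T.b j ^ (∑ l, V i l * α l j) = ∏ l, (T.b j ^ α l j) ^ V i l := by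
        intro j
        have h2 : ∀ s : Finset (Fin r), T.b j ^ (∑ l ∈ s, V i l * α l j) =
            ∏ l ∈ s, (T.b j ^ α l j) ^ V i l := by
          classical
          intro s
          induction s using Finset.induction_on with
          | empty => simp
          | insert a s ha ih =>
            rw [Finset.sum_insert ha, Finset.prod_insert ha, zpow_add₀ (T.b_ne j), ih,
              ← zpow_mul, mul_comm (α a j)]
        exact h2 _
      rw [Finset.prod_congr rfl fun j _ => h1 j, Finset.prod_comm]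
      refine Finset.prod_eq_one fun l _ => ?_
      rw [Finset.prod_zpow, hβ l, one_zpow]

omit [Fintype ι] in
/-- `Is` does not change. -/
theorem Is_change {x : Fin r → Ω} (hx : ∀ i, x i ≠ 0) (b : ι → Ω)
    {U V : Matrix (Fin r) (Fin r) ℤ} (h : Inv2 U V) :
    Is (k := k) v (fun j => mx x (V j)) b = Is (k := k) v x b := by
  apply le_antisymm
  · refine Submodule.span_le.2 ?_
    rintro g ⟨c, hc, l, hl, rfl⟩
    rw [mx_mx x V l hx] at hl ⊢
    exact Submodule.subset_span ⟨c, hc, _, hl, rfl⟩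
  · refine Submodule.span_le.2 ?_
    rintro g ⟨c, hc, l, hl, rfl⟩
    rw [← mx_back hx h l] at hl ⊢
    exact Submodule.subset_span ⟨c, hc, _, hl, rfl⟩

end Change

/-! ### the cone -/

section Cone

omit [Fintype ι] in
/-- Only finitely many monomials occur in an element of `Is`. -/
theorem exists_finset_of_mem_Is {x : Fin r → Ω} {b : ι → Ω} {g : Ω}
    (hg : g ∈ Is (k := k) v x b) : ∃ N : Finset (Fin r → ℤ), (∀ l ∈ N, 0 < v (mx x l)) ∧
      g ∈ Submodule.span k {g | ∃ c ∈ Ab k b, ∃ l ∈ N, g = c * mx x l} := by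
  classical
  unfold Is at hg
  induction hg using Submodule.span_induction with
  | mem g hg =>
    obtain ⟨c, hc, l, hl, rfl⟩ := hg
    exact ⟨{l}, by simpa using hl, Submodule.subset_span ⟨c, hc, l, by simp, rfl⟩⟩
  | zero => exact ⟨∅, by simp, Submodule.zero_mem _⟩
  | add g h _ _ hg hh =>
    obtain ⟨N₁, h1, h2⟩ := hg
    obtain ⟨N₂, h3, h4⟩ := hh
    refine ⟨N₁ ∪ N₂, ?_, Submodule.add_mem _ (Submodule.span_mono ?_ h2)
      (Submodule.span_mono ?_ h4)⟩
    · intro l hl
      rcases Finset.mem_union.1 hl with hl | hl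
      · exact h1 l hl
      · exact h3 l hl
    · rintro g ⟨c, hc, l, hl, rfl⟩
      exact ⟨c, hc, l, Finset.mem_union_left _ hl, rfl⟩
    · rintro g ⟨c, hc, l, hl, rfl⟩
      exact ⟨c, hc, l, Finset.mem_union_right _ hl, rfl⟩
  | smul e g _ hg =>
    obtain ⟨N, h1, h2⟩ := hg
    exact ⟨N, h1, Submodule.smul_mem _ _ h2⟩

omit [Fintype ι] in
theorem Ab_le_Ax (x : Fin r → Ω) (b : ι → Ω) : Ab k b ≤ Ax k x b :=
  Algebra.adjoin_mono Set.subset_union_right

omit [Fintype ι] in
theorem x_mem_Ax (x : Fin r → Ω) (b : ι → Ω) (i : Fin r) : x i ∈ Ax k x b :=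
  Algebra.subset_adjoin (Or.inl ⟨i, rfl⟩)

omit [Fintype ι] in
theorem Ax_mul_XA {x : Fin r → Ω} {b : ι → Ω} {c g : Ω} (hc : c ∈ Ax k x b)
    (hg : g ∈ XA k x b) : c * g ∈ XA k x b := by
  unfold XA at hg ⊢
  induction hg using Submodule.mul_induction_on' with
  | mem_mul_mem m hm n hn =>
    have h1 : c * (m * n) = m * (c * n) := by ring
    rw [h1]
    exact Submodule.mul_mem_mul hm (mul_mem hc hn : c * n ∈ Ax k x b)
  | add g _ h _ hg hh =>
    rw [mul_add]
    exact Submodule.add_mem _ hg hh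

omit [Fintype ι] in
/-- A monomial with nonnegative exponents is in `Ax`. -/
theorem mx_mem_Ax (x : Fin r → Ω) (b : ι → Ω) {l : Fin r → ℤ} (hl : ∀ i, 0 ≤ l i) :
    mx x l ∈ Ax k x b := by
  unfold mx
  refine prod_mem fun i _ => ?_
  obtain ⟨m, hm⟩ := Int.eq_ofNat_of_zero_le (hl i)
  rw [hm, zpow_natCast]
  exact pow_mem (x_mem_Ax x b i) m

omit [Fintype ι] in
/-- A monomial with nonnegative exponents, not all zero, is in `(x)`. -/
theorem mx_mem_XA {x : Fin r → Ω} (hx : ∀ i, x i ≠ 0) (b : ι → Ω) {l : Fin r → ℤ}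
    (hl : ∀ i, 0 ≤ l i) {j : Fin r} (hj : 0 < l j) : mx x l ∈ XA k x b := by
  have h1 : l = Pi.single j 1 + (l - Pi.single j 1) := by rw [add_sub_cancel]
  rw [h1, mx_add hx, mx_single, zpow_one]
  refine Submodule.mul_mem_mul (Submodule.subset_span ⟨j, rfl⟩) ?_
  refine mx_mem_Ax x b fun i => ?_
  rw [Pi.sub_apply]
  by_cases hij : i = j
  · subst hij
    rw [Pi.single_eq_same]
    omega
  · rw [Pi.single_eq_of_ne hij, sub_zero]
    exact hl i

theorem Ab_noeth (b : ι → Ω) : IsNoetherianRing (Ab k b) := by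
  classical
  have h1 : (Ab k b).FG := by
    refine ⟨(Finset.univ.image b) ∪ (Finset.univ.image fun j => (b j)⁻¹), ?_⟩
    unfold Ab
    congr 1
    ext z
    simp [eq_comm]
  have h2 : Algebra.FiniteType k (Ab k b) := Subalgebra.fg_iff_finiteType _ |>.1 h1
  exact Algebra.FiniteType.isNoetherianRing k (Ab k b)

/-- TA4: the regular cone. -/
theorem exists_cone (h : Ctx0 k v n) (T : TD k v r ι) :
    ∃ T' : TD k v r ι, T'.b = T.b ∧ (∀ i, 0 < v (T'.x i)) ∧
      (∀ i, ∃ l, T'.x i = mx T.x l) ∧ (∀ i, ∃ l, T.x i = mx T'.x l) ∧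
      Is (k := k) v T'.x T'.b = Is (k := k) v T.x T.b ∧
      ∀ g ∈ Ab k T.b, g ∈ Is (k := k) v T.x T.b → g ∈ XA k T'.x T'.b := by
  classical
  have _ := h
  have := Ab_noeth (k := k) T.b
  obtain ⟨G, hG⟩ := IsNoetherian.noetherian (aId (k := k) v T.x T.b)
  have h1 : ∀ g ∈ G, ∃ N : Finset (Fin r → ℤ), (∀ l ∈ N, 0 < v (mx T.x l)) ∧
      (g : Ω) ∈ Submodule.span k {g | ∃ c ∈ Ab k T.b, ∃ l ∈ N, g = c * mx T.x l} := by
    intro g hg
    have h2 : g ∈ aId (k := k) v T.x T.b := by
      rw [← hG]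
      exact Submodule.subset_span hg
    exact exists_finset_of_mem_Is h2
  choose! Nf hN1 hN2 using h1
  obtain ⟨U, V, hUV, hpos, hcone⟩ := perron_mx (v := v) T.x_ne T.x_ind (G.biUnion Nf) (by
    intro l hl
    obtain ⟨g, hg, hl⟩ := Finset.mem_biUnion.1 hl
    exact hN1 g hg l hl)
  refine ⟨T.change hUV, rfl, hpos, fun i => ⟨V i, rfl⟩, fun i => ⟨Pi.single i 1 ᵥ* U, ?_⟩,
    Is_change T.x_ne T.b hUV, ?_⟩
  · change T.x i = mx (fun j => mx T.x (V j)) _
    rw [mx_back T.x_ne hUV, mx_single, zpow_one]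
  intro g hgA hgI
  change g ∈ XA k (fun j => mx T.x (V j)) T.b
  set x' : Fin r → Ω := fun j => mx T.x (V j) with hx'
  have hx'0 : ∀ j, x' j ≠ 0 := fun j => mx_ne T.x_ne _
  -- the monomials
  have hmono : ∀ g ∈ G, ∀ l ∈ Nf g, mx T.x l ∈ XA k x' T.b := by
    intro g hg l hl
    have hl' : l ∈ G.biUnion Nf := Finset.mem_biUnion.2 ⟨g, hg, hl⟩
    rw [← mx_back T.x_ne hUV l]
    rcases Nat.eq_zero_or_pos r with hr | hr
    · exfalso
      have h2 := hN1 g hg l hl
      subst hr
      rw [v_mx T.x_ne] at h2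
      simp at h2
    · exact mx_mem_XA hx'0 T.b (fun i => (hcone l hl' i).le) (j := ⟨0, hr⟩) (hcone l hl' _)
  have hgen : ∀ g ∈ G, (g : Ω) ∈ XA k x' T.b := by
    intro g hg
    have h2 := hN2 g hg
    refine (Submodule.span_le.2 ?_) h2
    rintro _ ⟨c, hc, l, hl, rfl⟩
    exact Ax_mul_XA (Ab_le_Ax x' T.b hc) (hmono g hg l hl)
  have h2 : (⟨g, hgA⟩ : Ab k T.b) ∈ aId (k := k) v T.x T.b := hgI
  rw [← hG] at h2
  have key : ∀ z : Ab k T.b, z ∈ Submodule.span (Ab k T.b) (G : Set (Ab k T.b)) →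
      (z : Ω) ∈ XA k x' T.b := by
    intro z hz
    induction hz using Submodule.span_induction with
    | mem z hz => exact hgen z hz
    | zero => exact Submodule.zero_mem _
    | add a b _ _ ha hb => exact Submodule.add_mem _ ha hb
    | smul c a _ ha => exact Ax_mul_XA (Ab_le_Ax x' T.b c.2) ha
  exact key _ h2

/-- The differentials of the new monomials are independent too. -/
theorem li_D_of_mx (E : IntermediateField k Ω) (x x' : Fin r → Ω) (hx0 : ∀ i, x i ≠ 0)
    (hx0' : ∀ i, x' i ≠ 0) (hxx' : ∀ i, ∃ l, x i = mx x' l)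
    (hx : ∀ i, x i ∈ E) (hx' : ∀ i, x' i ∈ E)
    (hli : LinearIndependent E fun i => KaehlerDifferential.D k E ⟨x i, hx i⟩) :
    LinearIndependent E fun i => KaehlerDifferential.D k E ⟨x' i, hx' i⟩ := by
  classical
  have _ := hx0
  have _ := hx0'
  set P := Submodule.span E (Set.range fun i => KaehlerDifferential.D k E ⟨x' i, hx' i⟩) with hP
  have hfin : FiniteDimensional E P := FiniteDimensional.span_of_finite E (Set.finite_range _)
  have h1 : ∀ i, KaehlerDifferential.D k E ⟨x i, hx i⟩ ∈ P := by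
    intro i
    obtain ⟨l, hl⟩ := hxx' i
    refine Pool.Agent.ALB.D_mem_of_mem_adjoin (S := Set.range fun j => (⟨x' j, hx' j⟩ : E)) P ?_ ?_
    · rintro _ ⟨j, rfl⟩
      exact Submodule.subset_span ⟨j, rfl⟩
    · have h2 : (⟨x i, hx i⟩ : E) = ∏ j, (⟨x' j, hx' j⟩ : E) ^ l j := by
        apply Subtype.ext
        push_cast
        exact hl
      rw [h2]
      refine prod_mem fun j _ => zpow_mem ?_ _
      exact IntermediateField.subset_adjoin k (Set.range fun j => (⟨x' j, hx' j⟩ : E)) ⟨j, rfl⟩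
  have h2 : Submodule.span E (Set.range fun i => KaehlerDifferential.D k E ⟨x i, hx i⟩) ≤ P :=
    Submodule.span_le.2 (by rintro _ ⟨i, rfl⟩; exact h1 i)
  have h3 := Submodule.finrank_mono h2
  rw [finrank_span_eq_card hli] at h3
  rw [linearIndependent_iff_card_le_finrank_span]
  exact h3

end Cone

end Pool.Agent.TA
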