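import Pool.Agent.Lib.TA.Defs
import Mathlib

/-!
# TA6c: the count for the weighted filtration

`sm M f s = ∑_{j, M j < s} f (s - M j)` (all functions vanish at `0`).
-/

set_option autoImplicit false

namespace Pool.Agent.TA

open Finset

/-- `sm M f s = ∑_{j ≥ 0} f (s - M j)`, for functions with `f 0 = 0` and `M ≥ 1`. -/
def sm (M : ℕ) (f : ℕ → ℕ) (s : ℕ) : ℕ := ∑ j ∈ range s, f (s - M * j)

theorem sm_zero (M : ℕ) (f : ℕ → ℕ) : sm M f 0 = 0 := by simp [sm]

/-- Terms with `M j ≥ s` vanish, so that the range may be enlarged. -/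
theorem sm_eq {M : ℕ} (hM : 1 ≤ M) {f : ℕ → ℕ} (hf : f 0 = 0) {s t : ℕ} (h : s ≤ t) :
    sm M f s = ∑ j ∈ range t, f (s - M * j) := by
  rw [sm]
  refine sum_subset (range_subset_range.2 h) fun j _ hj => ?_
  rw [mem_range, not_lt] at hj
  have : s - M * j = 0 := by
    have : 1 * j ≤ M * j := Nat.mul_le_mul_right j hM
    omega
  rw [this, hf]

theorem sm_mono_fun {M : ℕ} {f g : ℕ → ℕ} (h : ∀ s, f s ≤ g s) (s : ℕ) : sm M f s ≤ sm M g s :=
  sum_le_sum fun _ _ => h _

theorem sm_monotone {M : ℕ} {f : ℕ → ℕ} (h : Monotone f) : Monotone (sm M f) := by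
  intro s t hst
  rw [sm, sm]
  calc ∑ j ∈ range s, f (s - M * j) ≤ ∑ j ∈ range s, f (t - M * j) :=
        sum_le_sum fun j _ => h (by omega)
    _ ≤ ∑ j ∈ range t, f (t - M * j) :=
        sum_le_sum_of_subset (range_subset_range.2 hst)

/-- `sm M f (s) = f s + sm M f (s - M)` for `s ≥ 1`. -/
theorem sm_rec {M : ℕ} (hM : 1 ≤ M) {f : ℕ → ℕ} (hf : f 0 = 0) (s : ℕ) :
    sm M f s = f s + sm M f (s - M) := by
  rcases Nat.eq_zero_or_pos s with rfl | hs
  · simp [sm, hf]
  · obtain ⟨t, rfl⟩ : ∃ t, s = t + 1 := ⟨s - 1, by omega⟩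
    rw [sm_eq hM hf (show t + 1 - M ≤ t by omega), sm, sum_range_succ', add_comm]
    congr 1
    refine sum_congr rfl fun j _ => ?_
    congr 1
    rw [mul_add, mul_one]
    omega

theorem sm_const_mul (M c : ℕ) (f : ℕ → ℕ) (s : ℕ) :
    sm M (fun t => c * f t) s = c * sm M f s := by
  rw [sm, sm, mul_sum]

theorem sm_shift {M : ℕ} (hM : 1 ≤ M) {f : ℕ → ℕ} (hf : f 0 = 0) (c s : ℕ) :
    sm M (fun t => f (t - c)) s = sm M f (s - c) := by
  have h1 : sm M f (s - c) = ∑ j ∈ range s, f (s - c - M * j) := sm_eq hM hf (by omega)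
  rw [h1, sm]
  refine sum_congr rfl fun j _ => ?_
  congr 1
  omega

/-- `M ∑_j f (s - M - M j) ≤ ∑_i f (s - i)`. -/
theorem mul_sm_le {M : ℕ} (hM : 1 ≤ M) {f : ℕ → ℕ} (hf : f 0 = 0) (hm : Monotone f) (s : ℕ) :
    M * sm M f (s - M) ≤ sm 1 f s := by
  induction s using Nat.strong_induction_on with
  | _ s ih =>
    rcases Nat.lt_or_ge M s with h | h
    · -- `s > M`
      have h1 : ∀ l, l ≤ M → l * f (s - M) + sm 1 f (s - l) ≤ sm 1 f s := by
        intro l
        induction l with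
        | zero => intro _; simp
        | succ l ihl =>
          intro hl
          have h2 := ihl (by omega)
          have h3 := sm_rec le_rfl hf (s - l)
          have h4 : f (s - M) ≤ f (s - l) := hm (by omega)
          have h5 : s - l - 1 = s - (l + 1) := by omega
          rw [h5] at h3
          rw [add_mul, one_mul]
          omega
      have h2 := h1 M le_rfl
      have h3 := ih (s - M) (by omega)
      have h4 := sm_rec hM hf (s - M)
      rw [h4, mul_add]
      omega
    · have : s - M = 0 := by omega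
      rw [this, sm_zero, mul_zero]
      exact Nat.zero_le _

/-- `∑_i f (s - i) ≤ M ∑_j f (s - M j)`. -/
theorem sm_le_mul {M : ℕ} (hM : 1 ≤ M) {f : ℕ → ℕ} (hf : f 0 = 0) (hm : Monotone f) (s : ℕ) :
    sm 1 f s ≤ M * sm M f s := by
  induction s using Nat.strong_induction_on with
  | _ s ih =>
    rcases Nat.eq_zero_or_pos s with rfl | hs
    · simp [sm_zero]
    · have h1 : ∀ l, sm 1 f s ≤ l * f s + sm 1 f (s - l) := by
        intro l
        induction l with
        | zero => simp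
        | succ l ihl =>
          have h3 := sm_rec le_rfl hf (s - l)
          have h4 : f (s - l) ≤ f s := hm (by omega)
          have h5 : s - l - 1 = s - (l + 1) := by omega
          rw [h5] at h3
          rw [add_mul, one_mul]
          omega
      have h2 := h1 M
      have h3 := ih (s - M) (by omega)
      have h4 := sm_rec hM hf s
      rw [h4, mul_add]
      omega

/-- The iterated sum `∑_{a ∈ ℕ^r} f (s - M |a|)`. -/
def smr (M : ℕ) : ℕ → (ℕ → ℕ) → (ℕ → ℕ)
  | 0, f => f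
  | (r + 1), f => sm M (smr M r f)

theorem smr_zero_arg (M : ℕ) (f : ℕ → ℕ) (hf : f 0 = 0) (r : ℕ) : smr M r f 0 = 0 := by
  cases r with
  | zero => exact hf
  | succ r => exact sm_zero _ _

theorem smr_monotone {M : ℕ} {f : ℕ → ℕ} (h : Monotone f) (r : ℕ) : Monotone (smr M r f) := by
  induction r with
  | zero => exact h
  | succ r ih => exact sm_monotone ih

theorem smr_mono_fun {M : ℕ} {f g : ℕ → ℕ} (h : ∀ s, f s ≤ g s) (r s : ℕ) :
    smr M r f s ≤ smr M r g s := by
  induction r generalizing s with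
  | zero => exact h s
  | succ r ih => exact sm_mono_fun ih s

/-- `M^r ∑_a f (s - r M - M |a|) ≤ ∑_a f (s - |a|)`. -/
theorem mul_smr_le {M : ℕ} (hM : 1 ≤ M) {f : ℕ → ℕ} (hf : f 0 = 0) (hm : Monotone f) (r s : ℕ) :
    M ^ r * smr M r f (s - r * M) ≤ smr 1 r f s := by
  induction r generalizing s with
  | zero => simp [smr]
  | succ r ih =>
    have h1 : sm 1 (fun t => M ^ r * smr M r f (t - r * M)) s ≤ smr 1 (r + 1) f s :=
      sm_mono_fun ih s
    refine le_trans ?_ h1
    have h2 : (fun t => M ^ r * smr M r f (t - r * M)) 0 = 0 := by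
      simp [smr_zero_arg M f hf r]
    have h3 : Monotone (fun t => M ^ r * smr M r f (t - r * M)) := by
      intro a b hab
      exact Nat.mul_le_mul_left _ (smr_monotone hm r (by omega))
    refine le_trans (le_of_eq ?_) (mul_sm_le hM h2 h3 s)
    rw [sm_const_mul, sm_shift hM (smr_zero_arg M f hf r), pow_succ', mul_assoc]
    congr 2
    change sm M (smr M r f) _ = _
    congr 1
    rw [add_mul, one_mul]
    omega

/-- `∑_a f (s - |a|) ≤ M^r ∑_a f (s - M |a|)`. -/
theorem smr_le_mul {M : ℕ} (hM : 1 ≤ M) {f : ℕ → ℕ} (hf : f 0 = 0) (hm : Monotone f) (r s : ℕ) :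
    smr 1 r f s ≤ M ^ r * smr M r f s := by
  induction r generalizing s with
  | zero => simp [smr]
  | succ r ih =>
    refine (sm_mono_fun ih s).trans ?_
    rw [sm_const_mul, pow_succ, mul_assoc]
    refine Nat.mul_le_mul_left _ ?_
    exact sm_le_mul hM (smr_zero_arg M f hf r) (smr_monotone hm r) s

/-- `∑_{a ∈ ℕ^r} #{b ∈ ℕ^D : |b| < s - |a|} = binom (s - 1 + r + D, r + D)`. -/
theorem smr_choose (D r s : ℕ) (hs : 0 < s) :
    smr 1 r (fun t => if t = 0 then 0 else (t - 1 + D).choose D) s =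
      (s - 1 + (r + D)).choose (r + D) := by
  induction r generalizing s with
  | zero =>
    simp only [smr]
    rw [if_neg (by omega), zero_add]
  | succ r ih =>
    change sm 1 (smr 1 r _) s = _
    obtain ⟨t, rfl⟩ : ∃ t, s = t + 1 := ⟨s - 1, by omega⟩
    rw [Nat.add_sub_cancel]
    induction t with
    | zero =>
      rw [sm_rec le_rfl (smr_zero_arg 1 _ (by simp) r), ih 1 (by omega)]
      simp [sm_zero]
    | succ t iht =>
      rw [sm_rec le_rfl (smr_zero_arg 1 _ (by simp) r), ih _ (by omega)]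
      rw [show t + 1 + 1 - 1 = t + 1 by omega]
      rw [iht (by omega)]
      have h1 : t + 1 + (r + 1 + D) = (t + 1 + (r + D)) + 1 := by ring
      have h2 : t + (r + 1 + D) = t + 1 + (r + D) := by ring
      rw [h1, h2, show r + 1 + D = (r + D) + 1 by ring, Nat.choose_succ_succ]

theorem cnt_eq (r j : ℕ) : cnt r j = Nat.multichoose r j := by
  rw [cnt, ← map_sym_eq_piAntidiag, card_map, sym_univ, card_univ,
    Sym.card_sym_eq_multichoose, Fintype.card_fin]

/-- `∑_{a ∈ ℕ^r} β (s - M₀ |a|)`. -/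
def qM (r M₀ : ℕ) (β : ℕ → ℕ) (s : ℕ) : ℕ := ∑ j ∈ Finset.range s, cnt r j * β (s - M₀ * j)

/-- The number of `(a, b) ∈ ℕ^r × ℕ^D` with `M₀ |a| + |b| < S`. -/
def cM (r D M₀ S : ℕ) : ℕ :=
  ∑ j ∈ Finset.range S, cnt r j * ∑ i ∈ Finset.range (S - M₀ * j), cnt D i

theorem qM_eq_of_le {M : ℕ} (hM : 1 ≤ M) {f : ℕ → ℕ} (hf : f 0 = 0) (r : ℕ) {s t : ℕ}
    (h : s ≤ t) : qM r M f s = ∑ j ∈ range t, cnt r j * f (s - M * j) := by
  rw [qM]
  refine sum_subset (range_subset_range.2 h) fun j _ hj => ?_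
  rw [mem_range, not_lt] at hj
  have : s - M * j = 0 := by
    have : 1 * j ≤ M * j := Nat.mul_le_mul_right j hM
    omega
  rw [this, hf, mul_zero]

theorem qM_zero (M : ℕ) {f : ℕ → ℕ} (hf : f 0 = 0) (s : ℕ) : qM 0 M f s = f s := by
  rcases Nat.eq_zero_or_pos s with rfl | hs
  · simp [qM, hf]
  · obtain ⟨t, rfl⟩ : ∃ t, s = t + 1 := ⟨s - 1, by omega⟩
    rw [qM, sum_range_succ', sum_eq_zero, zero_add]
    · simp [cnt_eq]
    · intro j _
      rw [cnt_eq, Nat.multichoose_zero_succ, zero_mul]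

theorem qM_rec {M : ℕ} (hM : 1 ≤ M) {f : ℕ → ℕ} (hf : f 0 = 0) (r s : ℕ) :
    qM (r + 1) M f s = qM r M f s + qM (r + 1) M f (s - M) := by
  rcases Nat.eq_zero_or_pos s with rfl | hs
  · simp [qM]
  · obtain ⟨t, rfl⟩ : ∃ t, s = t + 1 := ⟨s - 1, by omega⟩
    rw [qM_eq_of_le hM hf (r + 1) (show t + 1 - M ≤ t by omega), qM, qM, sum_range_succ',
      sum_range_succ' _ t]
    have h1 : ∀ j, cnt (r + 1) (j + 1) * f (t + 1 - M * (j + 1)) =
        cnt r (j + 1) * f (t + 1 - M * (j + 1)) + cnt (r + 1) j * f (t + 1 - M - M * j) := by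
      intro j
      have h2 : t + 1 - M * (j + 1) = t + 1 - M - M * j := by
        rw [mul_add, mul_one]
        omega
      rw [h2, ← add_mul, cnt_eq, cnt_eq, cnt_eq, Nat.multichoose_succ_succ]
    simp only [h1]
    rw [sum_add_distrib]
    have h3 : cnt (r + 1) 0 = cnt r 0 := by simp [cnt_eq]
    rw [h3]
    ring

theorem qM_eq {M : ℕ} (hM : 1 ≤ M) {f : ℕ → ℕ} (hf : f 0 = 0) (r s : ℕ) :
    qM r M f s = smr M r f s := by
  induction r generalizing s with
  | zero => rw [qM_zero M hf]; rfl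
  | succ r ihr =>
    induction s using Nat.strong_induction_on with
    | _ s ih =>
      rcases Nat.eq_zero_or_pos s with rfl | hs
      · rw [smr_zero_arg M f hf]
        simp [qM]
      · rw [qM_rec hM hf, ihr, ih (s - M) (by omega)]
        exact (sm_rec hM (smr_zero_arg M f hf r) s).symm

theorem qs_eq {f : ℕ → ℕ} (r s : ℕ) : qs r f s = qM r 1 f s := by
  rw [qs, qM]
  simp only [one_mul]

theorem qM_le_qs {r : ℕ} (M₀ : ℕ) (hM : 0 < M₀) (β : ℕ → ℕ) (hβ : Monotone β) (h0 : β 0 = 0)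
    (s : ℕ) : M₀ ^ r * qM r M₀ β (s - r * M₀) ≤ qs r β s := by
  rw [qs_eq, qM_eq hM h0, qM_eq le_rfl h0]
  exact mul_smr_le hM h0 hβ r s

theorem sum_cnt (D t : ℕ) : ∑ i ∈ range t, cnt D i = if t = 0 then 0 else
    (t - 1 + D).choose D := by
  cases t with
  | zero => simp
  | succ t =>
    rw [if_neg (by omega), Nat.add_sub_cancel]
    induction t with
    | zero => simp [cnt_eq]
    | succ t ih =>
      rw [sum_range_succ, ih, cnt_eq]
      cases D with
      | zero => simp
      | succ D =>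
        rw [Nat.multichoose_eq]
        have h1 : D + 1 + (t + 1) - 1 = t + D + 1 := by omega
        have h2 : t + (D + 1) = t + D + 1 := by ring
        have h3 : t + 1 + (D + 1) = t + D + 1 + 1 := by ring
        rw [h1, h2, h3, Nat.choose_succ_succ (t + D + 1) D, add_comm]
        congr 1
        rw [← Nat.choose_symm (show t + 1 ≤ t + D + 1 by omega)]
        congr 1
        omega

theorem cM_eq (r D M S : ℕ) : cM r D M S =
    qM r M (fun t => if t = 0 then 0 else (t - 1 + D).choose D) S := by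
  rw [cM, qM]
  simp only [sum_cnt]

theorem choose_le_cM {n r D : ℕ} (M₀ : ℕ) (hM : 0 < M₀) (hn : n = r + D) (S : ℕ) (hS : 0 < S) :
    (S - 1 + n).choose n ≤ M₀ ^ r * cM r D M₀ S := by
  subst hn
  rw [cM_eq, qM_eq hM (by simp), ← smr_choose D r S hS]
  refine smr_le_mul hM (by simp) ?_ r S
  intro a b hab
  simp only
  split_ifs
  · exact le_rfl
  · exact Nat.zero_le _
  · omega
  · exact Nat.choose_le_choose _ (by omega)

theorem growth_beta {n r D : ℕ} (I C : ℕ) (β : ℕ → ℕ) (hI : 0 < I) (hβ : Monotone β)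
    (hn : n = r + D) (hC : ∀ s, I * qs r β s ≤ C * (s + 1) ^ n) :
    ∃ C', ∀ s, β s ≤ C' * (s + 1) ^ D := by
  -- `β s · #{|a| ≤ s} ≤ q (2 s + 1)`
  have h1 : ∀ s, β s * ∑ j ∈ range (s + 1), cnt r j ≤ qs r β (2 * s + 1) := by
    intro s
    rw [qs, mul_sum]
    calc ∑ j ∈ range (s + 1), β s * cnt r j
        ≤ ∑ j ∈ range (s + 1), cnt r j * β (2 * s + 1 - j) := by
          refine sum_le_sum fun j hj => ?_
          rw [mul_comm]
          refine Nat.mul_le_mul_left _ (hβ ?_)
          rw [mem_range] at hj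
          omega
      _ ≤ ∑ j ∈ range (2 * s + 1), cnt r j * β (2 * s + 1 - j) :=
          sum_le_sum_of_subset (range_subset_range.2 (by omega))
  have h2 : ∀ s, (s + 1) ^ r ≤ r.factorial * ∑ j ∈ range (s + 1), cnt r j := by
    intro s
    rw [sum_cnt, if_neg (by omega), Nat.add_sub_cancel]
    have h := Nat.pow_succ_le_ascFactorial (s + 1) r
    rw [Nat.ascFactorial_eq_factorial_mul_choose] at h
    exact h
  refine ⟨r.factorial * C * 2 ^ n, fun s => ?_⟩
  have h3 : β s * (s + 1) ^ r ≤ (r.factorial * C * 2 ^ n * (s + 1) ^ D) * (s + 1) ^ r := by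
    calc β s * (s + 1) ^ r ≤ β s * (r.factorial * ∑ j ∈ range (s + 1), cnt r j) :=
          Nat.mul_le_mul_left _ (h2 s)
      _ = r.factorial * (β s * ∑ j ∈ range (s + 1), cnt r j) := by ring
      _ ≤ r.factorial * qs r β (2 * s + 1) := Nat.mul_le_mul_left _ (h1 s)
      _ ≤ r.factorial * (I * qs r β (2 * s + 1)) :=
          Nat.mul_le_mul_left _ (Nat.le_mul_of_pos_left _ hI)
      _ ≤ r.factorial * (C * (2 * s + 1 + 1) ^ n) := Nat.mul_le_mul_left _ (hC _)
      _ = (r.factorial * C * 2 ^ n * (s + 1) ^ D) * (s + 1) ^ r := by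
          have : 2 * s + 1 + 1 = 2 * (s + 1) := by ring
          rw [this, mul_pow, hn, pow_add (s + 1)]
          ring
  exact Nat.le_of_mul_le_mul_right h3 (by positivity)

end Pool.Agent.TA
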