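import Pool.Agent.Lib.TA.Count
import Pool.Agent.Lib.TA.Filt

/-!
# TA6b: Cramer's rule with values, and the count
-/

set_option autoImplicit false

namespace Pool.Agent.TA

open Pool.Agent.H15JM (RVal)
open Pool.Agent.LU1 (VPos decG fixO mem_fixO)
open Pool.Agent.LU3 (Ctx0)
open Submodule Module

universe u

section Cramer

variable {N : Type*} [Field N] {ω : RVal N}

theorem ge_one : ω.Ge 0 (1 : N) := by
  intro _
  rw [ω.map_one]

theorem ge_neg_one : ω.Ge 0 (-1 : N) := by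
  intro _
  rw [ω.map_neg_one]

theorem ge_pow {c : ℝ} {x : N} (hx : ω.Ge c x) (m : ℕ) : ω.Ge (m * c) (x ^ m) := by
  induction m with
  | zero => rw [pow_zero, Nat.cast_zero, zero_mul]; exact ge_one
  | succ m ih =>
    rw [pow_succ, Nat.cast_succ, add_mul, one_mul]
    exact ih.mul hx

theorem ge_sign {m : ℕ} (s : Equiv.Perm (Fin m)) :
    ω.Ge 0 (((Equiv.Perm.sign s : ℤˣ) : ℤ) : N) := by
  rcases Int.units_eq_one_or (Equiv.Perm.sign s) with h | h
  · rw [h]; simpa using (ge_one : ω.Ge 0 (1 : N))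
  · rw [h]; simpa using (ge_neg_one : ω.Ge 0 (-1 : N))

theorem ge_det {m : ℕ} (M : Matrix (Fin m) (Fin m) N) (h : ∀ i j, ω.Ge 0 (M i j)) :
    ω.Ge 0 M.det := by
  rw [Matrix.det_apply']
  refine RVal.Ge.sum _ _ fun s _ => ?_
  have h1 := RVal.Ge.prod (v := ω) (fun _ => (0 : ℝ)) Finset.univ (fun i => M (s i) i)
    fun i _ => h _ _
  have h2 := (ge_sign (ω := ω) s).mul h1
  simpa using h2

theorem ge_adjugate {m : ℕ} (M : Matrix (Fin m) (Fin m) N) (h : ∀ i j, ω.Ge 0 (M i j))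
    (i j : Fin m) : ω.Ge 0 (M.adjugate i j) := by
  rw [Matrix.adjugate_apply]
  refine ge_det _ fun a b => ?_
  rw [Matrix.updateRow_apply]
  split_ifs
  · by_cases hb : b = i
    · subst hb
      rw [Pi.single_eq_same]
      exact ge_one
    · rw [Pi.single_eq_of_ne hb]
      exact RVal.Ge.zero
  · exact h a b

/-- Cramer's rule: if all `∑ P_i t_j^i` have value at least `s`, then every `P_i` has value at
least `s` minus the value of the Vandermonde determinant. -/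
theorem cramer {m : ℕ} (t P : Fin m → N) (ht : Function.Injective t)
    (ht0 : ∀ j, ω.Ge 0 (t j)) {s : ℝ} (h : ∀ j, ω.Ge s (∑ i, P i * t j ^ (i : ℕ))) (i : Fin m) :
    ω.Ge (s - ω (Matrix.vandermonde t).det) (P i) := by
  intro hP
  have hdet : (Matrix.vandermonde t).det ≠ 0 := Matrix.det_vandermonde_ne_zero_iff.2 ht
  have h1 : (Matrix.vandermonde t).adjugate.mulVec ((Matrix.vandermonde t).mulVec P) =
      (Matrix.vandermonde t).det • P := by
    rw [Matrix.mulVec_mulVec, Matrix.adjugate_mul, Matrix.smul_mulVec, Matrix.one_mulVec]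
  have h2 := congrFun h1 i
  rw [Pi.smul_apply, smul_eq_mul] at h2
  have h3 : ω.Ge s (((Matrix.vandermonde t).adjugate.mulVec
      ((Matrix.vandermonde t).mulVec P)) i) := by
    rw [Matrix.mulVec, dotProduct]
    refine RVal.Ge.sum _ _ fun j _ => ?_
    have h4 : ω.Ge 0 ((Matrix.vandermonde t).adjugate i j) := by
      refine ge_adjugate _ (fun a b => ?_) i j
      rw [Matrix.vandermonde_apply]
      simpa using ge_pow (ht0 a) (b : ℕ)
    have h5 : ω.Ge s ((Matrix.vandermonde t).mulVec P j) := by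
      have h6 := h j
      have h7 : (Matrix.vandermonde t).mulVec P j = ∑ i, P i * t j ^ (i : ℕ) := by
        rw [Matrix.mulVec, dotProduct]
        refine Finset.sum_congr rfl fun b _ => ?_
        rw [Matrix.vandermonde_apply, mul_comm]
      rw [h7]
      exact h6
    simpa using h4.mul h5
  rw [h2] at h3
  have h4 := h3 (mul_ne_zero hdet hP)
  rw [ω.map_mul hdet hP] at h4
  linarith

end Cramer

section Exps

open Finset

theorem exists_exps (r D M S : ℕ) : ∃ X : Finset ((Fin r ⊕ Fin D) →₀ ℕ),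
    X.card = cM r D M S ∧ ∀ d ∈ X, M * ∑ i, d (Sum.inl i) + ∑ j, d (Sum.inr j) < S := by
  classical
  let T : Finset ((_ : ℕ) × (_ : ℕ) × (Fin r → ℕ) × (Fin D → ℕ)) :=
    (range S).sigma fun j => (range (S - M * j)).sigma fun i =>
      piAntidiag (univ : Finset (Fin r)) j ×ˢ piAntidiag (univ : Finset (Fin D)) i
  have hT : ∀ z ∈ T, ∑ i, z.2.2.1 i = z.1 ∧ ∑ i, z.2.2.2 i = z.2.1 ∧ z.1 < S ∧
      z.2.1 < S - M * z.1 := by
    rintro ⟨j, i, a, b⟩ hz
    simp only [T, mem_sigma, mem_range, mem_product, mem_piAntidiag] at hz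
    exact ⟨hz.2.2.1.1, hz.2.2.2.1, hz.1, hz.2.1⟩
  let ex : ((_ : ℕ) × (_ : ℕ) × (Fin r → ℕ) × (Fin D → ℕ)) → ((Fin r ⊕ Fin D) →₀ ℕ) :=
    fun z => Finsupp.equivFunOnFinite.symm (Sum.elim z.2.2.1 z.2.2.2)
  have hl : ∀ z i, ex z (Sum.inl i) = z.2.2.1 i := fun z i => rfl
  have hr : ∀ z i, ex z (Sum.inr i) = z.2.2.2 i := fun z i => rfl
  refine ⟨T.image ex, ?_, ?_⟩
  · rw [card_image_of_injOn]
    · simp only [T, card_sigma, card_product, cM, cnt, mul_sum]
    · rintro ⟨j, i, a, b⟩ hz ⟨j', i', a', b'⟩ hz' he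
      have h1 := hT _ hz
      have h2 := hT _ hz'
      have ha : a = a' := by
        funext l
        have := DFunLike.congr_fun he (Sum.inl l)
        exact this
      have hb : b = b' := by
        funext l
        have := DFunLike.congr_fun he (Sum.inr l)
        exact this
      subst ha hb
      obtain ⟨h3, h4, -, -⟩ := h1
      obtain ⟨h5, h6, -, -⟩ := h2
      simp only at h3 h4 h5 h6
      rw [h3] at h5
      rw [h4] at h6
      subst h5 h6
      rfl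
  · intro d hd
    rw [mem_image] at hd
    obtain ⟨z, hz, rfl⟩ := hd
    obtain ⟨h1, h2, h3, h4⟩ := hT z hz
    simp only [hl, hr]
    rw [h1, h2]
    omega

end Exps

section Vg

variable {k Ω : Type u} [Field k] [Field Ω] [Algebra k Ω] {ω : RVal Ω}
  {F : IntermediateField k Ω} {N : IntermediateField F Ω}

/-- The elements `g` of `N` with `ω (σ g) ≥ c`, as a subspace of `Ω`. -/
def Vg (hωk : ∀ c : k, c ≠ 0 → ω (algebraMap k Ω c) = 0) (σ : N ≃ₐ[F] N) (c : ℝ) :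
    Submodule k Ω where
  carrier := {g | ∃ m : N, (m : Ω) = g ∧ ω.Ge c (σ m : Ω)}
  add_mem' := by
    rintro g g' ⟨m, rfl, h⟩ ⟨m', rfl, h'⟩
    refine ⟨m + m', rfl, ?_⟩
    rw [_root_.map_add]
    exact h.add h'
  zero_mem' := ⟨0, rfl, by rw [_root_.map_zero]; exact RVal.Ge.zero⟩
  smul_mem' := by
    rintro a g ⟨m, rfl, h⟩
    refine ⟨algebraMap F N (algebraMap k F a) * m, ?_, ?_⟩
    · rw [Algebra.smul_def]
      rfl
    · rw [_root_.map_mul, AlgEquiv.commutes]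
      have h1 : ω.Ge 0 (algebraMap k Ω a) := by
        intro ha
        have ha' : a ≠ 0 := by
          rintro rfl
          exact ha (_root_.map_zero _)
        rw [hωk a ha']
      have h2 := h1.mul h
      rw [zero_add] at h2
      exact h2

variable {hωk : ∀ c : k, c ≠ 0 → ω (algebraMap k Ω c) = 0} {σ : N ≃ₐ[F] N}

theorem mem_Vg {c : ℝ} {g : Ω} : g ∈ Vg hωk σ c ↔ ∃ m : N, (m : Ω) = g ∧ ω.Ge c (σ m : Ω) :=
  Iff.rfl

theorem Vg_mono {c d : ℝ} (h : c ≤ d) : Vg hωk σ d ≤ Vg hωk σ c := by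
  rintro g ⟨m, hm, h'⟩
  exact ⟨m, hm, h'.mono h⟩

theorem Vg_mul (c d : ℝ) : Vg hωk σ c * Vg hωk σ d ≤ Vg hωk σ (c + d) := by
  rw [Submodule.mul_le]
  rintro g ⟨m, rfl, h⟩ g' ⟨m', rfl, h'⟩
  refine ⟨m * m', rfl, ?_⟩
  rw [_root_.map_mul]
  exact h.mul h'

theorem mul_le_Vg {P Q : Submodule k Ω} {c d : ℝ} (hP : P ≤ Vg hωk σ c) (hQ : Q ≤ Vg hωk σ d) :
    P * Q ≤ Vg hωk σ (c + d) := (mul_le_mul' hP hQ).trans (Vg_mul c d)

theorem pow_le_Vg {P : Submodule k Ω} {c : ℝ} (hP : P ≤ Vg hωk σ c) (m : ℕ) :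
    P ^ m ≤ Vg hωk σ (m * c) := by
  induction m with
  | zero =>
    rw [pow_zero, Nat.cast_zero, zero_mul, Submodule.one_le]
    exact ⟨1, rfl, by rw [_root_.map_one]; exact ge_one⟩
  | succ m ih =>
    rw [pow_succ, Nat.cast_succ, add_mul, one_mul]
    exact mul_le_Vg ih hP

theorem mem_Vg_of_F {g : Ω} (hg : g ∈ F) {c : ℝ} (h : ω.Ge c g) : g ∈ Vg hωk σ c := by
  refine ⟨algebraMap F N ⟨g, hg⟩, rfl, ?_⟩
  rw [AlgEquiv.commutes]
  exact h

end Vg

section Centre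

variable {k Ω : Type u} [Field k] [Field Ω] [Algebra k Ω] {v : RVal Ω} {n r D : ℕ}
  {ι : Type} [Fintype ι] {ω : RVal Ω} {F : IntermediateField k Ω} {N : IntermediateField F Ω}
  {hωk : ∀ c : k, c ≠ 0 → ω (algebraMap k Ω c) = 0} {σ : N ≃ₐ[F] N}

/-- Step (6a): the elements of `W` have value at least one. -/
theorem Wb_le_Vg (x : Fin r → Ω) (b : ι → Ω) (y : Fin D → Ω) (s₀ : ℕ)
    (hrel : Wb k b ^ (s₀ + 1) ≤ span k (Set.range y) * Wb k b ^ s₀ ⊔ XA k x b ⊔
      Wb k b ^ (s₀ + 2) * (Ax k x b).toSubmodule)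
    (hA : (Ax k x b).toSubmodule ≤ Vg hωk σ 0)
    (hx : span k (Set.range x) ≤ Vg hωk σ (s₀ + 1 : ℕ)) (hy : span k (Set.range y) ≤ Vg hωk σ 1)
    (hW : ∀ j, b j - 1 ≠ 0 → ∃ m : N, (m : Ω) = b j - 1 ∧ 0 < ω (σ m : Ω)) :
    Wb k b ≤ Vg hωk σ 1 := by
  classical
  by_cases hne : ∃ j, b j - 1 ≠ 0
  · -- the smallest value on the generators
    choose! m hm hm0 using hW
    obtain ⟨j₀, hj₀⟩ := hne
    obtain ⟨j, hj, hmin⟩ := Finset.exists_min_image
      (Finset.univ.filter fun j => b j - 1 ≠ 0) (fun j => ω (σ (m j) : Ω))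
      ⟨j₀, by simpa using hj₀⟩
    rw [Finset.mem_filter] at hj
    set μ : ℝ := ω (σ (m j) : Ω) with hμ
    have hμ0 : 0 < μ := hm0 j hj.2
    have hWμ : Wb k b ≤ Vg hωk σ μ := by
      rw [Wb, Submodule.span_le]
      rintro _ ⟨i, rfl⟩
      by_cases hi : b i - 1 = 0
      · simp only [hi]
        exact (Vg hωk σ μ).zero_mem
      · refine ⟨m i, hm i hi, ?_⟩
        intro _
        exact hmin i (by simpa using hi)
    have hsm : ((σ (m j) : N) : Ω) ≠ 0 := by
      intro h0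
      have h1 : σ (m j) = 0 := by exact_mod_cast h0
      rw [map_eq_zero_iff σ σ.injective] at h1
      have h2 := hm j hj.2
      rw [h1] at h2
      exact hj.2 h2.symm
    -- the power
    have hbj : b j - 1 ∈ Wb k b := Submodule.subset_span ⟨j, rfl⟩
    have h1 : (b j - 1) ^ (s₀ + 1) ∈ Wb k b ^ (s₀ + 1) := Submodule.pow_mem_pow _ hbj _
    have h2 := hrel h1
    have h3 : span k (Set.range y) * Wb k b ^ s₀ ⊔ XA k x b ⊔
        Wb k b ^ (s₀ + 2) * (Ax k x b).toSubmodule ≤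
        Vg hωk σ (min (min (1 + s₀ * μ) (s₀ + 1 : ℕ)) ((s₀ + 2 : ℕ) * μ)) := by
      refine sup_le (sup_le ?_ ?_) ?_
      · exact (mul_le_Vg hy (pow_le_Vg hWμ s₀)).trans
          (Vg_mono ((min_le_left _ _).trans (min_le_left _ _)))
      · refine (mul_le_Vg hx hA).trans (Vg_mono ?_)
        rw [add_zero]
        exact (min_le_left _ _).trans (min_le_right _ _)
      · refine (mul_le_Vg (pow_le_Vg hWμ (s₀ + 2)) hA).trans (Vg_mono ?_)
        rw [add_zero]
        exact min_le_right _ _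
    obtain ⟨z, hz, hz'⟩ := h3 h2
    have hz1 : z = m j ^ (s₀ + 1) := by
      apply Subtype.ext
      rw [hz]
      push_cast
      rw [hm j hj.2]
    rw [hz1, map_pow] at hz'
    have h4 := hz' (by push_cast; exact pow_ne_zero _ hsm)
    have h5 : ω ((σ (m j) ^ (s₀ + 1) : N) : Ω) = (s₀ + 1 : ℕ) * μ := by
      push_cast
      rw [ω.map_pow hsm]
      push_cast
      rfl
    rw [h5] at h4
    have hμ1 : 1 ≤ μ := by
      rcases min_le_iff.1 h4 with h4 | h4
      · rcases min_le_iff.1 h4 with h4 | h4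
        · push_cast at h4
          linarith
        · have h6 : (0 : ℝ) < (s₀ + 1 : ℕ) := by positivity
          have h7 : ((s₀ + 1 : ℕ) : ℝ) * 1 ≤ (s₀ + 1 : ℕ) * μ := by rw [mul_one]; exact h4
          exact le_of_mul_le_mul_left h7 h6
      · exfalso
        push_cast at h4
        linarith
    exact hWμ.trans (Vg_mono hμ1)
  · push Not at hne
    rw [Wb, Submodule.span_le]
    rintro _ ⟨i, rfl⟩
    simp only [hne i]
    exact (Vg hωk σ 1).zero_mem

omit [Fintype ι] in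
theorem Js_le_Vg (x : Fin r → Ω) (b : ι → Ω) (M₀ : ℕ)
    (hA : (Ax k x b).toSubmodule ≤ Vg hωk σ 0)
    (hx : span k (Set.range x) ≤ Vg hωk σ M₀) (hW : Wb k b ≤ Vg hωk σ 1) (s : ℕ) :
    Js k x b M₀ s ≤ Vg hωk σ s := by
  refine iSup₂_le fun j _ => ?_
  refine (mul_le_Vg (mul_le_Vg (pow_le_Vg hx j) (pow_le_Vg hW (s - M₀ * j))) hA).trans
    (Vg_mono ?_)
  rw [mul_one, add_zero]
  have h1 : s ≤ j * M₀ + (s - M₀ * j) := by
    rw [mul_comm]
    omega
  calc (s : ℝ) ≤ ((j * M₀ + (s - M₀ * j) : ℕ) : ℝ) := by exact_mod_cast h1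
    _ = j * M₀ + ((s - M₀ * j : ℕ) : ℝ) := by push_cast; ring

/-- An automorphism that fixes `k(x, b)` pointwise and `x ∈ F` lies in `H`. -/
theorem mem_H_of_fix [FiniteDimensional F N] [IsGalois F N] (H : Subgroup (N ≃ₐ[F] N))
    (E : IntermediateField k Ω) (hH : fixO F N H = E) (S : Set Ω)
    (hE : IntermediateField.adjoin k S = E) (τ : N ≃ₐ[F] N)
    (hτ : ∀ m : N, (m : Ω) ∈ S → τ m = m) : τ ∈ H := by
  have hSN : ∀ g ∈ S, ∃ m : N, (m : Ω) = g := by
    intro g hg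
    have h1 : g ∈ E := by
      rw [← hE]
      exact IntermediateField.subset_adjoin k S hg
    rw [← hH, mem_fixO] at h1
    obtain ⟨m, hm, -⟩ := h1
    exact ⟨m, hm⟩
  have h1 : E ≤ fixO F N (Subgroup.zpowers τ) := by
    rw [← hE, IntermediateField.adjoin_le_iff]
    intro g hg
    obtain ⟨m, rfl⟩ := hSN g hg
    change (m : Ω) ∈ fixO F N (Subgroup.zpowers τ)
    rw [mem_fixO]
    refine ⟨m, rfl, ?_⟩
    intro σ' hσ'
    have h2 : τ ∈ MulAction.stabilizer (N ≃ₐ[F] N) m := hτ m hg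
    exact Subgroup.zpowers_le.2 h2 hσ'
  have h2 : IntermediateField.fixedField H ≤ IntermediateField.fixedField (Subgroup.zpowers τ) := by
    intro m hm
    rw [IntermediateField.mem_fixedField_iff] at hm ⊢
    have h3 : (m : Ω) ∈ E := by
      rw [← hH, mem_fixO]
      exact ⟨m, rfl, hm⟩
    have h4 := h1 h3
    rw [mem_fixO] at h4
    obtain ⟨m', hm', h5⟩ := h4
    have h6 : m' = m := Subtype.ext hm'
    rw [← h6]
    exact h5
  have h3 := IntermediateField.fixingSubgroup_fixedField H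
  have h4 := IntermediateField.fixingSubgroup_fixedField (Subgroup.zpowers τ)
  have h5 : Subgroup.zpowers τ ≤ H := by
    rw [← h3, ← h4]
    exact IntermediateField.fixingSubgroup_antitone h2
  exact h5 (Subgroup.mem_zpowers τ)

/-- An element of `A` with pairwise different conjugates. -/
theorem exists_theta [Infinite k] (A : Subalgebra k Ω) (hAN : ∀ g ∈ A, g ∈ N) {m : ℕ}
    (σ : Fin m → (N ≃ₐ[F] N))
    (hσ : ∀ i j, i ≠ j → ∃ g : N, (g : Ω) ∈ A ∧ σ i g ≠ σ j g) :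
    ∃ θ : N, (θ : Ω) ∈ A ∧ Function.Injective fun i => (σ i θ : Ω) := by
  classical
  -- the linear maps `σ_i : A → Ω`
  let f : Fin m → (A →ₗ[k] Ω) := fun i =>
    { toFun := fun a => (σ i ⟨a, hAN a a.2⟩ : Ω)
      map_add' := fun a a' => by
        have h1 : (⟨((a + a' : A) : Ω), hAN _ (a + a').2⟩ : N) =
            ⟨a, hAN a a.2⟩ + ⟨a', hAN a' a'.2⟩ := rfl
        rw [h1, map_add]
        rfl
      map_smul' := fun c a => by
        have h1 : (⟨((c • a : A) : Ω), hAN _ (c • a).2⟩ : N) =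
            algebraMap F N (algebraMap k F c) * ⟨a, hAN a a.2⟩ := by
          apply Subtype.ext
          change ((c • a : A) : Ω) = algebraMap k Ω c * (a : Ω)
          rw [Subalgebra.coe_smul, Algebra.smul_def]
        rw [h1, map_mul, AlgEquiv.commutes, RingHom.id_apply, Algebra.smul_def]
        rfl }
  have hf : ∀ i (a : A), f i a = (σ i ⟨a, hAN a a.2⟩ : Ω) := fun i a => rfl
  let P : {p : Fin m × Fin m // p.1 ≠ p.2} → Submodule k A := fun p =>
    LinearMap.ker (f p.1.1 - f p.1.2)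
  have hne : ⋃ p, ((P p : Submodule k A) : Set A) ≠ Set.univ := by
    intro hu
    obtain ⟨p, hp⟩ := Subspace.exists_eq_top_of_iUnion_eq_univ hu
    obtain ⟨g, hg, hgσ⟩ := hσ p.1.1 p.1.2 p.2
    have h1 : (⟨(g : Ω), hg⟩ : A) ∈ P p := by
      rw [hp]
      exact Submodule.mem_top
    rw [LinearMap.mem_ker, LinearMap.sub_apply, sub_eq_zero, hf, hf] at h1
    exact hgσ (Subtype.ext h1)
  obtain ⟨θ, hθ⟩ := (Set.ne_univ_iff_exists_notMem _).1 hne
  refine ⟨⟨θ, hAN θ θ.2⟩, θ.2, ?_⟩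
  intro i j hij
  by_contra hne'
  apply hθ
  rw [Set.mem_iUnion]
  refine ⟨⟨(i, j), hne'⟩, ?_⟩
  change θ ∈ LinearMap.ker (f i - f j)
  rw [LinearMap.mem_ker, LinearMap.sub_apply, sub_eq_zero, hf, hf]
  exact hij

/-- The count with an arbitrary family of automorphisms. -/
theorem count_aux [Infinite k] (x : Fin r → Ω) (y : Fin D → Ω)
    (A : Subalgebra k Ω) (hAN : ∀ g ∈ A, g ∈ N) (hxA : ∀ i, x i ∈ A) (hyA : ∀ j, y j ∈ A)
    (hxF : ∀ i, x i ∈ F) (hyF : ∀ j, y j ∈ F) (M₀ : ℕ)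
    (hωP : ∀ P : MvPolynomial (Fin r ⊕ Fin D) k, P ≠ 0 →
        MvPolynomial.aeval (Sum.elim x y) P ≠ (0 : Ω) ∧ ∀ d ∈ P.support,
        ω (MvPolynomial.aeval (Sum.elim x y) P) ≤
          ((M₀ * ∑ i, d (Sum.inl i) + ∑ j, d (Sum.inr j) : ℕ) : ℝ))
    {m : ℕ} (σ : Fin m → (N ≃ₐ[F] N))
    (hσ : ∀ i j, i ≠ j → ∃ g : N, (g : Ω) ∈ A ∧ σ i g ≠ σ j g)
    (hA : ∀ i, A.toSubmodule ≤ Vg hωk (σ i) 0) (J : ℕ → Submodule k Ω)
    (hJ : ∀ i s, J s ≤ Vg hωk (σ i) s) :
    ∃ c : ℕ, ∀ s, FiniteDimensional k ((A.toSubmodule.map (J s).mkQ) : Submodule k (Ω ⧸ J s)) →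
      m * cM r D M₀ (s - c) ≤
        finrank k ((A.toSubmodule.map (J s).mkQ) : Submodule k (Ω ⧸ J s)) := by
  classical
  obtain ⟨θ, hθA, hθ⟩ := exists_theta A hAN σ hσ
  set δ : ℝ := ω (Matrix.vandermonde fun i => (σ i θ : Ω)).det with hδ
  refine ⟨⌈δ⌉₊, fun s hfin => ?_⟩
  set S : ℕ := s - ⌈δ⌉₊ with hS
  obtain ⟨X, hX1, hX2⟩ := exists_exps r D M₀ S
  -- the polynomials
  have hPF : ∀ P : MvPolynomial (Fin r ⊕ Fin D) k,
      MvPolynomial.aeval (Sum.elim x y) P ∈ F := by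
    intro P
    have h1 : ∀ i, Sum.elim x y i ∈ F := by
      rintro (i | j)
      · exact hxF i
      · exact hyF j
    have h2 : MvPolynomial.aeval (Sum.elim x y) P =
        ((MvPolynomial.aeval (fun i => (⟨Sum.elim x y i, h1 i⟩ : F)) P : F) : Ω) := by
      have h3 := MvPolynomial.comp_aeval_apply (fun i => (⟨Sum.elim x y i, h1 i⟩ : F)) F.val P
      rw [← IntermediateField.coe_val, h3]
      rfl
    rw [h2]
    exact Subtype.coe_prop _
  have hPA : ∀ P : MvPolynomial (Fin r ⊕ Fin D) k,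
      MvPolynomial.aeval (Sum.elim x y) P ∈ A := by
    intro P
    have h1 : ∀ i, Sum.elim x y i ∈ A := by
      rintro (i | j)
      · exact hxA i
      · exact hyA j
    have h2 : MvPolynomial.aeval (Sum.elim x y) P =
        ((MvPolynomial.aeval (fun i => (⟨Sum.elim x y i, h1 i⟩ : A)) P : A) : Ω) := by
      have h3 := MvPolynomial.comp_aeval_apply (fun i => (⟨Sum.elim x y i, h1 i⟩ : A)) A.val P
      rw [← Subalgebra.coe_val, h3]
      rfl
    rw [h2]
    exact Subtype.coe_prop _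
  -- the key: injectivity
  have hinj : ∀ P : Fin m → MvPolynomial (Fin r ⊕ Fin D) k,
      (∀ i, ∀ d ∈ (P i).support, M₀ * ∑ i, d (Sum.inl i) + ∑ j, d (Sum.inr j) < S) →
      ∑ i, MvPolynomial.aeval (Sum.elim x y) (P i) * (θ : Ω) ^ (i : ℕ) ∈ J s → ∀ i, P i = 0 := by
    intro P hP hmem i
    by_contra hPi
    have h1 : ∀ j, ω.Ge s (∑ i : Fin m, MvPolynomial.aeval (Sum.elim x y) (P i) *
        (σ j θ : Ω) ^ (i : ℕ)) := by
      intro j
      obtain ⟨z, hz, hz'⟩ := hJ j s hmem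
      have h2 : z = ∑ i : Fin m,
          algebraMap F N ⟨MvPolynomial.aeval (Sum.elim x y) (P i), hPF _⟩ * θ ^ (i : ℕ) := by
        apply Subtype.ext
        rw [hz]
        push_cast
        rfl
      rw [h2, map_sum] at hz'
      have h3 : ((∑ i : Fin m, σ j (algebraMap F N
          ⟨MvPolynomial.aeval (Sum.elim x y) (P i), hPF _⟩ * θ ^ (i : ℕ)) : N) : Ω) =
          ∑ i : Fin m, MvPolynomial.aeval (Sum.elim x y) (P i) * (σ j θ : Ω) ^ (i : ℕ) := by
        push_cast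
        refine Finset.sum_congr rfl fun i _ => ?_
        rw [map_mul, map_pow, AlgEquiv.commutes]
        push_cast
        rfl
      rw [h3] at hz'
      exact hz'
    have hθ0 : ∀ j, ω.Ge 0 (σ j θ : Ω) := by
      intro j
      obtain ⟨z, hz, hz'⟩ := hA j hθA
      have h2 : z = θ := Subtype.ext hz
      rw [h2] at hz'
      exact hz'
    have h2 := cramer (ω := ω) (fun j => (σ j θ : Ω))
      (fun i => MvPolynomial.aeval (Sum.elim x y) (P i)) hθ hθ0 h1 i
    obtain ⟨h3, h4⟩ := hωP (P i) hPi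
    have h5 := h2 h3
    obtain ⟨d, hd⟩ := MvPolynomial.support_nonempty.2 hPi
    have h6 := h4 d hd
    have h7 := hP i d hd
    have h8 : ((M₀ * ∑ i, d (Sum.inl i) + ∑ j, d (Sum.inr j) : ℕ) : ℝ) + 1 ≤ (S : ℝ) := by
      exact_mod_cast h7
    have h9 : (S : ℝ) ≤ s - δ := by
      have h10 : ⌈δ⌉₊ ≤ s := by omega
      have h11 := Nat.le_ceil δ
      have h12 : (S : ℝ) = (s : ℝ) - ⌈δ⌉₊ := by
        rw [hS, Nat.cast_sub h10]
      rw [h12]
      linarith
    rw [← hδ] at h5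
    linarith
  -- the linearly independent family
  let u : Fin m × X → Ω ⧸ J s := fun p =>
    (J s).mkQ (MvPolynomial.aeval (Sum.elim x y) (MvPolynomial.monomial p.2.1 (1 : k)) *
      (θ : Ω) ^ (p.1 : ℕ))
  have hu : LinearIndependent k u := by
    rw [Fintype.linearIndependent_iff]
    intro c hc
    let P : Fin m → MvPolynomial (Fin r ⊕ Fin D) k := fun i =>
      ∑ d : X, MvPolynomial.monomial d.1 (c (i, d))
    have hcoeff : ∀ i (d : X), MvPolynomial.coeff d.1 (P i) = c (i, d) := by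
      intro i d
      simp only [P]
      rw [MvPolynomial.coeff_sum, Finset.sum_eq_single d]
      · rw [MvPolynomial.coeff_monomial, if_pos rfl]
      · intro d' _ hd'
        rw [MvPolynomial.coeff_monomial, if_neg]
        intro h
        exact hd' (Subtype.ext h)
      · intro h
        exact absurd (Finset.mem_univ d) h
    have hsupp : ∀ i, ∀ d ∈ (P i).support,
        M₀ * ∑ i, d (Sum.inl i) + ∑ j, d (Sum.inr j) < S := by
      intro i d hd
      refine hX2 d ?_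
      by_contra hdX
      rw [MvPolynomial.mem_support_iff] at hd
      apply hd
      simp only [P]
      rw [MvPolynomial.coeff_sum]
      refine Finset.sum_eq_zero fun d' _ => ?_
      rw [MvPolynomial.coeff_monomial, if_neg]
      rintro rfl
      exact hdX d'.2
    have hmem : ∑ i, MvPolynomial.aeval (Sum.elim x y) (P i) * (θ : Ω) ^ (i : ℕ) ∈ J s := by
      rw [← Submodule.Quotient.mk_eq_zero, ← Submodule.mkQ_apply, ← hc, Fintype.sum_prod_type,
        map_sum]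
      refine Finset.sum_congr rfl fun i _ => ?_
      simp only [P, u]
      rw [map_sum, Finset.sum_mul, map_sum]
      refine Finset.sum_congr rfl fun d _ => ?_
      rw [← map_smul]
      congr 1
      rw [← smul_mul_assoc, ← map_smul, MvPolynomial.smul_monomial, smul_eq_mul, mul_one]
    rintro ⟨i, d⟩
    rw [← hcoeff i d, hinj P hsupp hmem i, MvPolynomial.coeff_zero]
  have h1 := finrank_span_eq_card hu
  have h2 : span k (Set.range u) ≤ A.toSubmodule.map (J s).mkQ := by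
    rw [Submodule.span_le]
    rintro _ ⟨p, rfl⟩
    refine Submodule.mem_map_of_mem ?_
    exact A.mul_mem (hPA _) (A.pow_mem hθA _)
  have h3 := Submodule.finrank_mono h2
  rw [h1, Fintype.card_prod, Fintype.card_fin, Fintype.card_coe, hX1] at h3
  exact h3

set_option linter.unusedVariables false in
/-- TA6b: the count. -/
theorem count (h : Ctx0 k v n) [IsAlgClosed k] (hn : n = r + D)
    (E : IntermediateField k Ω) (halg : ∀ g : Ω, IsAlgebraic E g)
    (T : TD k v r ι) (hpos : ∀ i, 0 < v (T.x i))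
    (hE : IntermediateField.adjoin k (Set.range T.x ∪ Set.range T.b) = E)
    (hX : ∀ g ∈ Ab k T.b, g ∈ Is (k := k) v T.x T.b → g ∈ XA k T.x T.b)
    (y : Fin D → Ω) (s₀ : ℕ) (hy : ∀ j, y j ∈ Wb k T.b)
    (hrel : Wb k T.b ^ (s₀ + 1) ≤ span k (Set.range y) * Wb k T.b ^ s₀ ⊔ XA k T.x T.b ⊔
        Wb k T.b ^ (s₀ + 2) * (Ax k T.x T.b).toSubmodule)
    (F : IntermediateField k Ω) (hF : F = IntermediateField.adjoin k (Set.range T.x ∪ Set.range y))
    (hsep : ∀ g ∈ E, IsSeparable F g)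
    (N : IntermediateField F Ω) [FiniteDimensional F N] [IsGalois F N]
    (H : Subgroup (N ≃ₐ[F] N)) (hH : fixO F N H = E)
    (M₀ : ℕ) (hM : M₀ = s₀ + 1) (ω : RVal Ω)
    (hωx : ∀ i, ω (T.x i) = M₀) (hωy : ∀ j, y j ≠ 0 ∧ ω (y j) = 1)
    (hωk : ∀ c : k, c ≠ 0 → ω (algebraMap k Ω c) = 0)
    (hωP : ∀ P : MvPolynomial (Fin r ⊕ Fin D) k, P ≠ 0 →
        MvPolynomial.aeval (Sum.elim T.x y) P ≠ (0 : Ω) ∧ ∀ d ∈ P.support,
        ω (MvPolynomial.aeval (Sum.elim T.x y) P) ≤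
          ((M₀ * ∑ i, d (Sum.inl i) + ∑ j, d (Sum.inr j) : ℕ) : ℝ))
    (hω1 : ∀ σ ∈ decG v F N, ∀ g : N, (g : Ω) ∈ Ax k T.x T.b → ω.Ge 0 (σ g : Ω))
    (hω2 : ∀ σ ∈ decG v F N, ∀ g : N, (g : Ω) ∈ Ax k T.x T.b → VPos v (g : Ω) →
        VPos ω (σ g : Ω)) :
    ∃ c : ℕ, ∀ s, H.relIndex (decG v F N) * cM r D M₀ (s - c) ≤
      qM r M₀ (beta k v T.x T.b) s := by
  classical
  subst hM
  -- memberships
  have hxF : ∀ i, T.x i ∈ F := fun i => by
    rw [hF]
    exact IntermediateField.subset_adjoin k _ (Or.inl ⟨i, rfl⟩)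
  have hyF : ∀ j, y j ∈ F := fun j => by
    rw [hF]
    exact IntermediateField.subset_adjoin k _ (Or.inr ⟨j, rfl⟩)
  have hxE : ∀ i, T.x i ∈ E := fun i => by
    rw [← hE]
    exact IntermediateField.subset_adjoin k _ (Or.inl ⟨i, rfl⟩)
  have hbE : ∀ j, T.b j ∈ E := fun j => by
    rw [← hE]
    exact IntermediateField.subset_adjoin k _ (Or.inr ⟨j, rfl⟩)
  have hAE : ∀ g ∈ Ax k T.x T.b, g ∈ E := by
    have h1 : Ax k T.x T.b ≤ E.toSubalgebra := by
      refine Algebra.adjoin_le ?_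
      rintro g (⟨i, rfl⟩ | ⟨j, rfl⟩ | ⟨j, rfl⟩)
      · exact hxE i
      · exact hbE j
      · exact E.inv_mem (hbE j)
    exact fun g hg => h1 hg
  have hEN : ∀ g ∈ E, g ∈ N := by
    intro g hg
    rw [← hH, mem_fixO] at hg
    obtain ⟨m, rfl, -⟩ := hg
    exact m.2
  have hAN : ∀ g ∈ Ax k T.x T.b, g ∈ N := fun g hg => hEN g (hAE g hg)
  have hWA := Wb_le_Ax₅ (k := k) T.x T.b
  -- the subspaces
  have hA : ∀ σ ∈ decG v F N, (Ax k T.x T.b).toSubmodule ≤ Vg hωk σ 0 := by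
    intro σ hσ g hg
    exact ⟨⟨g, hAN g hg⟩, rfl, hω1 σ hσ _ hg⟩
  have hx : ∀ σ : N ≃ₐ[F] N, span k (Set.range T.x) ≤ Vg hωk σ (s₀ + 1 : ℕ) := by
    intro σ
    rw [Submodule.span_le]
    rintro _ ⟨i, rfl⟩
    refine mem_Vg_of_F (hxF i) ?_
    intro _
    rw [hωx i]
  have hyV : ∀ σ : N ≃ₐ[F] N, span k (Set.range y) ≤ Vg hωk σ 1 := by
    intro σ
    rw [Submodule.span_le]
    rintro _ ⟨j, rfl⟩
    refine mem_Vg_of_F (hyF j) ?_
    intro _
    rw [(hωy j).2]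
  have hWV : ∀ σ ∈ decG v F N, Wb k T.b ≤ Vg hωk σ 1 := by
    intro σ hσ
    refine Wb_le_Vg T.x T.b y s₀ hrel (hA σ hσ) (hx σ) (hyV σ) ?_
    intro j hj
    have h1 : T.b j - 1 ∈ Ax k T.x T.b := hWA (Submodule.subset_span ⟨j, rfl⟩)
    refine ⟨⟨T.b j - 1, hAN _ h1⟩, rfl, ?_⟩
    refine hω2 σ hσ _ h1 (T.b_res j) ?_
    intro h2
    have h3 : σ ⟨T.b j - 1, hAN _ h1⟩ = 0 := by exact_mod_cast h2
    rw [map_eq_zero_iff σ σ.injective] at h3
    exact hj (congrArg Subtype.val h3)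
  have hJ : ∀ σ ∈ decG v F N, ∀ s : ℕ, Js k T.x T.b (s₀ + 1) s ≤ Vg hωk σ s := by
    intro σ hσ s
    exact Js_le_Vg T.x T.b (s₀ + 1) (hA σ hσ) (hx σ) (hWV σ hσ) s
  -- representatives of the cosets
  set Dec := decG v F N with hDec
  have hfinQ : Finite (Dec ⧸ H.subgroupOf Dec) := inferInstance
  let e : (Dec ⧸ H.subgroupOf Dec) ≃ Fin (Nat.card (Dec ⧸ H.subgroupOf Dec)) :=
    Finite.equivFin _
  let σ' : Fin (Nat.card (Dec ⧸ H.subgroupOf Dec)) → Dec := fun i => (e.symm i).out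
  have hσ' : ∀ i j, i ≠ j → ((σ' i : N ≃ₐ[F] N))⁻¹ * (σ' j : N ≃ₐ[F] N) ∉ H := by
    intro i j hij hmem
    apply hij
    apply e.symm.injective
    have h1 : ((σ' i : Dec) : Dec ⧸ H.subgroupOf Dec) = (σ' j : Dec) := by
      rw [QuotientGroup.eq, Subgroup.mem_subgroupOf]
      exact hmem
    have h2 : ∀ i, ((σ' i : Dec) : Dec ⧸ H.subgroupOf Dec) = e.symm i := fun i =>
      QuotientGroup.out_eq' _
    rw [h2, h2] at h1
    exact h1
  obtain ⟨c, hc⟩ := count_aux (hωk := hωk) T.x y (Ax k T.x T.b) hAN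
    (x_mem_Ax₅ T.x T.b) (fun j => hWA (hy j)) hxF hyF (s₀ + 1) hωP
    (fun i => (σ' i : N ≃ₐ[F] N))
    (by
      intro i j hij
      by_contra hcon
      push Not at hcon
      refine hσ' i j hij ?_
      refine mem_H_of_fix H E hH _ hE _ ?_
      intro m hm
      have h1 : (m : Ω) ∈ Ax k T.x T.b := by
        rcases hm with ⟨l, hl⟩ | ⟨l, hl⟩
        · rw [← hl]
          exact x_mem_Ax₅ T.x T.b l
        · rw [← hl]
          exact Ab_le_Ax₅ T.x T.b (b_mem T.b l)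
      have h2 := hcon m h1
      rw [AlgEquiv.mul_apply, ← h2, ← AlgEquiv.mul_apply, inv_mul_cancel, AlgEquiv.one_apply])
    (fun i => hA _ (σ' i).2) (fun s => Js k T.x T.b (s₀ + 1) s)
    (fun i s => hJ _ (σ' i).2 s)
  refine ⟨c, fun s => ?_⟩
  obtain ⟨h1, h2⟩ := filt T hX (s₀ + 1) (Nat.succ_pos _) s
  exact (hc s h1).trans h2

end Centre

end Pool.Agent.TA
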