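import Mathlib

/-!
# Toric Albanese: lemmas for the key inequality (TA1)

`|ι| * q(s) ≤ dim P^(2s-1)`: degenerate the powers of `P` along the values; the torus moves the
centre to `|ι|` independent points with the same local ring, and the forms of degree `2s-1`
separate their jets of order `s`.
-/

set_option autoImplicit false

namespace Pool.Agent.TA

open Submodule Module

theorem sum_c' {k X M : Type*} [Field k] [AddCommGroup X] [Module k X] [Fintype M]
    [DecidableEq M] (w : M → ℝ) (S' : Finset M) (m0 : M) (hm0 : m0 ∉ S') (c : M → k) (g : M → X) :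
    ∑ m, (if m = m0 then 1 else if m ∈ S' ∧ w m = w m0 then -c m else 0 : k) • g m =
      g m0 - ∑ m ∈ S' with w m = w m0, c m • g m := by
  classical
  have e1 : ∑ m, (if m = m0 then 1 else if m ∈ S' ∧ w m = w m0 then -c m else 0 : k) • g m =
      ∑ m, ((if m = m0 then g m else 0) -
      (if m ∈ S' ∧ w m = w m0 then c m • g m else 0)) := by
    refine Finset.sum_congr rfl fun m _ => ?_
    by_cases e : m = m0
    · subst e
      simp [hm0]
    · by_cases e' : m ∈ S' ∧ w m = w m0
      · simp [e, e']
      · simp [e, e']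
  rw [e1, Finset.sum_sub_distrib, Finset.sum_ite_eq' Finset.univ m0,
    if_pos (Finset.mem_univ _), ← Finset.sum_filter]
  congr 1
  refine Finset.sum_congr ?_ fun _ _ => rfl
  ext m
  simp [Finset.mem_filter]

/-- Dimension of a weight degeneration: if every weight-homogeneous combination of the `a m` which
lies in the span of the `a m'` of higher weight is killed by `u`, the `u m` span a space of
dimension at most that of the span of the `a m`. -/
theorem finrank_span_le_of_weights {k V T M : Type*} [Field k] [AddCommGroup V] [Module k V]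
    [AddCommGroup T] [Module k T] [Fintype M] (w : M → ℝ) (a : M → V) (u : M → T)
    (H : ∀ (τ : ℝ) (c : M → k), (∀ m, c m ≠ 0 → w m = τ) →
      (∑ m, c m • a m) ∈ span k (a '' {m | τ < w m}) → ∑ m, c m • u m = 0) :
    finrank k (span k (Set.range u)) ≤ finrank k (span k (Set.range a)) := by
  classical
  have key : ∀ n : ℕ, ∀ S : Finset M, S.card = n → (∀ m ∈ S, ∀ m', w m < w m' → m' ∈ S) →
      ∃ J : Finset M, J ⊆ S ∧ LinearIndependent k (fun j : J => a j) ∧
        (∀ m ∈ S, a m ∈ span k (a '' J)) ∧ ∀ m ∈ S, u m ∈ span k (u '' J) := by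
    intro n
    induction n with
    | zero =>
      intro S hS _
      rw [Finset.card_eq_zero] at hS
      subst hS
      exact ⟨∅, le_rfl, linearIndependent_empty_type, by simp, by simp⟩
    | succ n ih =>
      intro S hS hup
      have hne : S.Nonempty := by
        rw [← Finset.card_pos, hS]; omega
      obtain ⟨m0, hm0, hmin⟩ := S.exists_min_image w hne
      set S' := S.erase m0 with hS'
      have hcard : S'.card = n := by rw [hS', Finset.card_erase_of_mem hm0, hS]; rfl
      have hup' : ∀ m ∈ S', ∀ m', w m < w m' → m' ∈ S' := by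
        intro m hm m' hmm'
        refine Finset.mem_erase.2 ⟨?_, hup m (Finset.mem_of_mem_erase hm) m' hmm'⟩
        rintro rfl
        exact absurd hmm' (not_lt.2 (hmin m (Finset.mem_of_mem_erase hm)))
      obtain ⟨J, hJS, hJli, hJa, hJu⟩ := ih S' hcard hup'
      have hspan : span k (a '' (S' : Set M)) ≤ span k (a '' (J : Set M)) := by
        rw [span_le]
        rintro _ ⟨m, hm, rfl⟩
        exact hJa m hm
      by_cases hmem : a m0 ∈ span k (a '' (J : Set M))
      · refine ⟨J, hJS.trans (Finset.erase_subset _ _), hJli, ?_, ?_⟩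
        · intro m hm
          by_cases h : m = m0
          · rw [h]; exact hmem
          · exact hJa m (Finset.mem_erase.2 ⟨h, hm⟩)
        · intro m hm
          by_cases h : m = m0
          · rw [h]
            have h1 : a m0 ∈ span k (a '' (S' : Set M)) :=
              span_mono (Set.image_mono (by exact_mod_cast hJS)) hmem
            rw [mem_span_image_finset_iff_exists_fun] at h1
            obtain ⟨c, hc⟩ : ∃ c : M → k, ∑ m ∈ S', c m • a m = a m0 := by
              obtain ⟨c, hc⟩ := h1
              refine ⟨fun m => if h : m ∈ S' then c ⟨m, h⟩ else 0, ?_⟩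
              rw [← hc, ← Finset.sum_coe_sort]
              refine Finset.sum_congr rfl fun m _ => ?_
              simp
            have hm0' : m0 ∉ S' := by simp [hS']
            set c' : M → k := fun m => if m = m0 then 1 else if m ∈ S' ∧ w m = w m0 then -c m else 0
              with hc'
            have h2 := H (w m0) c' (by
              intro m hm
              simp only [hc'] at hm
              by_cases e : m = m0
              · rw [e]
              · by_cases e' : m ∈ S' ∧ w m = w m0
                · exact e'.2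
                · simp [e, e'] at hm) (by
              rw [hc', sum_c' w S' m0 hm0' c a]
              have h3 : a m0 = ∑ m ∈ S' with w m = w m0, c m • a m +
                  ∑ m ∈ S' with ¬ w m = w m0, c m • a m := by
                rw [Finset.sum_filter_add_sum_filter_not]
                exact hc.symm
              have h4 : a m0 - ∑ m ∈ S' with w m = w m0, c m • a m =
                  ∑ m ∈ S' with ¬ w m = w m0, c m • a m := by
                rw [sub_eq_iff_eq_add, add_comm]; exact h3
              rw [h4]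
              refine sum_mem fun m hm => smul_mem _ _ (subset_span ⟨m, ?_, rfl⟩)
              obtain ⟨h5, h6⟩ := Finset.mem_filter.1 hm
              exact lt_of_le_of_ne (hmin m (Finset.mem_of_mem_erase h5)) (fun e => h6 e.symm))
            rw [hc', sum_c' w S' m0 hm0' c u, sub_eq_zero] at h2
            rw [h2]
            exact sum_mem fun m hm => smul_mem _ _ (hJu m (Finset.mem_filter.1 hm).1)
          · exact hJu m (Finset.mem_erase.2 ⟨h, hm⟩)
      · refine ⟨insert m0 J, ?_, ?_, ?_, ?_⟩
        · exact Finset.insert_subset hm0 (hJS.trans (Finset.erase_subset _ _))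
        · have h1 : LinearIndepOn k a (J : Set M) := hJli
          have h2 : LinearIndepOn k a (insert m0 (J : Set M)) := h1.insert hmem
          rw [← Finset.coe_insert] at h2
          exact h2
        · intro m hm
          by_cases h : m = m0
          · rw [h]; exact subset_span ⟨m0, by simp, rfl⟩
          · exact span_mono (Set.image_mono (by simp)) (hJa m (Finset.mem_erase.2 ⟨h, hm⟩))
        · intro m hm
          by_cases h : m = m0
          · rw [h]; exact subset_span ⟨m0, by simp, rfl⟩
          · exact span_mono (Set.image_mono (by simp)) (hJu m (Finset.mem_erase.2 ⟨h, hm⟩))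
  obtain ⟨J, -, hJli, -, hJu⟩ := key _ Finset.univ rfl (fun _ _ _ _ => Finset.mem_univ _)
  have h1 : span k (Set.range u) ≤ span k (u '' (J : Set M)) := by
    rw [span_le]
    rintro _ ⟨m, rfl⟩
    exact hJu m (Finset.mem_univ _)
  have : FiniteDimensional k (span k (u '' (J : Set M))) :=
    FiniteDimensional.span_of_finite k (J.finite_toSet.image u)
  have : FiniteDimensional k (span k (Set.range a)) :=
    FiniteDimensional.span_of_finite k (Set.finite_range a)
  calc finrank k (span k (Set.range u)) ≤ finrank k (span k (u '' (J : Set M))) :=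
        Submodule.finrank_mono h1
    _ ≤ J.card := by
        rw [← Finset.coe_image]
        exact (finrank_span_finset_le_card _).trans Finset.card_image_le
    _ ≤ finrank k (span k (Set.range a)) := by
        have h2 : LinearIndependent k (fun j : J => (⟨a j, subset_span ⟨_, rfl⟩⟩ :
            span k (Set.range a))) := by
          refine LinearIndependent.of_comp (span k (Set.range a)).subtype ?_
          exact hJli
        have := h2.fintype_card_le_finrank
        simpa using this

/-- The character `c ↦ c^l` of the torus. -/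
def chr {k : Type*} [Field k] {r : ℕ} (l : Fin r → ℤ) : (Fin r → kˣ) →* k :=
  (Units.coeHom k).comp
    { toFun := fun c => ∏ i, c i ^ l i
      map_one' := by simp
      map_mul' := fun c d => by simp [mul_zpow, Finset.prod_mul_distrib] }

theorem chr_apply {k : Type*} [Field k] {r : ℕ} (l : Fin r → ℤ) (c : Fin r → kˣ) :
    chr l c = ((∏ i, c i ^ l i : kˣ) : k) := rfl

theorem exists_unit_zpow_ne {k : Type*} [Field k] [Infinite k] (m : ℤ) (hm : m ≠ 0) :
    ∃ t : kˣ, t ^ m ≠ 1 := by
  by_contra hcon
  push Not at hcon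
  have hpos : 0 < m.natAbs := Int.natAbs_pos.2 hm
  have h1 : ∀ t : kˣ, t ^ m.natAbs = 1 := by
    intro t
    have := hcon t
    rcases Int.natAbs_eq m with h | h
    · rw [h, zpow_natCast] at this
      exact this
    · rw [h, zpow_neg, zpow_natCast, inv_eq_one] at this
      exact this
  classical
  have h2 : (Set.univ : Set k) ⊆ insert 0 ((Polynomial.nthRoots m.natAbs (1 : k)).toFinset : Set k) := by
    intro t _
    by_cases ht : t = 0
    · left; exact ht
    · right
      have := h1 (Units.mk0 t ht)
      rw [Finset.mem_coe, Multiset.mem_toFinset, Polynomial.mem_nthRoots hpos]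
      have h3 := congrArg (fun u : kˣ => (u : k)) this
      simpa using h3
  exact Set.infinite_univ ((Set.Finite.insert 0 (Finset.finite_toSet _)).subset h2)

theorem chr_injective {k : Type*} [Field k] [Infinite k] {r : ℕ} :
    Function.Injective (fun l : Fin r → ℤ => chr (k := k) l) := by
  classical
  intro l l' h
  by_contra hne
  obtain ⟨i, hi⟩ := Function.ne_iff.1 hne
  obtain ⟨t, ht⟩ := exists_unit_zpow_ne (k := k) (l i - l' i) (sub_ne_zero.2 hi)
  apply ht
  have h1 := DFunLike.congr_fun h (Function.update (1 : Fin r → kˣ) i t)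
  simp only at h1
  rw [chr_apply, chr_apply, Units.val_inj] at h1
  have h2 : ∀ l : Fin r → ℤ, ∏ j, (Function.update (1 : Fin r → kˣ) i t j) ^ l j = t ^ l i := by
    intro l
    rw [Finset.prod_eq_single i]
    · simp
    · intro j _ hj
      simp [Function.update_of_ne hj]
    · intro h; exact absurd (Finset.mem_univ _) h
  rw [h2, h2] at h1
  rw [zpow_sub, h1, mul_inv_cancel]

/-- Points of the torus at which finitely many different characters are independent. -/
theorem exists_points {k : Type*} [Field k] [Infinite k] {r : ℕ} {ι : Type*} [Fintype ι]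
    [DecidableEq ι] (a : ι → Fin r → ℤ) (ha : Function.Injective a) :
    ∃ (c : ι → Fin r → kˣ) (N : Matrix ι ι k),
      Matrix.of (fun l j => chr (a j) (c l)) * N = 1 ∧
      N * Matrix.of (fun l j => chr (a j) (c l)) = 1 := by
  classical
  have hli : LinearIndependent k (fun j : ι => (chr (a j) : (Fin r → kˣ) → k)) := by
    have h1 := linearIndependent_monoidHom (Fin r → kˣ) k
    exact h1.comp (fun j => chr (a j)) (chr_injective.comp ha)
  set V : (Fin r → kˣ) → (ι → k) := fun c j => chr (a j) c with hV
  have hspan : span k (Set.range V) = ⊤ := by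
    by_contra hne
    obtain ⟨φ, hφ0, hφ⟩ := Submodule.exists_le_ker_of_lt_top _ (lt_top_iff_ne_top.2 hne)
    apply hφ0
    have h2 : ∀ x, φ x = ∑ j, x j * φ (Pi.single j 1) := by
      intro x
      conv_lhs => rw [pi_eq_sum_univ' x]
      rw [map_sum]
      refine Finset.sum_congr rfl fun j _ => ?_
      rw [map_smul, smul_eq_mul]
    have h3 : ∑ j, φ (Pi.single j 1) • (chr (a j) : (Fin r → kˣ) → k) = 0 := by
      funext c
      have h4 : V c ∈ LinearMap.ker φ := hφ (subset_span ⟨c, rfl⟩)
      rw [LinearMap.mem_ker, h2] at h4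
      simp only [Finset.sum_apply, Pi.smul_apply, smul_eq_mul, Pi.zero_apply]
      rw [← h4]
      exact Finset.sum_congr rfl fun j _ => by rw [mul_comm]
    have h5 := Fintype.linearIndependent_iff.1 hli _ h3
    ext j
    simpa using h5 j
  have hb := Module.Basis.ofSpan hspan.ge
  let b := Module.Basis.ofSpan hspan.ge
  have hcard : Fintype.card ι = Module.finrank k (ι → k) := by simp
  have : Fintype _ := FiniteDimensional.fintypeBasisIndex b
  have hce : Fintype.card ι = Fintype.card ↑((linearIndepOn_empty k id).extend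
      (Set.empty_subset (Set.range V))) := by
    rw [hcard, Module.finrank_eq_card_basis b]
  let e := Fintype.equivOfCardEq hce
  let b' := b.reindex e.symm
  have hmem : ∀ l, ∃ c, V c = b' l := by
    intro l
    have h1 : b (e l) ∈ Set.range V := Module.Basis.ofSpan_subset hspan.ge ⟨e l, rfl⟩
    obtain ⟨c, hc⟩ := h1
    exact ⟨c, by simp [b', hc]⟩
  choose c hc using hmem
  refine ⟨c, ?_⟩
  have hM : Matrix.of (fun l j => chr (a j) (c l)) = Matrix.of (fun l j => b' l j) := by
    ext l j
    simp only [Matrix.of_apply]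
    rw [← hc l]
  have hdet : IsUnit (Matrix.of (fun l j => chr (a j) (c l)) : Matrix ι ι k) := by
    rw [hM, ← Matrix.linearIndependent_rows_iff_isUnit]
    exact b'.linearIndependent
  obtain ⟨u, hu⟩ := hdet
  refine ⟨((u⁻¹ : (Matrix ι ι k)ˣ) : Matrix ι ι k), ?_, ?_⟩
  · rw [← hu]; exact u.mul_inv
  · rw [← hu]; exact u.inv_mul

section Trunc

variable {k B : Type*} [Field k] [CommRing B] [Algebra k B] {r : ℕ}

/-- The ideal `(n, ξ)` of `B[ξ]`. -/
noncomputable def JI (r : ℕ) (n : Ideal B) : Ideal (MvPolynomial (Fin r) B) :=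
  n.map MvPolynomial.C ⊔ Ideal.span (Set.range MvPolynomial.X)

/-- The polynomials whose coefficient of `ξ^a` lies in `n^(s - |a|)`. -/
def TI (r : ℕ) (n : Ideal B) (s : ℕ) : Ideal (MvPolynomial (Fin r) B) where
  carrier := {f | ∀ a, f.coeff a ∈ n ^ (s - a.sum fun _ e => e)}
  add_mem' := fun {f g} hf hg a => by
    rw [MvPolynomial.coeff_add]
    exact Ideal.add_mem _ (hf a) (hg a)
  zero_mem' := fun a => by
    rw [MvPolynomial.coeff_zero]
    exact Ideal.zero_mem _
  smul_mem' := fun c f hf a => by
    classical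
    rw [smul_eq_mul, MvPolynomial.coeff_mul]
    refine Ideal.sum_mem _ fun x hx => Ideal.mul_mem_left _ _ ?_
    refine Ideal.pow_le_pow_right ?_ (hf x.2)
    have h1 : x.1 + x.2 = a := Finset.HasAntidiagonal.mem_antidiagonal.1 hx
    have h2 : (a.sum fun _ e => e) = (x.1.sum fun _ e => e) + (x.2.sum fun _ e => e) := by
      rw [← h1, Finsupp.sum_add_index' (fun _ => rfl) (fun _ _ _ => rfl)]
    omega

theorem mem_TI {n : Ideal B} {s : ℕ} {f : MvPolynomial (Fin r) B} :
    f ∈ TI r n s ↔ ∀ a, f.coeff a ∈ n ^ (s - a.sum fun _ e => e) := Iff.rfl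

theorem TI_mul_le (n : Ideal B) (s t : ℕ) : TI r n s * TI r n t ≤ TI r n (s + t) := by
  classical
  rw [Ideal.mul_le]
  intro f hf g hg a
  rw [MvPolynomial.coeff_mul]
  refine Ideal.sum_mem _ fun x hx => ?_
  have h1 : x.1 + x.2 = a := Finset.HasAntidiagonal.mem_antidiagonal.1 hx
  have h2 : (a.sum fun _ e => e) = (x.1.sum fun _ e => e) + (x.2.sum fun _ e => e) := by
    rw [← h1, Finsupp.sum_add_index' (fun _ => rfl) (fun _ _ _ => rfl)]
  have h3 := Ideal.mul_mem_mul (hf x.1) (hg x.2)
  rw [← pow_add] at h3
  exact Ideal.pow_le_pow_right (by omega) h3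

theorem JI_le (n : Ideal B) : JI r n ≤ TI r n 1 := by
  classical
  refine sup_le ?_ ?_
  · rw [Ideal.map_le_iff_le_comap]
    intro b hb a
    rw [MvPolynomial.coeff_C]
    split_ifs with h
    · subst h
      simpa using hb
    · exact Ideal.zero_mem _
  · rw [Ideal.span_le]
    rintro _ ⟨i, rfl⟩ a
    rw [MvPolynomial.coeff_X]
    split_ifs with h
    · subst h
      simp
    · exact Ideal.zero_mem _

theorem JI_pow_le (n : Ideal B) (s : ℕ) : JI r n ^ s ≤ TI r n s := by
  induction s with
  | zero =>
    intro f _ a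
    simp
  | succ s ih =>
    rw [pow_succ]
    exact (Ideal.mul_mono ih (JI_le n)).trans (TI_mul_le n s 1)

/-- The truncated ring `B[ξ]/(n, ξ)^s`. -/
abbrev RT (r : ℕ) (n : Ideal B) (s : ℕ) : Type _ := MvPolynomial (Fin r) B ⧸ JI r n ^ s

/-- The finite set of the `a ∈ ℕ^r` with `|a| < s`. -/
def idx (r s : ℕ) : Finset (Fin r → ℕ) :=
  (Finset.range s).biUnion fun j => Finset.piAntidiag (Finset.univ : Finset (Fin r)) j

theorem mem_idx {r s : ℕ} {a : Fin r → ℕ} : a ∈ idx r s ↔ ∑ i, a i < s := by
  simp only [idx, Finset.mem_biUnion, Finset.mem_range, Finset.mem_piAntidiag]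
  constructor
  · rintro ⟨j, hj, h, -⟩
    rw [h]; exact hj
  · intro h
    exact ⟨_, h, rfl, fun _ _ => Finset.mem_univ _⟩

theorem sum_idx (r s : ℕ) (g : ℕ → ℕ) :
    ∑ a ∈ idx r s, g (∑ i, a i) = ∑ j ∈ Finset.range s,
      (Finset.piAntidiag (Finset.univ : Finset (Fin r)) j).card * g j := by
  classical
  rw [idx, Finset.sum_biUnion]
  · refine Finset.sum_congr rfl fun j _ => ?_
    rw [← smul_eq_mul, ← Finset.sum_const]
    refine Finset.sum_congr rfl fun a ha => ?_
    rw [(Finset.mem_piAntidiag.1 ha).1]
  · intro i _ j _ hij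
    rw [Function.onFun, Finset.disjoint_left]
    intro a ha ha'
    exact hij ((Finset.mem_piAntidiag.1 ha).1.symm.trans (Finset.mem_piAntidiag.1 ha').1)

/-- The coefficient map. -/
noncomputable def cof (r : ℕ) (n : Ideal B) (s : ℕ) :
    MvPolynomial (Fin r) B →ₗ[k] ((a : idx r s) → B ⧸ n ^ (s - ∑ i, a.1 i)) where
  toFun f a := Ideal.Quotient.mk _ (f.coeff (Finsupp.equivFunOnFinite.symm a.1))
  map_add' f g := by
    funext a
    simp
  map_smul' c f := by
    funext a
    simp only [RingHom.id_apply, Pi.smul_apply]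
    rw [← Ideal.Quotient.mkₐ_eq_mk k, ← map_smul]
    congr 1

theorem cof_surjective (n : Ideal B) (s : ℕ) : Function.Surjective (cof (k := k) r n s) := by
  classical
  intro g
  choose g' hg' using fun a => Ideal.Quotient.mk_surjective (g a)
  refine ⟨∑ a : idx r s, MvPolynomial.monomial (Finsupp.equivFunOnFinite.symm a.1) (g' a), ?_⟩
  funext a
  show Ideal.Quotient.mk _ (MvPolynomial.coeff _ _) = g a
  rw [MvPolynomial.coeff_sum, Finset.sum_eq_single a]
  · rw [MvPolynomial.coeff_monomial, if_pos rfl, hg']
  · intro b _ hb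
    rw [MvPolynomial.coeff_monomial, if_neg]
    intro h
    exact hb (Subtype.ext (Finsupp.equivFunOnFinite.symm.injective h))
  · intro h; exact absurd (Finset.mem_univ _) h

theorem cof_eq_zero (n : Ideal B) (s : ℕ) (f : MvPolynomial (Fin r) B) (hf : f ∈ JI r n ^ s) :
    cof (k := k) r n s f = 0 := by
  funext a
  show Ideal.Quotient.mk _ (MvPolynomial.coeff _ _) = 0
  rw [Ideal.Quotient.eq_zero_iff_mem]
  have := JI_pow_le n s hf (Finsupp.equivFunOnFinite.symm a.1)
  rw [Finsupp.sum_fintype _ _ (fun _ => rfl)] at this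
  exact this

/-- The dimension of the truncated ring. -/
theorem le_finrank_RT (n : Ideal B) (s : ℕ) [Module.Finite k (RT r n s)] :
    ∑ j ∈ Finset.range s, (Finset.piAntidiag (Finset.univ : Finset (Fin r)) j).card *
      finrank k (B ⧸ n ^ (s - j)) ≤ finrank k (RT r n s) := by
  classical
  let L : RT r n s →ₗ[k] ((a : idx r s) → B ⧸ n ^ (s - ∑ i, a.1 i)) :=
    Submodule.liftQ ((JI r n ^ s).restrictScalars k) (cof (k := k) r n s) (by
      intro f hf
      rw [LinearMap.mem_ker]
      exact cof_eq_zero n s f hf)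
  have hL : Function.Surjective L := by
    intro g
    obtain ⟨f, hf⟩ := cof_surjective (k := k) (r := r) n s g
    exact ⟨Submodule.Quotient.mk f, hf⟩
  have h1 := LinearMap.finrank_le_finrank_of_surjective hL
  have : Module.Finite k ((a : idx r s) → B ⧸ n ^ (s - ∑ i, a.1 i)) :=
    Module.Finite.of_surjective L hL
  have hfin : ∀ a : idx r s, Module.Finite k (B ⧸ n ^ (s - ∑ i, a.1 i)) := fun a =>
    Module.Finite.of_surjective (LinearMap.proj a :
      ((a : idx r s) → B ⧸ n ^ (s - ∑ i, a.1 i)) →ₗ[k] _) (Function.surjective_eval a)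
  rw [Module.finrank_pi_fintype] at h1
  rw [← sum_idx r s (fun j => finrank k (B ⧸ n ^ (s - j)))]
  rw [← Finset.sum_coe_sort (idx r s)]
  exact h1

end Trunc

section Local

variable {k R : Type*} [Field k] [CommRing R] [Algebra k R]

/-- In a local algebra with nilpotent maximal ideal and residue field `k` a subalgebra contains the
inverses of its units. -/
theorem inv_mem_of_local (𝔯 : Ideal R) (s : ℕ) (hnil : 𝔯 ^ s = ⊥)
    (hres : ∀ x : R, ∃ c : k, x - algebraMap k R c ∈ 𝔯) (E : Subalgebra k R) (u : Rˣ)
    (hu : (u : R) ∈ E) : ((u⁻¹ : Rˣ) : R) ∈ E := by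
  obtain ⟨c, hc⟩ := hres u
  set ν : R := u - algebraMap k R c with hν
  have hνE : ν ∈ E := E.sub_mem hu (E.algebraMap_mem c)
  have hνs : ν ^ s = 0 := by
    have := Ideal.pow_mem_pow hc s
    rw [hnil] at this
    exact this
  by_cases h0 : c = 0
  · have h1 : (u : R) ^ s = 0 := by
      have : (u : R) = ν := by rw [hν, h0, map_zero, sub_zero]
      rw [this, hνs]
    have h2 : (1 : R) = 0 := by
      have h3 : ((u ^ s : Rˣ) : R) = 0 := by rw [Units.val_pow_eq_pow_val, h1]
      have h4 := (u ^ s).inv_mul
      rw [h3, mul_zero] at h4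
      exact h4.symm
    have h3 : ((u⁻¹ : Rˣ) : R) = 0 := by
      rw [← mul_one ((u⁻¹ : Rˣ) : R), h2, mul_zero]
    rw [h3]
    exact E.zero_mem
  · let uE : E := ⟨u, hu⟩
    let νE : E := ⟨ν, hνE⟩
    have h1 : uE = algebraMap k E c + νE := by
      apply Subtype.ext
      show (u : R) = algebraMap k R c + ν
      rw [hν]; ring
    have h2 : IsNilpotent νE := ⟨s, Subtype.ext (by
      show ν ^ s = 0
      exact hνs)⟩
    have h3 : IsUnit (algebraMap k E c) := (IsUnit.mk0 c h0).map _
    have h4 : IsUnit uE := by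
      rw [h1]
      exact h2.isUnit_add_left_of_commute h3 (Commute.all _ _)
    obtain ⟨w, hw⟩ := h4
    have h5 : (u : R) * ((w⁻¹ : Eˣ) : E) = 1 := by
      have h6 : (w : E) * ((w⁻¹ : Eˣ) : E) = 1 := w.mul_inv
      rw [hw] at h6
      exact congrArg (fun z : E => (z : R)) h6
    have h7 : ((u⁻¹ : Rˣ) : R) = ((w⁻¹ : Eˣ) : E) := by
      rw [← mul_one ((u⁻¹ : Rˣ) : R), ← h5, ← mul_assoc, Units.inv_mul, one_mul]
    rw [h7]
    exact Subtype.property _

/-- The separation of jets: if `z_i` (combinations of the `X_j`) are sent to `δ_il` modulo `𝔯` by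
`Φ_l`, and each `Φ_l (z_i) / Φ_l (z_l)` generate `R`, the forms of degree `2s-1` are mapped onto
`R^ι`. -/
theorem jets {ι : Type*} [Fintype ι] [DecidableEq ι] (𝔯 : Ideal R) (s : ℕ) (hnil : 𝔯 ^ s = ⊥)
    (Φ : ι → MvPolynomial ι k →ₐ[k] R) (z : ι → MvPolynomial ι k)
    (hz : ∀ i, (z i).IsHomogeneous 1) (hΦ : ∀ l i, i ≠ l → Φ l (z i) ∈ 𝔯)
    (u : ι → Rˣ) (hu : ∀ l, Φ l (z l) = u l)
    (hgen : ∀ l, Algebra.adjoin k (Set.range fun i => Φ l (z i) * ((u l)⁻¹ : Rˣ)) = ⊤) :
    span k (Set.range fun α : {α : ι → ℕ // ∑ j, α j = 2 * s - 1} => fun l =>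
      ∏ j, Φ l (MvPolynomial.X j) ^ α.1 j) = ⊤ := by
  classical
  set U := span k (Set.range fun α : {α : ι → ℕ // ∑ j, α j = 2 * s - 1} => fun l =>
      ∏ j, Φ l (MvPolynomial.X j) ^ α.1 j) with hU
  -- homogeneous polynomials of degree `2s-1` have image in `U`
  have hhom : ∀ G : MvPolynomial ι k, G.IsHomogeneous (2 * s - 1) → (fun l => Φ l G) ∈ U := by
    intro G hG
    have h1 : (fun l => Φ l G) = ∑ d ∈ G.support, G.coeff d • fun l =>
        ∏ j, Φ l (MvPolynomial.X j) ^ d j := by
      funext l
      rw [Finset.sum_apply]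
      conv_lhs => rw [G.as_sum, map_sum]
      refine Finset.sum_congr rfl fun d _ => ?_
      rw [Pi.smul_apply, MvPolynomial.monomial_eq, map_mul, ← MvPolynomial.algebraMap_eq,
        AlgHom.commutes, Algebra.smul_def, Finsupp.prod_fintype _ _ (fun _ => pow_zero _), map_prod]
      simp only [map_pow]
    rw [h1]
    refine sum_mem fun d hd => smul_mem _ _ (subset_span ⟨⟨d, ?_⟩, rfl⟩)
    have h2 := hG (MvPolynomial.mem_support_iff.1 hd)
    rw [Finsupp.weight_apply, Finsupp.sum_fintype _ _ (fun _ => by simp)] at h2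
    simpa using h2
  -- `Pi.single l ρ ∈ U`
  have hsingle : ∀ l : ι, ∀ ρ : R, (Pi.single l ρ : ι → R) ∈ U := by
    intro l ρ
    have h1 : ρ * (((u l) ^ (2 * s - 1))⁻¹ : Rˣ) ∈
        Algebra.adjoin k (Set.range fun i => Φ l (z i) * ((u l)⁻¹ : Rˣ)) := by
      rw [hgen l]; exact Algebra.mem_top
    rw [Algebra.adjoin_range_eq_range_aeval] at h1
    obtain ⟨Q, hQ'⟩ := h1
    have hQ : MvPolynomial.aeval (fun i => Φ l (z i) * (((u l)⁻¹ : Rˣ) : R)) Q =
        ρ * (((u l) ^ (2 * s - 1))⁻¹ : Rˣ) := hQ'
    have h2 : (Pi.single l ρ : ι → R) = ∑ d ∈ Q.support, Q.coeff d • (Pi.single l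
        (((u l) ^ (2 * s - 1) : Rˣ) * ∏ i, (Φ l (z i) * ((u l)⁻¹ : Rˣ)) ^ d i) : ι → R) := by
      have h3 : ρ = ∑ d ∈ Q.support, Q.coeff d •
          ((((u l) ^ (2 * s - 1) : Rˣ) : R) * ∏ i, (Φ l (z i) * ((u l)⁻¹ : Rˣ)) ^ d i) := by
        have h4 : ρ = (((u l) ^ (2 * s - 1) : Rˣ) : R) * (ρ * (((u l) ^ (2 * s - 1))⁻¹ : Rˣ)) := by
          rw [mul_comm ρ, ← mul_assoc, Units.mul_inv, one_mul]
        rw [h4, ← hQ]
        conv_lhs => rw [Q.as_sum, map_sum, Finset.mul_sum]
        refine Finset.sum_congr rfl fun d _ => ?_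
        rw [MvPolynomial.aeval_monomial, Finsupp.prod_fintype _ _ (fun _ => pow_zero _),
          Algebra.smul_def]
        ring
      funext i
      rw [Finset.sum_apply]
      by_cases hi : i = l
      · subst hi
        simp only [Pi.smul_apply, Pi.single_eq_same]
        exact h3
      · simp [Pi.single_eq_of_ne hi]
    rw [h2]
    refine sum_mem fun d _ => smul_mem _ _ ?_
    set m := ∑ i ∈ Finset.univ.erase l, d i with hm
    by_cases hms : s ≤ m
    · -- the product vanishes
      have h3 : ∏ i, (Φ l (z i) * ((u l)⁻¹ : Rˣ)) ^ d i = 0 := by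
        have h4 : ∏ i ∈ Finset.univ.erase l, (Φ l (z i) * ((u l)⁻¹ : Rˣ)) ^ d i ∈ 𝔯 ^ m := by
          rw [hm, ← Finset.prod_pow_eq_pow_sum]
          refine Ideal.prod_mem_prod fun i hi => Ideal.pow_mem_pow ?_ _
          exact Ideal.mul_mem_right _ _ (hΦ l i (Finset.ne_of_mem_erase hi))
        have h5 : ∏ i ∈ Finset.univ.erase l, (Φ l (z i) * ((u l)⁻¹ : Rˣ)) ^ d i = 0 := by
          have := Ideal.pow_le_pow_right hms h4
          rw [hnil] at this
          exact this
        rw [← Finset.mul_prod_erase Finset.univ _ (Finset.mem_univ l), h5, mul_zero]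
      rw [h3, mul_zero, Pi.single_zero]
      exact zero_mem _
    · push Not at hms
      -- the form
      set G : MvPolynomial ι k := z l ^ (2 * s - 1 - m) * ∏ i ∈ Finset.univ.erase l, z i ^ d i
        with hG
      have hGhom : G.IsHomogeneous (2 * s - 1) := by
        have h3 : (z l ^ (2 * s - 1 - m)).IsHomogeneous (1 * (2 * s - 1 - m)) := (hz l).pow _
        have h4 : (∏ i ∈ Finset.univ.erase l, z i ^ d i).IsHomogeneous
            (∑ i ∈ Finset.univ.erase l, 1 * d i) :=
          MvPolynomial.IsHomogeneous.prod _ _ _ fun i _ => (hz i).pow _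
        have h5 := h3.mul h4
        have h6 : 1 * (2 * s - 1 - m) + ∑ i ∈ Finset.univ.erase l, 1 * d i = 2 * s - 1 := by
          simp only [one_mul]
          rw [← hm]; omega
        rw [h6] at h5
        exact h5
      have h3 : (Pi.single l (((u l) ^ (2 * s - 1) : Rˣ) *
          ∏ i, (Φ l (z i) * ((u l)⁻¹ : Rˣ)) ^ d i) : ι → R) = fun i => Φ i G := by
        funext i
        by_cases hi : i = l
        · subst hi
          rw [Pi.single_eq_same, hG, map_mul, map_pow, map_prod, hu i,
            ← Finset.mul_prod_erase Finset.univ _ (Finset.mem_univ i), hu i, Units.mul_inv, one_pow,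
            one_mul]
          have h5 : ∏ i' ∈ Finset.univ.erase i, (Φ i (z i') * (((u i)⁻¹ : Rˣ) : R)) ^ d i' =
              (∏ i' ∈ Finset.univ.erase i, Φ i (z i' ^ d i')) * ((((u i)⁻¹) ^ m : Rˣ) : R) := by
            rw [Units.val_pow_eq_pow_val, hm, ← Finset.prod_pow_eq_pow_sum, ← Finset.prod_mul_distrib]
            refine Finset.prod_congr rfl fun i' _ => ?_
            rw [mul_pow, map_pow]
          rw [h5]
          have h6 : (((u i) ^ (2 * s - 1) : Rˣ) : R) * ((((u i)⁻¹) ^ m : Rˣ) : R) =
              (u i : R) ^ (2 * s - 1 - m) := by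
            rw [← Units.val_mul, ← Units.val_pow_eq_pow_val]
            rw [pow_sub (u i) (show m ≤ 2 * s - 1 by omega), inv_pow]
          rw [mul_left_comm, h6]
          ring
        · rw [Pi.single_eq_of_ne hi]
          symm
          have h5 : Φ i G ∈ 𝔯 ^ (2 * s - 1 - d i) := by
            rw [hG, map_mul, map_pow, map_prod]
            have h6 : ∏ i' ∈ Finset.univ.erase l, Φ i (z i' ^ d i') ∈ 𝔯 ^ (m - d i) := by
              have hil : i ∈ Finset.univ.erase l := Finset.mem_erase.2 ⟨hi, Finset.mem_univ _⟩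
              rw [← Finset.mul_prod_erase _ _ hil]
              refine Ideal.mul_mem_left _ _ ?_
              have h7 : m - d i = ∑ i' ∈ (Finset.univ.erase l).erase i, d i' := by
                rw [hm, ← Finset.add_sum_erase _ _ hil]; omega
              rw [h7, ← Finset.prod_pow_eq_pow_sum]
              refine Ideal.prod_mem_prod fun i' hi' => ?_
              rw [map_pow]
              exact Ideal.pow_mem_pow (hΦ i i' (Finset.ne_of_mem_erase hi')) _
            have h8 := Ideal.mul_mem_mul (Ideal.pow_mem_pow (hΦ i l (Ne.symm hi)) (2 * s - 1 - m)) h6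
            rw [← pow_add] at h8
            have hle : d i ≤ m := by
              rw [hm]
              exact Finset.single_le_sum (f := fun i => d i) (fun _ _ => Nat.zero_le _)
                (Finset.mem_erase.2 ⟨hi, Finset.mem_univ _⟩)
            exact Ideal.pow_le_pow_right (by omega) h8
          have hle : d i ≤ m := by
            rw [hm]
            exact Finset.single_le_sum (f := fun i => d i) (fun _ _ => Nat.zero_le _)
              (Finset.mem_erase.2 ⟨hi, Finset.mem_univ _⟩)
          have h9 := Ideal.pow_le_pow_right (show s ≤ 2 * s - 1 - d i by omega) h5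
          rw [hnil] at h9
          exact h9
      rw [h3]
      exact hhom G hGhom
  rw [eq_top_iff]
  intro f _
  rw [← Finset.univ_sum_single f]
  exact sum_mem fun l _ => hsingle l (f l)

end Local

theorem prod_zpow_eq {G κ : Type*} [CommGroup G] (S : Finset κ) (u : G) (e : κ → ℤ) :
    ∏ j ∈ S, u ^ e j = u ^ ∑ j ∈ S, e j := by
  classical
  induction S using Finset.induction_on with
  | empty => simp
  | insert a S ha ih => rw [Finset.prod_insert ha, Finset.sum_insert ha, zpow_add, ih]


end Pool.Agent.TA
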