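import Pool.Agent.Lib.TA.Cone
import Pool.Agent.Lib.TA.KeyLem

/-!
# Toric Albanese: the key inequality (TA1)

`|ι| * q(s) ≤ dim P^(2s-1)`: degenerate the powers of `P` along the values; the torus moves the
centre to `|ι|` independent points with the same local ring, and the forms of degree `2s-1`
separate their jets of order `s`.
-/

set_option autoImplicit false

namespace Pool.Agent.TA

open Pool.Agent.H15JM (RVal)
open Pool.Agent.LU1 (VPos)
open Pool.Agent.LU3 (Ctx0)
open Submodule Module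

/-! ## The data -/

theorem Ps_prod_gen {G : Type*} [CommGroup G] {ι : Type*} [Fintype ι] {r : ℕ} (β : ι → G)
    (u : Fin r → G) (a : ι → Fin r → ℤ) (α : ι → ℤ) :
    ∏ j, (β j * ∏ i, u i ^ a j i) ^ α j =
      (∏ j, β j ^ α j) * ∏ i, u i ^ (∑ j, α j • a j) i := by
  have h1 : ∀ j, (β j * ∏ i, u i ^ a j i) ^ α j = β j ^ α j * ∏ i, u i ^ (α j • a j) i := by
    intro j
    rw [mul_zpow, ← Finset.prod_zpow]
    congr 1
    refine Finset.prod_congr rfl fun i _ => ?_
    rw [← zpow_mul, Pi.smul_apply, smul_eq_mul, mul_comm]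
  rw [Finset.prod_congr rfl fun j _ => h1 j, Finset.prod_mul_distrib, Finset.prod_comm]
  congr 1
  refine Finset.prod_congr rfl fun i _ => ?_
  rw [Finset.sum_apply]
  exact prod_zpow_eq _ _ _

section Data

universe u

variable {k Ω : Type u} [Field k] [Field Ω] [Algebra k Ω] {v : RVal Ω} {n r : ℕ}
  {ι : Type} [Fintype ι]

theorem mx_nsmul {x : Fin r → Ω} (m : ℕ) (l : Fin r → ℤ) :
    mx x (m • l) = mx x l ^ m := by
  unfold mx
  rw [← Finset.prod_pow]
  refine Finset.prod_congr rfl fun i _ => ?_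
  rw [Pi.smul_apply, nsmul_eq_mul, mul_comm, zpow_mul, zpow_natCast]

theorem mx_sum {x : Fin r → Ω} (hx : ∀ i, x i ≠ 0) {κ : Type*} (S : Finset κ)
    (l : κ → Fin r → ℤ) : mx x (∑ j ∈ S, l j) = ∏ j ∈ S, mx x (l j) := by
  classical
  induction S using Finset.induction_on with
  | empty => simp [mx_zero]
  | insert a S ha ih => rw [Finset.sum_insert ha, Finset.prod_insert ha, mx_add hx, ih]

theorem mx_inj (T : TD k v r ι) {l m : Fin r → ℤ} (h : v (mx T.x l) = v (mx T.x m)) :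
    l = m := by
  rw [v_mx T.x_ne, v_mx T.x_ne] at h
  have h1 : ∑ i, ((l i - m i : ℤ) : ℚ) • v (T.x i) = 0 := by
    have : ∑ i, ((l i - m i : ℤ) : ℚ) • v (T.x i) =
        ∑ i, (l i : ℝ) * v (T.x i) - ∑ i, (m i : ℝ) * v (T.x i) := by
      rw [← Finset.sum_sub_distrib]
      refine Finset.sum_congr rfl fun i _ => ?_
      rw [Rat.smul_def]; push_cast; ring
    rw [this, h, sub_self]
  have h2 := Fintype.linearIndependent_iff.1 T.x_ind _ h1
  funext i
  have := h2 i
  have h3 : (l i - m i : ℤ) = 0 := by exact_mod_cast this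
  omega

/-- The unit `b_j` of `k[b, b⁻¹]`. -/
noncomputable def bu (T : TD k v r ι) (j : ι) : (Ab k T.b)ˣ where
  val := ⟨T.b j, b_mem T.b j⟩
  inv := ⟨(T.b j)⁻¹, binv_mem T.b j⟩
  val_inv := Subtype.ext (mul_inv_cancel₀ (T.b_ne j))
  inv_val := Subtype.ext (inv_mul_cancel₀ (T.b_ne j))

theorem bu_val (T : TD k v r ι) (j : ι) : (((bu T j : (Ab k T.b)ˣ) : Ab k T.b) : Ω) = T.b j := rfl

theorem bu_zpow_val (T : TD k v r ι) (j : ι) (m : ℤ) :
    ((((bu T j) ^ m : (Ab k T.b)ˣ) : Ab k T.b) : Ω) = T.b j ^ m := by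
  have h0 : Units.map (Ab k T.b).val.toRingHom.toMonoidHom (bu T j) =
      Units.mk0 (T.b j) (T.b_ne j) := Units.ext rfl
  have h1 : Units.map (Ab k T.b).val.toRingHom.toMonoidHom ((bu T j) ^ m) =
      (Units.mk0 (T.b j) (T.b_ne j)) ^ m := by
    rw [map_zpow, h0]
  have h2 := congrArg (fun u : Ωˣ => (u : Ω)) h1
  rw [Units.val_zpow_eq_zpow_val] at h2
  exact h2

theorem bu_prod (T : TD k v r ι) (α : ι → ℤ) (hα : ∏ j, T.b j ^ α j = 1) :
    ∏ j, (bu T j) ^ α j = 1 := by
  apply Units.ext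
  apply Subtype.ext
  rw [Units.coe_prod]
  have h1 : (((∏ j, (((bu T j) ^ α j : (Ab k T.b)ˣ) : Ab k T.b)) : Ab k T.b) : Ω) =
      ∏ j, T.b j ^ α j := by
    rw [← Subalgebra.coe_val, map_prod]
    exact Finset.prod_congr rfl fun j _ => bu_zpow_val T j _
  rw [h1, hα]
  rfl

/-- `k[b, b⁻¹] = k + (b - 1)`. -/
theorem Ab_res (T : TD k v r ι) (g : Ab k T.b) :
    ∃ c : k, g - algebraMap k (Ab k T.b) c ∈ nId k T.b := by
  obtain ⟨g, hg⟩ := g
  unfold Ab at hg
  induction hg using Algebra.adjoin_induction with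
  | mem x hx =>
    rcases hx with ⟨j, rfl⟩ | ⟨j, rfl⟩
    · refine ⟨1, ?_⟩
      have : (⟨T.b j, b_mem T.b j⟩ : Ab k T.b) - algebraMap k (Ab k T.b) 1 = bm T.b j := by
        apply Subtype.ext
        simp [bm]
      exact this ▸ Ideal.subset_span ⟨j, rfl⟩
    · refine ⟨1, ?_⟩
      have : (⟨(T.b j)⁻¹, binv_mem T.b j⟩ : Ab k T.b) - algebraMap k (Ab k T.b) 1 =
          -(⟨(T.b j)⁻¹, binv_mem T.b j⟩ : Ab k T.b) * bm T.b j := by
        apply Subtype.ext
        have := T.b_ne j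
        simp only [bm, map_one, AddSubgroupClass.coe_sub, OneMemClass.coe_one, MulMemClass.coe_mul,
          NegMemClass.coe_neg]
        field_simp
        ring
      exact this ▸ Ideal.mul_mem_left _ _ (Ideal.subset_span ⟨j, rfl⟩)
  | algebraMap c => exact ⟨c, by
      have : (⟨algebraMap k Ω c, _⟩ : Ab k T.b) - algebraMap k (Ab k T.b) c = 0 :=
        Subtype.ext (sub_self _)
      rw [this]; exact Ideal.zero_mem _⟩
  | add x y hx hy hx' hy' =>
    obtain ⟨c, hc⟩ := hx'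
    obtain ⟨d, hd⟩ := hy'
    refine ⟨c + d, ?_⟩
    have : (⟨x + y, add_mem hx hy⟩ : Ab k T.b) - algebraMap k (Ab k T.b) (c + d) =
        ((⟨x, hx⟩ : Ab k T.b) - algebraMap k (Ab k T.b) c) +
        ((⟨y, hy⟩ : Ab k T.b) - algebraMap k (Ab k T.b) d) := by
      have e : (⟨x + y, add_mem hx hy⟩ : Ab k T.b) = ⟨x, hx⟩ + ⟨y, hy⟩ := rfl
      rw [e, map_add]; ring
    rw [this]
    exact Ideal.add_mem _ hc hd
  | mul x y hx hy hx' hy' =>
    obtain ⟨c, hc⟩ := hx'
    obtain ⟨d, hd⟩ := hy'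
    refine ⟨c * d, ?_⟩
    have : (⟨x * y, mul_mem hx hy⟩ : Ab k T.b) - algebraMap k (Ab k T.b) (c * d) =
        (⟨y, hy⟩ : Ab k T.b) * ((⟨x, hx⟩ : Ab k T.b) - algebraMap k (Ab k T.b) c) +
        algebraMap k (Ab k T.b) c * ((⟨y, hy⟩ : Ab k T.b) - algebraMap k (Ab k T.b) d) := by
      have e : (⟨x * y, mul_mem hx hy⟩ : Ab k T.b) = ⟨x, hx⟩ * ⟨y, hy⟩ := rfl
      rw [e, map_mul]; ring
    rw [this]
    exact Ideal.add_mem _ (Ideal.mul_mem_left _ _ hc) (Ideal.mul_mem_left _ _ hd)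

/-- The ring `B`. -/
abbrev BB (T : TD k v r ι) : Type _ := Ab k T.b ⧸ aId v T.x T.b

/-- The ideal `n` of `B`. -/
noncomputable abbrev nB (T : TD k v r ι) : Ideal (BB T) :=
  (nId k T.b).map (Ideal.Quotient.mk (aId v T.x T.b))

theorem beta_eq (T : TD k v r ι) (s : ℕ) :
    beta k v T.x T.b s = finrank k (BB T ⧸ nB T ^ s) := by
  unfold beta nB
  rw [← Ideal.map_pow]
  exact ((DoubleQuot.quotQuotEquivQuotSupₐ k (aId v T.x T.b) (nId k T.b ^ s)).symm.toLinearEquiv).finrank_eq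

/-- The truncated ring. -/
abbrev RR (T : TD k v r ι) (s : ℕ) : Type _ := RT r (nB T) s

/-- The nilpotent ideal. -/
noncomputable def rr (T : TD k v r ι) (s : ℕ) : Ideal (RR T s) :=
  (JI r (nB T)).map (Ideal.Quotient.mk (JI r (nB T) ^ s))

theorem rr_nil (T : TD k v r ι) (s : ℕ) : rr T s ^ s = ⊥ := by
  unfold rr
  rw [← Ideal.map_pow, Ideal.map_quotient_self]

/-- The map `k[b, b⁻¹] → R`. -/
noncomputable def ph (T : TD k v r ι) (s : ℕ) : Ab k T.b →ₐ[k] RR T s :=
  (Ideal.Quotient.mkₐ k (JI r (nB T) ^ s)).comp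
    ((IsScalarTower.toAlgHom k (BB T) (MvPolynomial (Fin r) (BB T))).comp
      (Ideal.Quotient.mkₐ k (aId v T.x T.b)))

theorem ph_apply (T : TD k v r ι) (s : ℕ) (g : Ab k T.b) :
    ph T s g = Ideal.Quotient.mk (JI r (nB T) ^ s)
      (MvPolynomial.C (Ideal.Quotient.mk (aId v T.x T.b) g)) := rfl

theorem ph_zero (T : TD k v r ι) (s : ℕ) (g : Ab k T.b) (hg : g ∈ aId v T.x T.b) :
    ph T s g = 0 := by
  rw [ph_apply, Ideal.Quotient.eq_zero_iff_mem.2 hg, map_zero, map_zero]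

theorem ph_mem (T : TD k v r ι) (s : ℕ) (g : Ab k T.b) (hg : g ∈ nId k T.b) :
    ph T s g ∈ rr T s := by
  rw [ph_apply]
  exact Ideal.mem_map_of_mem _ (Ideal.mem_sup_left (Ideal.mem_map_of_mem _
    (Ideal.mem_map_of_mem _ hg)))

theorem X_mem (T : TD k v r ι) (s : ℕ) (i : Fin r) :
    Ideal.Quotient.mk (JI r (nB T) ^ s) (MvPolynomial.X i) ∈ rr T s :=
  Ideal.mem_map_of_mem _ (Ideal.mem_sup_right (Ideal.subset_span ⟨i, rfl⟩))

theorem rr_res (T : TD k v r ι) (s : ℕ) (x : RR T s) :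
    ∃ c : k, x - algebraMap k (RR T s) c ∈ rr T s := by
  obtain ⟨f, rfl⟩ := Ideal.Quotient.mk_surjective x
  induction f using MvPolynomial.induction_on with
  | C b =>
    obtain ⟨g, rfl⟩ := Ideal.Quotient.mk_surjective b
    obtain ⟨c, hc⟩ := Ab_res T g
    refine ⟨c, ?_⟩
    have := ph_mem T s _ hc
    rw [map_sub, AlgHom.commutes] at this
    exact this
  | add p q hp hq =>
    obtain ⟨c, hc⟩ := hp
    obtain ⟨d, hd⟩ := hq
    refine ⟨c + d, ?_⟩
    rw [map_add, map_add, add_sub_add_comm]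
    exact Ideal.add_mem _ hc hd
  | mul_X p i _ =>
    refine ⟨0, ?_⟩
    rw [map_zero, sub_zero, map_mul]
    exact Ideal.mul_mem_left _ _ (X_mem T s i)

theorem isUnit_of_sub_mem (T : TD k v r ι) (s : ℕ) (c : k) (hc : c ≠ 0) (x : RR T s)
    (hx : x - algebraMap k (RR T s) c ∈ rr T s) : IsUnit x := by
  have h1 : IsNilpotent (x - algebraMap k (RR T s) c) := ⟨s, by
    have := Ideal.pow_mem_pow hx s
    rw [rr_nil] at this
    exact this⟩
  have h2 : x = algebraMap k (RR T s) c + (x - algebraMap k (RR T s) c) := by ring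
  rw [h2]
  exact h1.isUnit_add_left_of_commute ((IsUnit.mk0 c hc).map _) (Commute.all _ _)

/-- The unit `c_i + ξ_i`. -/
noncomputable def uu (T : TD k v r ι) (s : ℕ) (c : Fin r → kˣ) (i : Fin r) : (RR T s)ˣ :=
  (isUnit_of_sub_mem T s (c i) (c i).ne_zero (algebraMap k (RR T s) (c i) +
    Ideal.Quotient.mk (JI r (nB T) ^ s) (MvPolynomial.X i)) (by
      rw [add_sub_cancel_left]; exact X_mem T s i)).unit

theorem uu_val (T : TD k v r ι) (s : ℕ) (c : Fin r → kˣ) (i : Fin r) :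
    ((uu T s c i : (RR T s)ˣ) : RR T s) = algebraMap k (RR T s) (c i) +
      Ideal.Quotient.mk (JI r (nB T) ^ s) (MvPolynomial.X i) := rfl

/-- The image of `f_j`. -/
noncomputable def Ps (T : TD k v r ι) (s : ℕ) (c : Fin r → kˣ) (j : ι) : (RR T s)ˣ :=
  Units.map (ph T s : Ab k T.b →* RR T s) (bu T j) * ∏ i, (uu T s c i) ^ T.a j i

theorem Ps_o (T : TD k v r ι) (s : ℕ) (c : Fin r → kˣ) : Ps T s c T.o = 1 := by
  unfold Ps
  have h1 : bu T T.o = 1 := Units.ext (Subtype.ext T.b_o)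
  rw [h1, T.a_o]
  simp

theorem Ps_prod (T : TD k v r ι) (s : ℕ) (c : Fin r → kˣ) (α : ι → ℤ) :
    ∏ j, Ps T s c j ^ α j = Units.map (ph T s : Ab k T.b →* RR T s) (∏ j, (bu T j) ^ α j) *
      ∏ i, (uu T s c i) ^ (∑ j, α j • T.a j) i := by
  rw [map_prod]
  have h1 := Ps_prod_gen (fun j => Units.map (ph T s : Ab k T.b →* RR T s) (bu T j))
    (fun i => uu T s c i) T.a α
  refine h1.trans ?_
  congr 1
  exact Finset.prod_congr rfl fun j _ => (map_zpow _ _ _).symm

theorem zpow_mem_of_local (T : TD k v r ι) (s : ℕ) (E : Subalgebra k (RR T s)) (w : (RR T s)ˣ)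
    (hw : (w : RR T s) ∈ E) (m : ℤ) : ((w ^ m : (RR T s)ˣ) : RR T s) ∈ E := by
  cases m with
  | ofNat m =>
    rw [Int.ofNat_eq_natCast, zpow_natCast, Units.val_pow_eq_pow_val]
    exact E.pow_mem hw m
  | negSucc m =>
    rw [zpow_negSucc]
    refine inv_mem_of_local (rr T s) s (rr_nil T s) (rr_res T s) E _ ?_
    rw [Units.val_pow_eq_pow_val]
    exact E.pow_mem hw _

theorem prod_mem_of_local (T : TD k v r ι) (s : ℕ) (E : Subalgebra k (RR T s)) {κ : Type*}
    (S : Finset κ) (w : κ → (RR T s)ˣ)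
    (hw : ∀ i ∈ S, (w i : RR T s) ∈ E) : ((∏ i ∈ S, w i : (RR T s)ˣ) : RR T s) ∈ E := by
  rw [Units.coe_prod]
  exact E.prod_mem hw

theorem units_res {R Q : Type*} [CommRing R] [CommRing Q] (π : R →+* Q) {r : ℕ} (w : Rˣ)
    (hw : π (w : R) = 1) (u : Fin r → Rˣ) (f : k →+* Q) (c : Fin r → kˣ)
    (hu : ∀ i, π (u i : R) = f (c i : k)) (a : Fin r → ℤ) :
    π ((w * ∏ i, u i ^ a i : Rˣ) : R) = f ((∏ i, c i ^ a i : kˣ) : k) := by
  have h1 : Units.map (π : R →* Q) w = 1 := Units.ext hw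
  have h2 : ∀ i, Units.map (π : R →* Q) (u i) = Units.map (f : k →* Q) (c i) :=
    fun i => Units.ext (hu i)
  have h3 : Units.map (π : R →* Q) (w * ∏ i, u i ^ a i) =
      Units.map (f : k →* Q) (∏ i, c i ^ a i) := by
    rw [map_mul, h1, one_mul, map_prod, map_prod]
    refine Finset.prod_congr rfl fun i _ => ?_
    rw [map_zpow, map_zpow, h2]
  exact congrArg (fun w : Qˣ => (w : Q)) h3

/-- The residue of the image of `f_j`. -/
theorem Ps_res (T : TD k v r ι) (s : ℕ) (c : Fin r → kˣ) (j : ι) :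
    ((Ps T s c j : (RR T s)ˣ) : RR T s) - algebraMap k (RR T s) (chr (T.a j) c) ∈ rr T s := by
  rw [← Ideal.Quotient.eq_zero_iff_mem, map_sub, sub_eq_zero]
  have h1 : Ideal.Quotient.mk (rr T s)
      ((Units.map (ph T s : Ab k T.b →* RR T s) (bu T j) : (RR T s)ˣ) : RR T s) = 1 := by
    show Ideal.Quotient.mk (rr T s) (ph T s ((bu T j : (Ab k T.b)ˣ) : Ab k T.b)) = 1
    have h2 : ((bu T j : (Ab k T.b)ˣ) : Ab k T.b) = bm T.b j + 1 := by
      apply Subtype.ext
      show T.b j = (T.b j - 1) + 1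
      ring
    rw [h2, map_add, map_add, map_one, map_one]
    have h3 : Ideal.Quotient.mk (rr T s) (ph T s (bm T.b j)) = 0 :=
      Ideal.Quotient.eq_zero_iff_mem.2 (ph_mem T s _ (Ideal.subset_span ⟨j, rfl⟩))
    rw [h3, zero_add]
  have h2 : ∀ i, Ideal.Quotient.mk (rr T s) ((uu T s c i : (RR T s)ˣ) : RR T s) =
      ((Ideal.Quotient.mk (rr T s)).comp (algebraMap k (RR T s))) (c i : k) := by
    intro i
    rw [uu_val, RingHom.map_add]
    have h3 : Ideal.Quotient.mk (rr T s)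
        (Ideal.Quotient.mk (JI r (nB T) ^ s) (MvPolynomial.X i)) = 0 :=
      Ideal.Quotient.eq_zero_iff_mem.2 (X_mem T s i)
    rw [h3, add_zero]
    rfl
  exact units_res (k := k) (R := RR T s) (Q := RR T s ⧸ rr T s) (Ideal.Quotient.mk (rr T s))
    (Units.map (ph T s : Ab k T.b →* RR T s) (bu T j)) h1 (fun i => uu T s c i)
    ((Ideal.Quotient.mk (rr T s)).comp (algebraMap k (RR T s))) c h2 (T.a j)

theorem gen_local (T : TD k v r ι) (s : ℕ) (c : Fin r → kˣ) (E : Subalgebra k (RR T s))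
    (u : (RR T s)ˣ) (hE : ∀ j, ((Ps T s c j : (RR T s)ˣ) : RR T s) * ((u⁻¹ : (RR T s)ˣ) : RR T s) ∈ E) :
    E = ⊤ := by
  have hloc := inv_mem_of_local (rr T s) s (rr_nil T s) (rr_res T s) E
  have h1 : ((u⁻¹ : (RR T s)ˣ) : RR T s) ∈ E := by
    have := hE T.o
    rwa [Ps_o, Units.val_one, one_mul] at this
  have h2 : (u : RR T s) ∈ E := by
    have := hloc _ h1
    rwa [inv_inv] at this
  have h3 : ∀ j, ((Ps T s c j : (RR T s)ˣ) : RR T s) ∈ E := by
    intro j
    have := E.mul_mem (hE j) h2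
    rwa [mul_assoc, Units.inv_mul, mul_one] at this
  have h4 : ∀ i, ((uu T s c i : (RR T s)ˣ) : RR T s) ∈ E := by
    intro i
    obtain ⟨α, hα1, hα2⟩ := T.lat i
    have h5 := Ps_prod T s c α
    rw [bu_prod T α hα2, hα1, map_one, one_mul] at h5
    have h6 : ∏ i', (uu T s c i') ^ (Pi.single i (1 : ℤ) : Fin r → ℤ) i' = uu T s c i := by
      rw [Finset.prod_eq_single i]
      · simp
      · intro j _ hj
        rw [Pi.single_eq_of_ne hj, zpow_zero]
      · intro h; exact absurd (Finset.mem_univ _) h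
    rw [h6] at h5
    rw [← h5]
    exact prod_mem_of_local T s E _ _ fun j _ => zpow_mem_of_local T s E _ (h3 j) _
  have h5 : ∀ i, Ideal.Quotient.mk (JI r (nB T) ^ s) (MvPolynomial.X i) ∈ E := by
    intro i
    have := E.sub_mem (h4 i) (E.algebraMap_mem (c i : k))
    rw [uu_val, add_sub_cancel_left] at this
    exact this
  have h6 : ∀ j, ((Units.map (ph T s : Ab k T.b →* RR T s) (bu T j) : (RR T s)ˣ) : RR T s) ∈ E := by
    intro j
    have h7 : Units.map (ph T s : Ab k T.b →* RR T s) (bu T j) =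
        Ps T s c j * (∏ i, (uu T s c i) ^ T.a j i)⁻¹ := by
      unfold Ps
      rw [mul_inv_cancel_right]
    rw [h7, Units.val_mul]
    refine E.mul_mem (h3 j) (hloc _ ?_)
    exact prod_mem_of_local T s E _ _ fun i _ => zpow_mem_of_local T s E _ (h4 i) _
  have h7 : ∀ g : Ab k T.b, ph T s g ∈ E := by
    rintro ⟨g, hg⟩
    unfold Ab at hg
    induction hg using Algebra.adjoin_induction with
    | mem x hx =>
      rcases hx with ⟨j, rfl⟩ | ⟨j, rfl⟩
      · exact h6 j
      · exact hloc _ (h6 j)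
    | algebraMap c =>
      have : ph T s (algebraMap k (Ab k T.b) c) ∈ E := by
        rw [AlgHom.commutes]; exact E.algebraMap_mem c
      exact this
    | add x y hx hy hx' hy' =>
      have := E.add_mem hx' hy'
      rw [← map_add] at this
      exact this
    | mul x y hx hy hx' hy' =>
      have := E.mul_mem hx' hy'
      rw [← map_mul] at this
      exact this
  rw [eq_top_iff]
  rintro x -
  obtain ⟨f, rfl⟩ := Ideal.Quotient.mk_surjective x
  induction f using MvPolynomial.induction_on with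
  | C b =>
    obtain ⟨g, rfl⟩ := Ideal.Quotient.mk_surjective b
    exact h7 g
  | add p q hp hq => rw [map_add]; exact E.add_mem hp hq
  | mul_X p i hp => rw [map_mul]; exact E.mul_mem hp (h5 i)

/-- The value of `f^α`. -/
theorem prod_f (T : TD k v r ι) (α : ι → ℕ) :
    ∏ j, (T.b j * mx T.x (T.a j)) ^ α j =
      (∏ j, T.b j ^ α j) * mx T.x (∑ j, α j • T.a j) := by
  rw [mx_sum T.x_ne, ← Finset.prod_mul_distrib]
  refine Finset.prod_congr rfl fun j _ => ?_
  rw [mul_pow, mx_nsmul]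

theorem prod_b_mem (T : TD k v r ι) (α : ι → ℕ) : ∏ j, T.b j ^ α j ∈ Ab k T.b :=
  (Ab k T.b).prod_mem fun j _ => (Ab k T.b).pow_mem (b_mem T.b j) _

theorem Ps_prod_nat (T : TD k v r ι) (s : ℕ) (c : Fin r → kˣ) (α : ι → ℕ) :
    ∏ j, ((Ps T s c j : (RR T s)ˣ) : RR T s) ^ α j = ph T s ⟨∏ j, T.b j ^ α j, prod_b_mem T α⟩ *
      ((∏ i, (uu T s c i) ^ (∑ j, α j • T.a j) i : (RR T s)ˣ) : RR T s) := by
  have h1 := Ps_prod T s c (fun j => (α j : ℤ))
  have h2 := congrArg (fun w : (RR T s)ˣ => (w : RR T s)) h1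
  rw [Units.val_mul, Units.coe_prod, Units.coe_map] at h2
  have h3 : ∀ j, (((Ps T s c j) ^ ((α j : ℕ) : ℤ) : (RR T s)ˣ) : RR T s) =
      ((Ps T s c j : (RR T s)ˣ) : RR T s) ^ α j := by
    intro j
    rw [zpow_natCast, Units.val_pow_eq_pow_val]
  rw [Finset.prod_congr rfl fun j _ => h3 j] at h2
  rw [h2]
  have h4 : (∑ j, ((α j : ℕ) : ℤ) • T.a j) = ∑ j, α j • T.a j :=
    Finset.sum_congr rfl fun j _ => natCast_zsmul _ _
  rw [h4]
  congr 1
  show ph T s (((∏ j, (bu T j) ^ ((α j : ℕ) : ℤ) : (Ab k T.b)ˣ) : Ab k T.b)) = _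
  congr 1
  apply Subtype.ext
  rw [Units.coe_prod]
  show (Ab k T.b).val _ = _
  rw [map_prod]
  refine Finset.prod_congr rfl fun j _ => ?_
  show ((((bu T j) ^ ((α j : ℕ) : ℤ) : (Ab k T.b)ˣ) : Ab k T.b) : Ω) = _
  rw [bu_zpow_val, zpow_natCast]

/-- TA1: the key inequality. -/
theorem key [Infinite k] (_h : Ctx0 k v n) (T : TD k v r ι) (s : ℕ) :
    Fintype.card ι * qs r (beta k v T.x T.b) s ≤
      finrank k ↥((span k (Set.range fun j => T.b j * mx T.x (T.a j))) ^ (2 * s - 1)) := by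
  classical
  obtain ⟨c, N, hMN, hNM⟩ := exists_points (k := k) T.a T.a_inj
  let Φ : ι → MvPolynomial ι k →ₐ[k] RR T s := fun l =>
    MvPolynomial.aeval fun j => ((Ps T s (c l) j : (RR T s)ˣ) : RR T s)
  let z : ι → MvPolynomial ι k := fun i => ∑ j, MvPolynomial.C (N j i) * MvPolynomial.X j
  have hΦX : ∀ l j, Φ l (MvPolynomial.X j) = ((Ps T s (c l) j : (RR T s)ˣ) : RR T s) :=
    fun l j => MvPolynomial.aeval_X _ _
  have hz : ∀ i, (z i).IsHomogeneous 1 := fun i =>
    MvPolynomial.IsHomogeneous.sum _ _ _ fun j _ => MvPolynomial.isHomogeneous_C_mul_X _ _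
  have hΦz : ∀ l i, Φ l (z i) - algebraMap k (RR T s) (if l = i then 1 else 0) ∈ rr T s := by
    intro l i
    have h1 : (if l = i then (1 : k) else 0) = ∑ j, chr (T.a j) (c l) * N j i := by
      have := congrFun (congrFun hMN l) i
      rw [Matrix.mul_apply, Matrix.one_apply] at this
      rw [← this]
      rfl
    have h2 : Φ l (z i) - algebraMap k (RR T s) (if l = i then 1 else 0) =
        ∑ j, algebraMap k (RR T s) (N j i) * (((Ps T s (c l) j : (RR T s)ˣ) : RR T s) -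
          algebraMap k (RR T s) (chr (T.a j) (c l))) := by
      rw [h1, map_sum (algebraMap k (RR T s)), map_sum, ← Finset.sum_sub_distrib]
      refine Finset.sum_congr rfl fun j _ => ?_
      rw [map_mul, hΦX, map_mul, ← MvPolynomial.algebraMap_eq, AlgHom.commutes]
      ring
    rw [h2]
    exact Ideal.sum_mem _ fun j _ => Ideal.mul_mem_left _ _ (Ps_res T s (c l) j)
  have hun : ∀ l, IsUnit (Φ l (z l)) := by
    intro l
    have := hΦz l l
    rw [if_pos rfl] at this
    exact isUnit_of_sub_mem T s 1 one_ne_zero _ this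
  choose u hu using hun
  have hX : ∀ j, (MvPolynomial.X j : MvPolynomial ι k) =
      ∑ l, MvPolynomial.C (chr (T.a j) (c l)) * z l := by
    intro j
    have h1 : ∀ i, ∑ l, N i l * chr (T.a j) (c l) = if i = j then (1 : k) else 0 := by
      intro i
      have := congrFun (congrFun hNM i) j
      rw [Matrix.mul_apply, Matrix.one_apply] at this
      rw [← this]
      rfl
    have h2 : ∑ l, MvPolynomial.C (chr (T.a j) (c l)) * z l =
        ∑ i, MvPolynomial.C (∑ l, N i l * chr (T.a j) (c l)) * (MvPolynomial.X i) := by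
      simp only [z, Finset.mul_sum, map_sum, map_mul, Finset.sum_mul]
      rw [Finset.sum_comm]
      refine Finset.sum_congr rfl fun i _ => Finset.sum_congr rfl fun l _ => ?_
      ring
    rw [h2]
    simp only [h1]
    rw [Finset.sum_eq_single j]
    · rw [if_pos rfl, map_one, one_mul]
    · intro i _ hi
      rw [if_neg hi, map_zero, zero_mul]
    · intro h; exact absurd (Finset.mem_univ _) h
  have hjets := jets (rr T s) s (rr_nil T s) Φ z hz (fun l i hil => by
    have := hΦz l i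
    rw [if_neg (Ne.symm hil), map_zero, sub_zero] at this
    exact this) u (fun l => (hu l).symm) (fun l => by
    refine gen_local T s (c l) _ (u l) fun j => ?_
    have h1 : ((Ps T s (c l) j : (RR T s)ˣ) : RR T s) * (((u l)⁻¹ : (RR T s)ˣ) : RR T s) =
        ∑ i, algebraMap k (RR T s) (chr (T.a j) (c i)) *
          (Φ l (z i) * (((u l)⁻¹ : (RR T s)ˣ) : RR T s)) := by
      rw [← hΦX, hX j, map_sum, Finset.sum_mul]
      refine Finset.sum_congr rfl fun i _ => ?_
      rw [map_mul, ← MvPolynomial.algebraMap_eq, AlgHom.commutes]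
      ring
    rw [h1]
    refine Subalgebra.sum_mem _ fun i _ => Subalgebra.mul_mem _ (Subalgebra.algebraMap_mem _ _) ?_
    exact Algebra.subset_adjoin ⟨i, rfl⟩)
  -- finiteness
  have hfinM : Finite {α : ι → ℕ // ∑ j, α j = 2 * s - 1} := by
    refine Finite.of_injective (fun α j => (⟨α.1 j, by
      have := Finset.single_le_sum (f := fun j => α.1 j) (fun _ _ => Nat.zero_le _)
        (Finset.mem_univ j)
      have h2 := α.2
      omega⟩ : Fin (2 * s - 1 + 1))) ?_
    intro α β hαβ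
    apply Subtype.ext
    funext j
    have := congrFun hαβ j
    exact congrArg Fin.val this
  have : Fintype {α : ι → ℕ // ∑ j, α j = 2 * s - 1} := Fintype.ofFinite _
  have hfin : Module.Finite k (ι → RR T s) := by
    rw [Module.finite_def, ← hjets]
    exact Submodule.fg_span (Set.finite_range _)
  have hfinR : Module.Finite k (RR T s) :=
    Module.Finite.of_surjective (LinearMap.proj T.o : (ι → RR T s) →ₗ[k] RR T s)
      (Function.surjective_eval T.o)
  -- the left side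
  have hleft : Fintype.card ι * qs r (beta k v T.x T.b) s ≤ finrank k (ι → RR T s) := by
    rw [Module.finrank_pi_fintype, Finset.sum_const, smul_eq_mul, Finset.card_univ]
    refine Nat.mul_le_mul_left _ ?_
    have h1 := le_finrank_RT (k := k) (r := r) (nB T) s
    unfold qs cnt
    simp only [beta_eq]
    exact h1
  -- the right side
  have hright : finrank k (span k (Set.range fun α : {α : ι → ℕ // ∑ j, α j = 2 * s - 1} =>
      ∏ j, (T.b j * mx T.x (T.a j)) ^ α.1 j)) ≤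
      finrank k ↥((span k (Set.range fun j => T.b j * mx T.x (T.a j))) ^ (2 * s - 1)) := by
    have hfg : (span k (Set.range fun j => T.b j * mx T.x (T.a j))).FG :=
      Submodule.fg_span (Set.finite_range _)
    have : FiniteDimensional k
        ↥((span k (Set.range fun j => T.b j * mx T.x (T.a j))) ^ (2 * s - 1)) :=
      Module.Finite.iff_fg.mpr (hfg.pow _)
    refine Submodule.finrank_mono ?_
    rw [span_le]
    rintro _ ⟨α, rfl⟩
    have h1 : ∀ S : Finset ι, ∏ j ∈ S, (T.b j * mx T.x (T.a j)) ^ α.1 j ∈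
        (span k (Set.range fun j => T.b j * mx T.x (T.a j))) ^ (∑ j ∈ S, α.1 j) := by
      intro S
      induction S using Finset.induction_on with
      | empty => simp
      | insert a S ha ih =>
        rw [Finset.prod_insert ha, Finset.sum_insert ha, pow_add]
        exact Submodule.mul_mem_mul (Submodule.pow_mem_pow _ (subset_span (Set.mem_range_self a)) _) ih
    have h2 := h1 Finset.univ
    rw [α.2] at h2
    exact h2
  refine hleft.trans (le_trans ?_ hright)
  have h1 : finrank k (ι → RR T s) = finrank k (span k (Set.range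
      fun α : {α : ι → ℕ // ∑ j, α j = 2 * s - 1} => fun l =>
      ∏ j, Φ l (MvPolynomial.X j) ^ α.1 j)) := by
    rw [hjets, finrank_top]
  rw [h1]
  refine finrank_span_le_of_weights (fun α => v (mx T.x (∑ j, α.1 j • T.a j))) _ _ ?_
  intro τ e he hmem
  by_cases hall : ∀ α, e α = 0
  · simp [hall]
  push Not at hall
  obtain ⟨α₀, hα₀⟩ := hall
  set l₀ := ∑ j, α₀.1 j • T.a j with hl₀
  have hτ : v (mx T.x l₀) = τ := he α₀ hα₀
  have hl : ∀ α, e α ≠ 0 → ∑ j, α.1 j • T.a j = l₀ := fun α hα =>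
    mx_inj T ((he α hα).trans hτ.symm)
  -- `g = ∑ e_α b^α`
  let g : Ab k T.b := ∑ α, e α • ⟨∏ j, T.b j ^ α.1 j, prod_b_mem T α.1⟩
  have hg : (g : Ω) * mx T.x l₀ = ∑ α, e α • ∏ j, (T.b j * mx T.x (T.a j)) ^ α.1 j := by
    have h2 : (g : Ω) = ∑ α, e α • ∏ j, T.b j ^ α.1 j := by
      show (Ab k T.b).val g = _
      rw [map_sum]
      rfl
    rw [h2, Finset.sum_mul]
    refine Finset.sum_congr rfl fun α _ => ?_
    by_cases hα : e α = 0
    · rw [hα, zero_smul, zero_smul, zero_mul]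
    · rw [prod_f, hl α hα, smul_mul_assoc]
  have hgI : g ∈ aId v T.x T.b := by
    show (g : Ω) ∈ Is (k := k) v T.x T.b
    have h2 : (g : Ω) = (mx T.x l₀)⁻¹ * ∑ α, e α • ∏ j, (T.b j * mx T.x (T.a j)) ^ α.1 j := by
      rw [← hg, mul_comm (g : Ω), inv_mul_cancel_left₀ (mx_ne T.x_ne l₀)]
    rw [h2]
    have h3 : ∀ w ∈ span k ((fun α : {α : ι → ℕ // ∑ j, α j = 2 * s - 1} =>
        ∏ j, (T.b j * mx T.x (T.a j)) ^ α.1 j) '' {α | τ < v (mx T.x (∑ j, α.1 j • T.a j))}),
        (mx T.x l₀)⁻¹ * w ∈ Is (k := k) v T.x T.b := by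
      intro w hw
      induction hw using Submodule.span_induction with
      | mem w hw =>
        obtain ⟨α, hα, rfl⟩ := hw
        refine subset_span ⟨_, prod_b_mem T α.1, (∑ j, α.1 j • T.a j) - l₀, ?_, ?_⟩
        · have h4 : mx T.x (∑ j, α.1 j • T.a j) =
              mx T.x ((∑ j, α.1 j • T.a j) - l₀) * mx T.x l₀ := by
            rw [← mx_add T.x_ne, sub_add_cancel]
          have h5 := hα
          rw [Set.mem_setOf_eq, h4, v.map_mul (mx_ne T.x_ne _) (mx_ne T.x_ne _), hτ] at h5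
          linarith
        · show (mx T.x l₀)⁻¹ * ∏ j, (T.b j * mx T.x (T.a j)) ^ α.1 j = _
          rw [prod_f]
          have h4 : mx T.x (∑ j, α.1 j • T.a j) =
              mx T.x ((∑ j, α.1 j • T.a j) - l₀) * mx T.x l₀ := by
            rw [← mx_add T.x_ne, sub_add_cancel]
          rw [h4]
          field_simp [mx_ne T.x_ne l₀]
      | zero => rw [mul_zero]; exact zero_mem _
      | add a b _ _ ha hb => rw [mul_add]; exact add_mem ha hb
      | smul e' a _ ha => rw [mul_smul_comm]; exact smul_mem _ _ ha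
    exact h3 _ hmem
  funext l
  rw [Finset.sum_apply]
  have h2 : ∀ α : {α : ι → ℕ // ∑ j, α j = 2 * s - 1},
      (e α • fun l => ∏ j, Φ l (MvPolynomial.X j) ^ α.1 j) l =
      (e α • ph T s ⟨∏ j, T.b j ^ α.1 j, prod_b_mem T α.1⟩) *
        ((∏ i, (uu T s (c l) i) ^ l₀ i : (RR T s)ˣ) : RR T s) := by
    intro α
    rw [Pi.smul_apply]
    by_cases hα : e α = 0
    · rw [hα, zero_smul, zero_smul, zero_mul]
    · simp only [hΦX]
      rw [Ps_prod_nat, hl α hα, smul_mul_assoc]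
  rw [Finset.sum_congr rfl fun α _ => h2 α, ← Finset.sum_mul]
  have h3 : ∑ α : {α : ι → ℕ // ∑ j, α j = 2 * s - 1},
      e α • ph T s ⟨∏ j, T.b j ^ α.1 j, prod_b_mem T α.1⟩ = ph T s g := by
    simp only [g, map_sum, map_smul]
  rw [h3, ph_zero T s g hgI, zero_mul]
  rfl

end Data

end Pool.Agent.TA
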