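import Pool.Agent.Lib.TA.Centre
import Pool.Agent.Lib.TA.BetaMono
import Pool.Agent.Lib.TA.Key
import Pool.Agent.Lib.TA.Num
import Pool.Agent.Lib.TA.Count
import Pool.Agent.Lib.TA.Cramer
import Pool.Agent.Lib.TA.Basis
import Pool.Agent.Lib.LU1_h15.Base_G0s
import Pool.Agent.Lib.ALB.VFilt
import Pool.Agent.Lib.ALB.Growth

/-!
# Toric Albanese (TA8): assembly
-/

set_option autoImplicit false

namespace Pool.Agent.TA

open Pool.Agent.H15JM (RVal)
open Pool.Agent.LU1 (VPos decG fixO)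
open Pool.Agent.LU3 (Ctx0)
open Pool.Agent
open Submodule Module

universe u

variable {k Ω : Type u} [Field k] [Field Ω] [Algebra k Ω] {v : RVal Ω} {n r D : ℕ}
  {ι : Type} [Fintype ι]

section Main

theorem beta_congr {ι : Type} {x x' : Fin r → Ω} {b b' : ι → Ω} (hb : b' = b)
    (hI : Is (k := k) v x' b' = Is (k := k) v x b) : beta k v x' b' = beta k v x b := by
  subst hb
  have : aId (k := k) v x' b' = aId (k := k) v x b' := by
    ext g
    show (g : Ω) ∈ Is (k := k) v x' b' ↔ (g : Ω) ∈ Is (k := k) v x b'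
    rw [hI]
  funext s
  unfold beta
  rw [this]

theorem mx_mem_field (E : IntermediateField k Ω) (x : Fin r → Ω) (hx : ∀ i, x i ∈ E)
    (l : Fin r → ℤ) : mx x l ∈ E :=
  prod_mem fun i _ => zpow_mem (hx i) _

theorem vpos_Wb (h : Ctx0 k v n) {ι : Type} {b : ι → Ω} (hb : ∀ j, VPos v (b j - 1)) {g : Ω}
    (hg : g ∈ Wb k b) : VPos v g := by
  unfold Wb at hg
  induction hg using Submodule.span_induction with
  | mem g hg => obtain ⟨j, rfl⟩ := hg; exact hb j
  | zero => exact fun h0 => absurd rfl h0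
  | add a b _ _ ha hb => exact ha.add hb
  | smul c a _ ha =>
    intro h0
    rw [Algebra.smul_def] at h0 ⊢
    have h1 := left_ne_zero_of_mul h0
    have h2 := right_ne_zero_of_mul h0
    have hc : c ≠ 0 := by
      rintro rfl
      exact h1 (map_zero _)
    rw [v.map_mul h1 h2, h.triv c hc, zero_add]
    exact ha h2

theorem Wb_le_Ab {ι : Type} (b : ι → Ω) {g : Ω} (hg : g ∈ Wb k b) : g ∈ Ab k b := by
  have h1 : Wb k b ≤ (Ab k b).toSubmodule := by
    unfold Wb
    rw [span_le]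
    rintro _ ⟨j, rfl⟩
    exact (Ab k b).sub_mem (b_mem b j) (Ab k b).one_mem
  exact h1 hg

theorem Ab_le_field {ι : Type} {b : ι → Ω} (E : IntermediateField k Ω) (hb : ∀ j, b j ∈ E)
    {g : Ω} (hg : g ∈ Ab k b) : g ∈ E := by
  have h1 : Ab k b ≤ E.toSubalgebra := by
    unfold Ab
    refine Algebra.adjoin_le ?_
    rintro _ (⟨j, rfl⟩ | ⟨j, rfl⟩)
    · exact hb j
    · exact E.inv_mem (hb j)
  exact h1 hg

theorem one_sup_pow_le_succ (X : Submodule k Ω) (m : ℕ) : (1 ⊔ X) ^ m ≤ (1 ⊔ X) ^ (m + 1) := by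
  rw [pow_succ]
  calc (1 ⊔ X) ^ m = (1 ⊔ X) ^ m * 1 := (mul_one _).symm
    _ ≤ (1 ⊔ X) ^ m * (1 ⊔ X) := mul_le_mul' le_rfl le_sup_left

theorem one_sup_pow_le (X : Submodule k Ω) {m m' : ℕ} (h : m ≤ m') :
    (1 ⊔ X) ^ m ≤ (1 ⊔ X) ^ m' := by
  induction h with
  | refl => exact le_rfl
  | step _ ih => exact ih.trans (one_sup_pow_le_succ X _)

theorem one_mem_pow (X : Submodule k Ω) (m : ℕ) : (1 : Ω) ∈ (1 ⊔ X) ^ m := by
  have := one_sup_pow_le X (Nat.zero_le m)
  rw [pow_zero] at this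
  exact this (Submodule.one_le.mp le_rfl)

theorem exists_pow_mem (X : Submodule k Ω) {g : Ω} (hg : g ∈ Algebra.adjoin k (X : Set Ω)) :
    ∃ m, g ∈ (1 ⊔ X) ^ m := by
  induction hg using Algebra.adjoin_induction with
  | mem x hx => exact ⟨1, by rw [pow_one]; exact mem_sup_right hx⟩
  | algebraMap c =>
    refine ⟨0, ?_⟩
    rw [pow_zero, Algebra.algebraMap_eq_smul_one]
    exact smul_mem _ _ (Submodule.one_le.mp le_rfl)
  | add x y _ _ hx hy =>
    obtain ⟨m, hm⟩ := hx
    obtain ⟨m', hm'⟩ := hy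
    exact ⟨max m m', add_mem (one_sup_pow_le X (le_max_left _ _) hm)
      (one_sup_pow_le X (le_max_right _ _) hm')⟩
  | mul x y _ _ hx hy =>
    obtain ⟨m, hm⟩ := hx
    obtain ⟨m', hm'⟩ := hy
    exact ⟨m + m', by rw [pow_add]; exact mul_mem_mul hm hm'⟩

/-- Values of large rational rank appear as differences of values of a power of `1 ⊔ X`. -/
theorem exists_rank (h : CtxR k v n r) (E : IntermediateField k Ω) (X : Submodule k Ω)
    (hX : IntermediateField.adjoin k (X : Set Ω) = E) (halg : ∀ g : Ω, IsAlgebraic E g) :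
    ∃ m₀ : ℕ, ∃ c d : Fin r → Ω, (∀ i, c i ∈ (1 ⊔ X) ^ m₀ ∧ c i ≠ 0 ∧ d i ∈ (1 ⊔ X) ^ m₀ ∧
      d i ≠ 0) ∧ LinearIndependent ℚ fun i => v (c i) - v (d i) := by
  obtain ⟨Z, hZ0, hZli, -⟩ := h.rank
  have h1 : ∀ i : Fin r, ∃ c d : Ω, ∃ m : ℕ, c ∈ (1 ⊔ X) ^ m ∧ c ≠ 0 ∧ d ∈ (1 ⊔ X) ^ m ∧ d ≠ 0 ∧
      ∃ q : ℕ, 0 < q ∧ v c - v d = q * v (Z i) := by
    intro i
    obtain ⟨f, hf0, q, hq, hfq⟩ := LU1.comm_value (v := v) E (Z i) (hZ0 i) (halg _)
    have hfE : (f : Ω) ∈ IntermediateField.adjoin k (X : Set Ω) := by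
      rw [hX]; exact f.2
    rw [IntermediateField.mem_adjoin_iff_div] at hfE
    obtain ⟨c, hc, d, hd, hcd⟩ := hfE
    have hd0 : d ≠ 0 := by
      rintro rfl
      rw [div_zero] at hcd
      exact hf0 hcd
    have hc0 : c ≠ 0 := by
      rintro rfl
      rw [zero_div] at hcd
      exact hf0 hcd
    obtain ⟨m, hm⟩ := exists_pow_mem X hc
    obtain ⟨m', hm'⟩ := exists_pow_mem X hd
    refine ⟨c, d, max m m', one_sup_pow_le X (le_max_left _ _) hm, hc0,
      one_sup_pow_le X (le_max_right _ _) hm', hd0, q, hq, ?_⟩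
    rw [← hfq, hcd, v.map_div hc0 hd0]
  choose c d m hc hc0 hd hd0 q hq hcd using h1
  refine ⟨∑ i, m i, c, d, fun i => ⟨?_, hc0 i, ?_, hd0 i⟩, ?_⟩
  · exact one_sup_pow_le X (Finset.single_le_sum (fun _ _ => Nat.zero_le _) (Finset.mem_univ i))
      (hc i)
  · exact one_sup_pow_le X (Finset.single_le_sum (fun _ _ => Nat.zero_le _) (Finset.mem_univ i))
      (hd i)
  · have h2 := hZli.units_smul fun i => Units.mk0 (q i : ℚ) (by exact_mod_cast (hq i).ne')
    have h3 : (fun i => v (c i) - v (d i)) =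
        (fun i => Units.mk0 (q i : ℚ) (by exact_mod_cast (hq i).ne')) • fun i => v (Z i) := by
      funext i
      rw [hcd i]
      show _ = ((q i : ℚ)) • v (Z i)
      rw [Rat.smul_def]
      push_cast
      rfl
    rw [h3]
    exact h2

theorem algInd (h : Ctx0 k v n) (hn : n = r + D) (x : Fin r → Ω) (y : Fin D → Ω)
    (halg : ∀ g : Ω, IsAlgebraic
      (IntermediateField.adjoin k (Set.range x ∪ Set.range y)) g) :
    AlgebraicIndependent k (Sum.elim x y) := by
  have h1 : Algebra.IsAlgebraic (Algebra.adjoin k (Set.range (Sum.elim x y))) Ω := by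
    constructor
    intro g
    rw [← IntermediateField.isAlgebraic_adjoin_iff, Set.Sum.elim_range]
    exact halg g
  refine (Algebra.IsAlgebraic.isTranscendenceBasis_of_lift_le_trdeg_of_finite k
    (Sum.elim x y) ?_).1
  rw [h.trdeg, hn]
  simp


/-- Values of the combinations of the `f j`. -/
theorem val_mem_span (h : Ctx0 k v n) {ι : Type} [Fintype ι] (T : TD k v r ι) {g : Ω}
    (hg : g ∈ span k (Set.range fun j => T.b j * mx T.x (T.a j))) (hg0 : g ≠ 0) :
    ∃ j, v g = v (mx T.x (T.a j)) := by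
  classical
  obtain ⟨c, hc⟩ := (mem_span_range_iff_exists_fun k).1 hg
  have hf0 : ∀ j, T.b j * mx T.x (T.a j) ≠ 0 := fun j => mul_ne_zero (T.b_ne j) (mx_ne T.x_ne _)
  have hb : ∀ j, v (T.b j) = 0 := by
    intro j
    have h1 := LU1.val_add_vpos (v := v) one_ne_zero v.map_one (T.b_res j)
    rw [add_sub_cancel] at h1
    exact h1.2
  have hval : ∀ j, c j ≠ 0 → v (c j • (T.b j * mx T.x (T.a j))) = v (mx T.x (T.a j)) := by
    intro j hj
    rw [Algebra.smul_def, v.map_mul ((_root_.map_ne_zero _).2 hj) (hf0 j), h.triv _ hj, zero_add,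
      v.map_mul (T.b_ne j) (mx_ne T.x_ne _), hb, zero_add]
  have hsum : ∑ j ∈ Finset.univ.filter (fun j => c j ≠ 0), c j • (T.b j * mx T.x (T.a j)) = g := by
    rw [← hc]
    refine Finset.sum_subset (Finset.filter_subset _ _) ?_
    intro j _ hj
    rw [Finset.mem_filter, not_and, not_not] at hj
    rw [hj (Finset.mem_univ j), zero_smul]
  have hne : (Finset.univ.filter (fun j => c j ≠ 0)).Nonempty := by
    rw [Finset.nonempty_iff_ne_empty]
    intro h0
    rw [h0, Finset.sum_empty] at hsum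
    exact hg0 hsum.symm
  obtain ⟨-, j, hj, hv⟩ := LU1.sum_distinct (v := v) _ hne
    (fun j => c j • (T.b j * mx T.x (T.a j)))
    (fun j hj => by
      rw [Algebra.smul_def]
      exact mul_ne_zero ((_root_.map_ne_zero _).2 (Finset.mem_filter.1 hj).2) (hf0 j))
    (fun i hi j hj hij => by
      rw [hval i (Finset.mem_filter.1 hi).2, hval j (Finset.mem_filter.1 hj).2] at hij
      exact T.a_inj (mx_inj T hij))
  refine ⟨j, ?_⟩
  rw [← hsum, hv, hval j (Finset.mem_filter.1 hj).2]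

/-- The values of the elements of `P` lie in the lattice. -/
theorem val_mem_lat (h : Ctx0 k v n) {ι : Type} [Fintype ι] (T : TD k v r ι) {x' : Fin r → Ω}
    (hx' : ∀ i, x' i ≠ 0) (hxx' : ∀ i, ∃ l, T.x i = mx x' l) {f₀ : Ω} (hf₀ : f₀ ≠ 0)
    {P : Submodule k Ω} (h1 : (1 : Ω) ∈ P)
    (hspan : span k (Set.range fun j => T.b j * mx T.x (T.a j)) = span k {f₀⁻¹} * P)
    {z : Ω} (hz : z ∈ P) (hz0 : z ≠ 0) : ∃ l : Fin r → ℤ, v z = ∑ i, (l i : ℝ) * v (x' i) := by
  classical
  have key : ∀ w ∈ P, w ≠ 0 → ∃ l : Fin r → ℤ, v (f₀⁻¹ * w) = v (mx T.x l) := by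
    intro w hw hw0
    have h2 : f₀⁻¹ * w ∈ span k (Set.range fun j => T.b j * mx T.x (T.a j)) := by
      rw [hspan]
      exact mul_mem_mul (mem_span_singleton_self _) hw
    obtain ⟨j, hj⟩ := val_mem_span h T h2 (mul_ne_zero (inv_ne_zero hf₀) hw0)
    exact ⟨_, hj⟩
  obtain ⟨l₁, h2⟩ := key z hz hz0
  obtain ⟨l₀, h3⟩ := key 1 h1 one_ne_zero
  rw [mul_one] at h3
  rw [v.map_mul (inv_ne_zero hf₀) hz0, h3] at h2
  have h4 : v z = v (mx T.x (l₁ - l₀)) := by
    rw [v_mx T.x_ne, v_mx T.x_ne] at h2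
    rw [v_mx T.x_ne]
    have : ∑ i, (((l₁ - l₀) i : ℤ) : ℝ) * v (T.x i) =
        ∑ i, (l₁ i : ℝ) * v (T.x i) - ∑ i, (l₀ i : ℝ) * v (T.x i) := by
      rw [← Finset.sum_sub_distrib]
      refine Finset.sum_congr rfl fun i _ => ?_
      rw [Pi.sub_apply]; push_cast; ring
    rw [this]
    linarith
  choose V hV using hxx'
  have h5 : mx T.x (l₁ - l₀) = mx x' (Matrix.vecMul (l₁ - l₀) (Matrix.of V)) := by
    rw [← mx_mx x' (Matrix.of V) _ hx']
    have h6 : T.x = fun j => mx x' (Matrix.of V j) := funext fun i => hV i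
    rw [← h6]
  exact ⟨_, by rw [h4, h5, v_mx hx']⟩

/-- TA8 with the lattice clause: the values of the finitely many elements `z ∈ Z` are integral
combinations of the values of the `x i`. -/
theorem toric_albanese_z (h : CtxR k v n r) [IsAlgClosed k] (hn : n = r + D)
    (E : IntermediateField k Ω)
    (hfg : ∃ S : Finset Ω, E = IntermediateField.adjoin k (S : Set Ω))
    (halg : ∀ g : Ω, IsAlgebraic E g) (Z : Finset Ω) (hZ : ∀ z ∈ Z, z ∈ E ∧ z ≠ 0) :
    ∃ (x : Fin r → Ω) (y : Fin D → Ω), (∀ i, x i ∈ E ∧ x i ≠ 0 ∧ 0 < v (x i)) ∧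
      LinearIndependent ℚ (fun i => v (x i)) ∧ (∀ j, y j ∈ E ∧ y j ≠ 0 ∧ 0 < v (y j)) ∧
      AlgebraicIndependent k (Sum.elim x y) ∧
      (∀ z ∈ Z, ∃ l : Fin r → ℤ, v z = ∑ i, (l i : ℝ) * v (x i)) ∧
      ∀ F : IntermediateField k Ω, F = IntermediateField.adjoin k (Set.range x ∪ Set.range y) →
        (∀ g ∈ E, IsSeparable F g) ∧
        ∀ (N : IntermediateField F Ω) [FiniteDimensional F N] [IsGalois F N]
          (H : Subgroup (N ≃ₐ[F] N)), fixO F N H = E →
          H.relIndex (decG v F N) ≤ 2 ^ n * n.factorial := by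
  classical
  have hinf : Infinite k := IsAlgClosed.instInfinite
  obtain ⟨S₀, hS₀⟩ := hfg
  obtain ⟨S, hS, hZS⟩ : ∃ S : Finset Ω, E = IntermediateField.adjoin k (S : Set Ω) ∧ Z ⊆ S := by
    refine ⟨S₀ ∪ Z, ?_, Finset.subset_union_right⟩
    apply le_antisymm
    · rw [hS₀]
      refine IntermediateField.adjoin.mono k _ _ ?_
      rw [Finset.coe_union]
      exact Set.subset_union_left
    · rw [IntermediateField.adjoin_le_iff, Finset.coe_union]
      rintro g (hg | hg)
      · rw [hS₀]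
        exact IntermediateField.subset_adjoin k _ hg
      · exact (hZ g hg).1
  set X : Submodule k Ω := span k (S : Set Ω) with hXdef
  have hXfin : FiniteDimensional k X := FiniteDimensional.span_of_finite k S.finite_toSet
  have hXE : IntermediateField.adjoin k (X : Set Ω) = E := by
    rw [hS]
    apply le_antisymm
    · rw [IntermediateField.adjoin_le_iff]
      intro g hg
      have h1 : X ≤ (IntermediateField.adjoin k (S : Set Ω)).toSubalgebra.toSubmodule := by
        rw [hXdef, span_le]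
        exact fun g hg => IntermediateField.subset_adjoin k _ hg
      exact h1 hg
    · exact IntermediateField.adjoin.mono k _ _ subset_span
  have hfinP : ∀ m, FiniteDimensional k ((1 ⊔ X) ^ m : Submodule k Ω) :=
    fun m => ALB.finite_one_sup_pow X m
  have hadj : ∀ m, 1 ≤ m → IntermediateField.adjoin k (((1 ⊔ X) ^ m : Submodule k Ω) : Set Ω) = E := by
    intro m hm
    apply le_antisymm
    · rw [IntermediateField.adjoin_le_iff]
      have h1 : (1 ⊔ X) ^ m ≤ E.toSubalgebra.toSubmodule := by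
        have h2 : 1 ⊔ X ≤ E.toSubalgebra.toSubmodule := by
          refine sup_le ?_ ?_
          · rw [Submodule.one_le]
            exact E.toSubalgebra.one_mem
          · intro g hg
            have : g ∈ IntermediateField.adjoin k (X : Set Ω) :=
              IntermediateField.subset_adjoin k _ hg
            rw [hXE] at this
            exact this
        clear hm
        induction m with
        | zero =>
          rw [pow_zero, Submodule.one_le]
          exact E.toSubalgebra.one_mem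
        | succ m ih =>
          rw [pow_succ]
          exact Submodule.mul_le.2 fun a ha b hb => E.toSubalgebra.mul_mem (ih ha) (h2 hb)
      exact h1
    · rw [← hXE]
      refine IntermediateField.adjoin.mono k _ _ ?_
      have h1 : X ≤ (1 ⊔ X) ^ m := by
        calc X ≤ (1 ⊔ X) ^ 1 := by rw [pow_one]; exact le_sup_right
          _ ≤ (1 ⊔ X) ^ m := one_sup_pow_le X hm
      exact h1
  obtain ⟨m₀, c, d, hcd, hli⟩ := exists_rank h E X hXE halg
  obtain ⟨C, hC⟩ := ALB.growth n (le_of_eq h.trdeg) X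
  by_contra hcon
  push Not at hcon
  refine Num.contradiction n C (fun m => finrank k ((1 ⊔ X) ^ m : Submodule k Ω)) (m₀ + 1) ?_ hC ?_
  · intro m
    have := hfinP m
    rw [Nat.one_le_iff_ne_zero]
    intro h0
    rw [Submodule.finrank_eq_zero] at h0
    have h1 := one_mem_pow X m
    rw [h0, mem_bot] at h1
    exact one_ne_zero h1
  · intro m hm
    have hfm := hfinP m
    obtain ⟨T, f₀, hf₀, hf₀0, hspan, hTE, hxE, hdx⟩ := exists_TD h E ⟨S, hS⟩ halg ((1 ⊔ X) ^ m)
      (one_mem_pow X m) (hadj m (by omega))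
      ⟨c, d, fun i => ⟨one_sup_pow_le X (by omega) (hcd i).1, (hcd i).2.1,
        one_sup_pow_le X (by omega) (hcd i).2.2.1, (hcd i).2.2.2⟩, hli⟩
    obtain ⟨T', hb, hpos, hx1, hx2, hIs, hXA⟩ := exists_cone h.toCtx0 T
    have hβ : beta k v T'.x T'.b = beta k v T.x T.b := beta_congr hb hIs
    -- the key inequality
    have hkey : ∀ s, (finrank k ((1 ⊔ X) ^ m : Submodule k Ω)) * qs r (beta k v T'.x T'.b) s ≤
        finrank k ((1 ⊔ X) ^ (m * (2 * s - 1)) : Submodule k Ω) := by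
      intro s
      have h1 := key h.toCtx0 T s
      rw [Fintype.card_fin, hspan, ALB.finrank_span_inv_mul_pow hf₀0, ← pow_mul, ← hβ] at h1
      exact h1
    have hmono : Monotone (beta k v T'.x T'.b) := beta_mono h.toCtx0 T'
    have hIpos : 0 < (finrank k ((1 ⊔ X) ^ m : Submodule k Ω)) := by
      rw [Nat.pos_iff_ne_zero]
      intro h0
      rw [Submodule.finrank_eq_zero] at h0
      have h1 := one_mem_pow X m
      rw [h0, mem_bot] at h1
      exact one_ne_zero h1
    obtain ⟨C', hC'⟩ := growth_beta (finrank k ((1 ⊔ X) ^ m : Submodule k Ω)) (C * (2 * m + 1) ^ n) (beta k v T'.x T'.b) hIpos hmono hn (by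
      intro s
      refine (hkey s).trans ((hC _).trans ?_)
      rw [mul_assoc, ← mul_pow]
      refine Nat.mul_le_mul_left _ (Nat.pow_le_pow_left ?_ _)
      have : m * (2 * s - 1) ≤ m * (2 * s) := Nat.mul_le_mul_left _ (by omega)
      nlinarith)
    have hE' : IntermediateField.adjoin k (Set.range T'.x ∪ Set.range T'.b) = E := by
      rw [← hTE, hb]
      apply le_antisymm
      · rw [IntermediateField.adjoin_le_iff]
        rintro _ (⟨i, rfl⟩ | ⟨j, rfl⟩)
        · obtain ⟨l, hl⟩ := hx1 i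
          rw [hl]
          exact mx_mem_field _ _
            (fun i => IntermediateField.subset_adjoin k _ (Or.inl ⟨i, rfl⟩)) _
        · exact IntermediateField.subset_adjoin k _ (Or.inr ⟨j, rfl⟩)
      · rw [IntermediateField.adjoin_le_iff]
        rintro _ (⟨i, rfl⟩ | ⟨j, rfl⟩)
        · obtain ⟨l, hl⟩ := hx2 i
          rw [hl]
          exact mx_mem_field _ _
            (fun i => IntermediateField.subset_adjoin k _ (Or.inl ⟨i, rfl⟩)) _
        · exact IntermediateField.subset_adjoin k _ (Or.inr ⟨j, rfl⟩)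
    have hx'E : ∀ i, T'.x i ∈ E := fun i => by
      rw [← hE']
      exact IntermediateField.subset_adjoin k _ (Or.inl ⟨i, rfl⟩)
    have hb'E : ∀ j, T'.b j ∈ E := fun j => by
      rw [← hE']
      exact IntermediateField.subset_adjoin k _ (Or.inr ⟨j, rfl⟩)
    have hdx' := li_D_of_mx E T.x T'.x T.x_ne T'.x_ne hx2 hxE hx'E hdx
    have hXA' : ∀ g ∈ Ab k T'.b, g ∈ Is (k := k) v T'.x T'.b → g ∈ XA k T'.x T'.b := by
      intro g hg hgI
      rw [hIs] at hgI
      rw [hb] at hg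
      exact hXA g hg hgI
    obtain ⟨y, s₀, hy, hrel, hsep⟩ := exists_y h.toCtx0 hn E halg T' hpos hE' hx'E hdx' hXA' C' hC'
    set F := IntermediateField.adjoin k (Set.range T'.x ∪ Set.range y) with hF
    have hyE : ∀ j, y j ∈ E := fun j => Ab_le_field E hb'E (Wb_le_Ab T'.b (hy j))
    have hFE : F ≤ E := by
      rw [hF, IntermediateField.adjoin_le_iff]
      rintro _ (⟨i, rfl⟩ | ⟨j, rfl⟩)
      · exact hx'E i
      · exact hyE j
    have halgF : ∀ g : Ω, IsAlgebraic F g := by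
      intro g
      have h1 : Algebra.IsAlgebraic F (IntermediateField.extendScalars hFE) := by
        constructor
        rintro ⟨z, hz⟩
        have := (hsep z hz).isIntegral.isAlgebraic
        exact (isAlgebraic_algHom_iff (IntermediateField.extendScalars hFE).val
          Subtype.val_injective).1 this
      have h2 : IsAlgebraic (IntermediateField.extendScalars hFE) g := halg g
      exact h2.restrictScalars F
    have hai : AlgebraicIndependent k (Sum.elim T'.x y) := algInd h.toCtx0 hn T'.x y halgF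
    have hy0 : ∀ j, y j ≠ 0 := fun j => hai.ne_zero (Sum.inr j)
    have hlat : ∀ z ∈ Z, ∃ l : Fin r → ℤ, v z = ∑ i, (l i : ℝ) * v (T'.x i) := by
      intro z hz
      refine val_mem_lat h.toCtx0 T T'.x_ne hx2 hf₀0 (one_mem_pow X m) hspan ?_ (hZ z hz).2
      have h1 : z ∈ (1 ⊔ X) ^ 1 := by
        rw [pow_one]
        exact mem_sup_right (subset_span (Finset.mem_coe.2 (hZS hz)))
      exact one_sup_pow_le X (by omega) h1
    obtain ⟨F', hF', hcon'⟩ := hcon T'.x y (fun i => ⟨hx'E i, T'.x_ne i, hpos i⟩) T'.x_ind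
      (fun j => ⟨hyE j, hy0 j, vpos_Wb h.toCtx0 T'.b_res (hy j) (hy0 j)⟩) hai hlat
    subst hF'
    obtain ⟨N, hN1, hN2, H, hH, hlt⟩ := hcon' hsep
    have hEN : ∀ g ∈ E, g ∈ N := by
      intro g hg
      rw [← hH, LU1.mem_fixO] at hg
      obtain ⟨z, hz, -⟩ := hg
      rw [← hz]
      exact z.2
    obtain ⟨ω, hωx, hωy, hωk, hωP, hω1, hω2⟩ := exists_omega h.toCtx0 hn E halg T' hpos hE' y s₀ hy
      hrel F hF hsep N hEN (s₀ + 1) (Nat.succ_pos _)
    obtain ⟨c₁, hc₁⟩ := count h.toCtx0 hn E halg T' hpos hE' hXA' y s₀ hy hrel F hF hsep N H hH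
      (s₀ + 1) rfl ω hωx hωy hωk hωP hω1 hω2
    refine ⟨r * (s₀ + 1) + c₁, fun s hs => ?_⟩
    refine le_trans ?_ (hkey s)
    refine Nat.mul_le_mul_left _ ?_
    refine le_trans ?_ (qM_le_qs (s₀ + 1) (Nat.succ_pos _) (beta k v T'.x T'.b) hmono
      (beta_zero T') s)
    have h1 := hc₁ (s - r * (s₀ + 1))
    have h2 := choose_le_cM (n := n) (r := r) (D := D) (s₀ + 1) (Nat.succ_pos _) hn
      (s - (r * (s₀ + 1) + c₁)) (by omega)
    have h3 : s - r * (s₀ + 1) - c₁ = s - (r * (s₀ + 1) + c₁) := by omega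
    rw [h3] at h1
    calc (2 ^ n * n.factorial + 1) * (s - (r * (s₀ + 1) + c₁) - 1 + n).choose n
        ≤ H.relIndex (decG v F N) * ((s₀ + 1) ^ r * cM r D (s₀ + 1) (s - (r * (s₀ + 1) + c₁))) :=
          Nat.mul_le_mul hlt h2
      _ = (s₀ + 1) ^ r * (H.relIndex (decG v F N) *
            cM r D (s₀ + 1) (s - (r * (s₀ + 1) + c₁))) := by ring
      _ ≤ (s₀ + 1) ^ r * qM r (s₀ + 1) (beta k v T'.x T'.b) (s - r * (s₀ + 1)) :=
          Nat.mul_le_mul_left _ h1

/-- TA8: toric Albanese. -/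
theorem toric_albanese (h : CtxR k v n r) [IsAlgClosed k] (hn : n = r + D)
    (E : IntermediateField k Ω)
    (hfg : ∃ S : Finset Ω, E = IntermediateField.adjoin k (S : Set Ω))
    (halg : ∀ g : Ω, IsAlgebraic E g) :
    ∃ (x : Fin r → Ω) (y : Fin D → Ω), (∀ i, x i ∈ E ∧ x i ≠ 0 ∧ 0 < v (x i)) ∧
      LinearIndependent ℚ (fun i => v (x i)) ∧ (∀ j, y j ∈ E ∧ y j ≠ 0 ∧ 0 < v (y j)) ∧
      AlgebraicIndependent k (Sum.elim x y) ∧
      ∀ F : IntermediateField k Ω, F = IntermediateField.adjoin k (Set.range x ∪ Set.range y) →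
        (∀ g ∈ E, IsSeparable F g) ∧
        ∀ (N : IntermediateField F Ω) [FiniteDimensional F N] [IsGalois F N]
          (H : Subgroup (N ≃ₐ[F] N)), fixO F N H = E →
          H.relIndex (decG v F N) ≤ 2 ^ n * n.factorial := by
  obtain ⟨x, y, h1, h2, h3, h4, -, h5⟩ := toric_albanese_z h hn E hfg halg ∅ (by simp)
  exact ⟨x, y, h1, h2, h3, h4, h5⟩

end Main

end Pool.Agent.TA
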